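import Mathlib

/-!
# Thompson's group `F` acting on `ℚ`

`Au` is the group of order automorphisms of `ℚ`.  The generators `X0`, `X1` of Thompson's group are
realised as piecewise linear maps supported in `[0, 1]`; `tau = X0⁻¹`.
-/

set_option autoImplicit false

namespace Pool.Agent.Helper48.Thompson

/-- Order automorphisms of `ℚ`. -/
abbrev Au : Type := ℚ ≃o ℚ

lemma au_mul (f g : Au) (t : ℚ) : (f * g) t = f (g t) := rfl
lemma au_one (t : ℚ) : (1 : Au) t = t := rfl
@[simp] lemma au_inv_self (f : Au) (t : ℚ) : f⁻¹ (f t) = t := RelIso.inv_apply_self f t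
@[simp] lemma au_self_inv (f : Au) (t : ℚ) : f (f⁻¹ t) = t := RelIso.apply_inv_self f t

lemma au_inv_eq (f : Au) (s t : ℚ) : f⁻¹ s = t ↔ s = f t := by
  constructor
  · rintro rfl; simp
  · rintro rfl; simp

lemma au_lt (f : Au) {s t : ℚ} : f s < f t ↔ s < t := f.lt_iff_lt
lemma au_le (f : Au) {s t : ℚ} : f s ≤ f t ↔ s ≤ t := f.le_iff_le

lemma au_lt_inv (f : Au) {s t : ℚ} : s < f⁻¹ t ↔ f s < t := by
  conv_rhs => rw [← au_self_inv f t]
  exact (au_lt f).symm
lemma au_inv_lt (f : Au) {s t : ℚ} : f⁻¹ s < t ↔ s < f t := by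
  conv_rhs => rw [← au_self_inv f s]
  exact (au_lt f).symm
lemma au_le_inv (f : Au) {s t : ℚ} : s ≤ f⁻¹ t ↔ f s ≤ t := by
  conv_rhs => rw [← au_self_inv f t]
  exact (au_le f).symm
lemma au_inv_le (f : Au) {s t : ℚ} : f⁻¹ s ≤ t ↔ s ≤ f t := by
  conv_rhs => rw [← au_self_inv f s]
  exact (au_le f).symm

/-- The function underlying `tau = X0⁻¹`. -/
def tauFun (t : ℚ) : ℚ :=
  if t ≤ 0 then t else if t ≤ 1/4 then 2 * t else if t ≤ 1/2 then t + 1/4
  else if t ≤ 1 then (1 + t) / 2 else t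

/-- The function underlying `X0`. -/
def x0Fun (t : ℚ) : ℚ :=
  if t ≤ 0 then t else if t ≤ 1/2 then t / 2 else if t ≤ 3/4 then t - 1/4
  else if t ≤ 1 then 2 * t - 1 else t

lemma tauFun_x0Fun (t : ℚ) : tauFun (x0Fun t) = t := by
  unfold tauFun x0Fun
  split_ifs <;> linarith

lemma x0Fun_tauFun (t : ℚ) : x0Fun (tauFun t) = t := by
  unfold tauFun x0Fun
  split_ifs <;> linarith

lemma tauFun_mono : StrictMono tauFun := by
  intro s t h
  unfold tauFun
  split_ifs <;> linarith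

/-- `tau = X0⁻¹`, pushing `(0,1)` to the right. -/
def tau : Au :=
  { toFun := tauFun
    invFun := x0Fun
    left_inv := x0Fun_tauFun
    right_inv := tauFun_x0Fun
    map_rel_iff' := tauFun_mono.le_iff_le }

lemma tau_apply (t : ℚ) : tau t = tauFun t := rfl
lemma tau_inv_apply (t : ℚ) : tau⁻¹ t = x0Fun t := rfl

/-- The left half map `t ↦ t / 2`. -/
def A0 : Au :=
  { toFun := fun t => t / 2
    invFun := fun t => 2 * t
    left_inv := fun t => by ring
    right_inv := fun t => by ring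
    map_rel_iff' := by
      intro s t
      simp only [Equiv.coe_fn_mk]
      constructor <;> intro h <;> linarith }

/-- The right half map `t ↦ (1 + t) / 2`. -/
def A1 : Au :=
  { toFun := fun t => (1 + t) / 2
    invFun := fun t => 2 * t - 1
    left_inv := fun t => by ring
    right_inv := fun t => by ring
    map_rel_iff' := by
      intro s t
      simp only [Equiv.coe_fn_mk]
      constructor <;> intro h <;> linarith }

@[simp] lemma A0_apply (t : ℚ) : A0 t = t / 2 := rfl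
@[simp] lemma A1_apply (t : ℚ) : A1 t = (1 + t) / 2 := rfl
@[simp] lemma A0_inv_apply (t : ℚ) : A0⁻¹ t = 2 * t := rfl
@[simp] lemma A1_inv_apply (t : ℚ) : A1⁻¹ t = 2 * t - 1 := rfl

/-- Conjugation `g ↦ a g a⁻¹`. -/
def cj (a g : Au) : Au := a * g * a⁻¹

lemma cj_apply (a g : Au) (t : ℚ) : cj a g t = a (g (a⁻¹ t)) := rfl
lemma cj_apply' (a g : Au) (t : ℚ) : cj a g (a t) = a (g t) := by simp [cj_apply]
@[simp] lemma cj_mul (a g h : Au) : cj a (g * h) = cj a g * cj a h := by simp [cj, mul_assoc]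
@[simp] lemma cj_one (a : Au) : cj a 1 = 1 := by simp [cj]
@[simp] lemma cj_inv (a g : Au) : cj a g⁻¹ = (cj a g)⁻¹ := by simp [cj, mul_assoc]
lemma cj_cj (a b g : Au) : cj a (cj b g) = cj (a * b) g := by simp [cj, mul_assoc]
lemma cj_one_left (g : Au) : cj 1 g = g := by simp [cj]
lemma cj_pow (a g : Au) (n : ℕ) : cj a (g ^ n) = (cj a g) ^ n := by
  simp [cj, conj_pow]
lemma cj_zpow (a g : Au) (n : ℤ) : cj a (g ^ n) = (cj a g) ^ n := by
  simp [cj, conj_zpow]
lemma cj_eq_iff (a g h : Au) : cj a g = cj a h ↔ g = h := by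
  simp [cj]

/-- `Sup a b g`: the support of `g` is contained in the open interval `(a, b)`. -/
def Sup (a b : ℚ) (g : Au) : Prop := ∀ t, ¬ (a < t ∧ t < b) → g t = t

lemma Sup.one (a b : ℚ) : Sup a b 1 := fun _ _ => rfl

lemma Sup.map_left {a b : ℚ} {g : Au} (h : Sup a b g) : g a = a := h a (by simp)
lemma Sup.map_right {a b : ℚ} {g : Au} (h : Sup a b g) : g b = b := h b (by simp)

lemma Sup.mem {a b : ℚ} {g : Au} (h : Sup a b g) {t : ℚ} (ht : a < t ∧ t < b) :
    a < g t ∧ g t < b := by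
  constructor
  · have := (au_lt g).2 ht.1; rwa [h.map_left] at this
  · have := (au_lt g).2 ht.2; rwa [h.map_right] at this

lemma Sup.mul {a b : ℚ} {g h : Au} (hg : Sup a b g) (hh : Sup a b h) : Sup a b (g * h) := by
  intro t ht
  rw [au_mul, hh t ht, hg t ht]

lemma Sup.inv {a b : ℚ} {g : Au} (hg : Sup a b g) : Sup a b g⁻¹ := by
  intro t ht
  rw [au_inv_eq, hg t ht]

lemma Sup.mono {a b c d : ℚ} {g : Au} (hg : Sup a b g) (h1 : c ≤ a) (h2 : b ≤ d) : Sup c d g := by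
  intro t ht
  apply hg t
  rintro ⟨h3, h4⟩
  exact ht ⟨lt_of_le_of_lt h1 h3, lt_of_lt_of_le h4 h2⟩

lemma Sup.cj {a b : ℚ} {g : Au} (hg : Sup a b g) (k : Au) : Sup (k a) (k b) (cj k g) := by
  intro t ht
  rw [cj_apply, hg (k⁻¹ t), au_self_inv]
  rwa [au_lt_inv, au_inv_lt]

lemma Sup.pow {a b : ℚ} {g : Au} (hg : Sup a b g) (n : ℕ) : Sup a b (g ^ n) := by
  induction n with
  | zero => simpa using Sup.one a b
  | succ n ih => rw [pow_succ]; exact ih.mul hg

lemma Sup.commute {a b c d : ℚ} {g h : Au} (hg : Sup a b g) (hh : Sup c d h) (hbc : b ≤ c) :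
    g * h = h * g := by
  ext t
  rw [au_mul, au_mul]
  by_cases h1 : a < t ∧ t < b
  · have h2 : h t = t := hh t (by rintro ⟨h3, -⟩; linarith [h1.2])
    have h3 := hg.mem h1
    rw [h2, hh (g t) (by rintro ⟨h4, -⟩; linarith [h3.2])]
  · by_cases h2 : c < t ∧ t < d
    · have h3 := hh.mem h2
      rw [hg t h1, hg (h t) (by rintro ⟨-, h4⟩; linarith [h3.1])]
    · rw [hh t h2, hg t h1, hh t h2]

/-- Conjugating an element supported in `(a, b)` only depends on the values of the conjugator on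
`[a, b]`. -/
lemma Sup.cj_congr {a b : ℚ} {g : Au} (hg : Sup a b g) {k l : Au}
    (h : ∀ t, a ≤ t → t ≤ b → k t = l t) : Thompson.cj k g = Thompson.cj l g := by
  ext t
  rw [cj_apply, cj_apply]
  by_cases h1 : a < k⁻¹ t ∧ k⁻¹ t < b
  · have h2 : l⁻¹ t = k⁻¹ t := by
      rw [au_inv_eq, ← h _ h1.1.le h1.2.le, au_self_inv]
    rw [h2]
    have h3 := hg.mem h1
    exact h _ h3.1.le h3.2.le
  · rw [hg _ h1, au_self_inv]
    have h2 : ¬ (a < l⁻¹ t ∧ l⁻¹ t < b) := by
      intro h2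
      apply h1
      have h3 : k⁻¹ t = l⁻¹ t := by
        rw [au_inv_eq, h _ h2.1.le h2.2.le, au_self_inv]
      rwa [h3]
    rw [hg _ h2, au_self_inv]

/-! ### The generators -/

/-- The first generator of `F`. -/
def X0 : Au := tau⁻¹
/-- The second generator of `F`: the copy of `X0` on `[1/2, 1]`. -/
def X1 : Au := cj A1 X0

lemma X0_apply (t : ℚ) : X0 t = x0Fun t := rfl

lemma sup_tau : Sup 0 1 tau := by
  intro t ht
  rw [tau_apply, tauFun]
  by_cases h0 : t ≤ 0
  · simp [h0]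
  · have : 1 ≤ t := by by_contra h; exact ht ⟨lt_of_not_ge h0, lt_of_not_ge h⟩
    split_ifs <;> linarith

lemma sup_X0 : Sup 0 1 X0 := sup_tau.inv

/-- The realisation of Thompson's group `F` as a group of automorphisms of `ℚ`. -/
def FF : Subgroup Au := Subgroup.closure {X0, X1}

lemma X0_mem : X0 ∈ FF := Subgroup.subset_closure (by simp)
lemma X1_mem : X1 ∈ FF := Subgroup.subset_closure (by simp)
lemma tau_mem : tau ∈ FF := by
  have := FF.inv_mem X0_mem
  simpa [X0] using this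

/-- Transport to the left half. -/
abbrev i0 (g : Au) : Au := cj A0 g
/-- Transport to the right half. -/
abbrev i1 (g : Au) : Au := cj A1 g

lemma Sup.i0 {a b : ℚ} {g : Au} (hg : Sup a b g) : Sup (a / 2) (b / 2) (i0 g) := hg.cj A0
lemma Sup.i1 {a b : ℚ} {g : Au} (hg : Sup a b g) : Sup ((1 + a) / 2) ((1 + b) / 2) (i1 g) :=
  hg.cj A1

/-- `tau` maps `[1/4, 1/2]` onto `[1/2, 3/4]` affinely. -/
lemma cj_tau_i01 {g : Au} (hg : Sup 0 1 g) : cj tau (i0 (i1 g)) = i1 (i0 g) := by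
  rw [cj_cj, cj_cj, i1, cj_cj]
  apply hg.cj_congr
  intro t h0 h1
  simp only [au_mul, A0_apply, A1_apply, tau_apply, tauFun]
  split_ifs <;> linarith

lemma cj_tau_i1 {g : Au} (hg : Sup 0 1 g) : cj tau (i1 g) = i1 (i1 g) := by
  rw [cj_cj, i1, cj_cj]
  apply hg.cj_congr
  intro t h0 h1
  simp only [au_mul, A1_apply, tau_apply, tauFun]
  split_ifs <;> linarith

lemma cj_tau_i00 {g : Au} (hg : Sup 0 1 g) : cj tau (i0 (i0 g)) = i0 g := by
  rw [cj_cj, cj_cj]
  apply hg.cj_congr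
  intro t h0 h1
  simp only [au_mul, A0_apply, tau_apply, tauFun]
  split_ifs <;> linarith

lemma i1_X0 : i1 X0 = X1 := rfl

lemma i1_X1 : i1 X1 = tau * X1 * tau⁻¹ := by
  have := cj_tau_i1 sup_X0
  rw [cj] at this
  exact this.symm

lemma tau_1 {t : ℚ} (h : t ≤ 0) : tau t = t := by
  rw [tau_apply, tauFun, if_pos h]
lemma tau_2 {t : ℚ} (h : 0 ≤ t) (h' : t ≤ 1/4) : tau t = 2 * t := by
  rw [tau_apply, tauFun]; split_ifs <;> linarith
lemma tau_3 {t : ℚ} (h : 1/4 ≤ t) (h' : t ≤ 1/2) : tau t = t + 1/4 := by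
  rw [tau_apply, tauFun]; split_ifs <;> linarith
lemma tau_4 {t : ℚ} (h : 1/2 ≤ t) (h' : t ≤ 1) : tau t = (1 + t) / 2 := by
  rw [tau_apply, tauFun]; split_ifs <;> linarith
lemma tau_5 {t : ℚ} (h : 1 ≤ t) : tau t = t := by
  rw [tau_apply, tauFun]; split_ifs <;> linarith

lemma X0_1 {t : ℚ} (h : t ≤ 0) : X0 t = t := by
  rw [X0_apply, x0Fun, if_pos h]
lemma X0_2 {t : ℚ} (h : 0 ≤ t) (h' : t ≤ 1/2) : X0 t = t / 2 := by
  rw [X0_apply, x0Fun]; split_ifs <;> linarith
lemma X0_3 {t : ℚ} (h : 1/2 ≤ t) (h' : t ≤ 3/4) : X0 t = t - 1/4 := by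
  rw [X0_apply, x0Fun]; split_ifs <;> linarith
lemma X0_4 {t : ℚ} (h : 3/4 ≤ t) (h' : t ≤ 1) : X0 t = 2 * t - 1 := by
  rw [X0_apply, x0Fun]; split_ifs <;> linarith
lemma X0_5 {t : ℚ} (h : 1 ≤ t) : X0 t = t := by
  rw [X0_apply, x0Fun]; split_ifs <;> linarith

lemma X1_inv_apply (t : ℚ) : X1⁻¹ t = (1 + tau (2 * t - 1)) / 2 := by
  rw [X1, ← cj_inv]; simp [cj_apply, X0]

lemma i0_X0 : i0 X0 = X0 * X0 * X1⁻¹ * X0⁻¹ := by
  ext t
  have e2 : X0⁻¹ = tau := inv_inv tau
  rw [cj_apply, au_mul, au_mul, au_mul, e2, X1_inv_apply, A0_apply, A0_inv_apply]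
  rcases le_or_gt t 0 with h1 | h1
  · rw [show tau t = t from tau_1 h1, show tau (2 * t - 1) = 2 * t - 1 from tau_1 (by linarith),
      show (1 + (2 * t - 1)) / 2 = t by ring, show X0 t = t from X0_1 (by linarith),
      show X0 t = t from X0_1 (by linarith), show X0 (2 * t) = 2 * t from X0_1 (by linarith)]; ring
  rcases le_or_gt t (1/4) with h2 | h2
  · rw [show tau t = 2 * t from tau_2 h1.le h2,
      show tau (2 * (2 * t) - 1) = 2 * (2 * t) - 1 from tau_1 (by linarith),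
      show (1 + (2 * (2 * t) - 1)) / 2 = 2 * t by ring,
      show X0 (2 * t) = t by rw [X0_2 (by linarith) (by linarith)]; ring,
      show X0 t = t / 2 from X0_2 (by linarith) (by linarith)]
  rcases le_or_gt t (3/8) with h3 | h3
  · rw [show tau t = t + 1/4 from tau_3 h2.le (by linarith),
      show tau (2 * (t + 1/4) - 1) = 4 * t - 1 by rw [tau_2 (by linarith) (by linarith)]; ring,
      show (1 + (4 * t - 1)) / 2 = 2 * t by ring,
      show X0 (2 * t) = 2 * t - 1/4 from X0_3 (by linarith) (by linarith),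
      show X0 (2 * t - 1/4) = (2 * t - 1/4) / 2 from X0_2 (by linarith) (by linarith)]
  rcases le_or_gt t (1/2) with h4 | h4
  · rw [show tau t = t + 1/4 from tau_3 h2.le (by linarith),
      show tau (2 * (t + 1/4) - 1) = 2 * t - 1/4 by rw [tau_3 (by linarith) (by linarith)]; ring,
      show (1 + (2 * t - 1/4)) / 2 = t + 3/8 by ring,
      show X0 (t + 3/8) = 2 * t - 1/4 by rw [X0_4 (by linarith) (by linarith)]; ring,
      show X0 (2 * t) = 4 * t - 1 by rw [X0_4 (by linarith) (by linarith)]; ring,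
      show X0 (2 * t - 1/4) = 2 * t - 1/2 by rw [X0_3 (by linarith) (by linarith)]; ring]
    ring
  rcases le_or_gt t 1 with h5 | h5
  · rw [show tau t = (1 + t) / 2 from tau_4 h4.le h5,
      show tau (2 * ((1 + t) / 2) - 1) = (1 + t) / 2 by
        rw [show 2 * ((1 + t) / 2) - 1 = t by ring]; exact tau_4 h4.le h5,
      show X0 ((1 + (1 + t) / 2) / 2) = (1 + t) / 2 by rw [X0_4 (by linarith) (by linarith)]; ring,
      show X0 ((1 + t) / 2) = t by rw [X0_4 (by linarith) (by linarith)]; ring,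
      show X0 (2 * t) = 2 * t from X0_5 (by linarith)]
    ring
  · rw [show tau t = t from tau_5 h5.le, show tau (2 * t - 1) = 2 * t - 1 from tau_5 (by linarith),
      show (1 + (2 * t - 1)) / 2 = t by ring, show X0 t = t from X0_5 (by linarith),
      show X0 t = t from X0_5 (by linarith), show X0 (2 * t) = 2 * t from X0_5 (by linarith)]
    ring

lemma i0_i1_eq {g : Au} (hg : Sup 0 1 g) : i0 (i1 g) = X0 * i1 (i0 g) * X0⁻¹ := by
  rw [← cj_tau_i01 hg, cj, X0]; group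

lemma FF_le {K : Subgroup Au} (h0 : X0 ∈ K) (h1 : X1 ∈ K) : FF ≤ K := by
  rw [FF, Subgroup.closure_le]
  rintro x (rfl | rfl)
  · exact h0
  · exact h1

lemma sup01_of_mem {g : Au} (hg : g ∈ FF) : Sup 0 1 g := by
  let K : Subgroup Au :=
    { carrier := {g | Sup 0 1 g}
      one_mem' := Sup.one 0 1
      mul_mem' := fun h1 h2 => h1.mul h2
      inv_mem' := fun h => h.inv }
  have h : FF ≤ K := FF_le sup_X0 (by
    show Sup 0 1 X1
    exact (sup_X0.i1).mono (by norm_num) (by norm_num))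
  exact h hg

lemma i1_mem {g : Au} (hg : g ∈ FF) : i1 g ∈ FF := by
  have h : FF ≤ FF.comap (MulAut.conj A1).toMonoidHom := by
    apply FF_le
    · exact X1_mem
    · show i1 X1 ∈ FF
      rw [i1_X1]
      exact FF.mul_mem (FF.mul_mem tau_mem X1_mem) (FF.inv_mem tau_mem)
  exact h hg

lemma i0_mem {g : Au} (hg : g ∈ FF) : i0 g ∈ FF := by
  have h0 : i0 X0 ∈ FF := by
    rw [i0_X0]
    exact FF.mul_mem (FF.mul_mem (FF.mul_mem X0_mem X0_mem) (FF.inv_mem X1_mem))
      (FF.inv_mem X0_mem)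
  have h : FF ≤ FF.comap (MulAut.conj A0).toMonoidHom := by
    apply FF_le
    · exact h0
    · show i0 (i1 X0) ∈ FF
      rw [i0_i1_eq sup_X0]
      exact FF.mul_mem (FF.mul_mem X0_mem (i1_mem h0)) (FF.inv_mem X0_mem)
  exact h hg

end Pool.Agent.Helper48.Thompson
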