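import Mathlib
import Pool.Agent.Helper48.Thompson.Basic

/-!
# The finite presentation of Thompson's group `F`

The group `⟨x0, x1 | [x0 x1⁻¹, x0⁻¹ x1 x0], [x0 x1⁻¹, x0⁻² x1 x0²]⟩` acts faithfully on `ℚ` via
`x0 ↦ X0`, `x1 ↦ X1`.
-/

set_option autoImplicit false

namespace Pool.Agent.Helper48.Thompson

/-- The two relators. -/
def rels : Set (FreeGroup Bool) :=
  {(FreeGroup.of false * (FreeGroup.of true)⁻¹) *
      ((FreeGroup.of false)⁻¹ * FreeGroup.of true * FreeGroup.of false) *
      (FreeGroup.of false * (FreeGroup.of true)⁻¹)⁻¹ *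
      ((FreeGroup.of false)⁻¹ * FreeGroup.of true * FreeGroup.of false)⁻¹,
    (FreeGroup.of false * (FreeGroup.of true)⁻¹) *
      ((FreeGroup.of false)⁻¹ * (FreeGroup.of false)⁻¹ * FreeGroup.of true *
        FreeGroup.of false * FreeGroup.of false) *
      (FreeGroup.of false * (FreeGroup.of true)⁻¹)⁻¹ *
      ((FreeGroup.of false)⁻¹ * (FreeGroup.of false)⁻¹ * FreeGroup.of true *
        FreeGroup.of false * FreeGroup.of false)⁻¹}

/-- The abstract group. -/
abbrev RR : Type := PresentedGroup rels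

/-- first generator -/
def y0 : RR := PresentedGroup.of false
/-- second generator -/
def y1 : RR := PresentedGroup.of true

/-- The infinite family of generators. -/
def xx : ℕ → RR
  | 0 => y0
  | (n + 1) => (y0 ^ n)⁻¹ * y1 * y0 ^ n

lemma xx_zero : xx 0 = y0 := rfl
lemma xx_one : xx 1 = y1 := by simp [xx]
lemma xx_two : xx 2 = y0⁻¹ * y1 * y0 := by simp [xx]
lemma xx_three : xx 3 = y0⁻¹ * y0⁻¹ * y1 * y0 * y0 := by simp [xx, pow_two, mul_assoc]

lemma xx_conj (n : ℕ) : y0⁻¹ * xx (n + 1) * y0 = xx (n + 2) := by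
  simp only [xx, pow_succ]; group

lemma relation_one : (y0 * y1⁻¹) * xx 2 = xx 2 * (y0 * y1⁻¹) := by
  have h : PresentedGroup.mk rels ((FreeGroup.of false * (FreeGroup.of true)⁻¹) *
      ((FreeGroup.of false)⁻¹ * FreeGroup.of true * FreeGroup.of false) *
      (FreeGroup.of false * (FreeGroup.of true)⁻¹)⁻¹ *
      ((FreeGroup.of false)⁻¹ * FreeGroup.of true * FreeGroup.of false)⁻¹) = 1 := by
    rw [PresentedGroup.mk_eq_one_iff]
    exact Subgroup.subset_normalClosure (by simp [rels])
  rw [xx_two]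
  have h2 : (y0 * y1⁻¹) * (y0⁻¹ * y1 * y0) * (y0 * y1⁻¹)⁻¹ * (y0⁻¹ * y1 * y0)⁻¹ = 1 := by
    simp only [map_mul, map_inv] at h
    exact h
  rw [mul_inv_eq_one, mul_inv_eq_iff_eq_mul] at h2
  exact h2

lemma relation_two : (y0 * y1⁻¹) * xx 3 = xx 3 * (y0 * y1⁻¹) := by
  have h : PresentedGroup.mk rels ((FreeGroup.of false * (FreeGroup.of true)⁻¹) *
      ((FreeGroup.of false)⁻¹ * (FreeGroup.of false)⁻¹ * FreeGroup.of true *
        FreeGroup.of false * FreeGroup.of false) *
      (FreeGroup.of false * (FreeGroup.of true)⁻¹)⁻¹ *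
      ((FreeGroup.of false)⁻¹ * (FreeGroup.of false)⁻¹ * FreeGroup.of true *
        FreeGroup.of false * FreeGroup.of false)⁻¹) = 1 := by
    rw [PresentedGroup.mk_eq_one_iff]
    exact Subgroup.subset_normalClosure (by simp [rels])
  rw [xx_three]
  have h2 : (y0 * y1⁻¹) * (y0⁻¹ * y0⁻¹ * y1 * y0 * y0) * (y0 * y1⁻¹)⁻¹ *
      (y0⁻¹ * y0⁻¹ * y1 * y0 * y0)⁻¹ = 1 := by
    simp only [map_mul, map_inv] at h
    exact h
  rw [mul_inv_eq_one, mul_inv_eq_iff_eq_mul] at h2
  exact h2

/-- `x_n x_1 = x_1 x_{n+1}` for `n ≥ 2`. -/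
lemma rel_one (n : ℕ) : xx (n + 2) * y1 = y1 * xx (n + 3) := by
  have aux : ∀ g : RR, (y0 * y1⁻¹) * g = g * (y0 * y1⁻¹) → g * y1 = y1 * (y0⁻¹ * g * y0) := by
    intro g hg
    have : y0⁻¹ * ((y0 * y1⁻¹) * g) * y1 = y0⁻¹ * (g * (y0 * y1⁻¹)) * y1 := by rw [hg]
    have h3 : y1⁻¹ * g * y1 = y0⁻¹ * g * y0 := by
      calc y1⁻¹ * g * y1 = y0⁻¹ * ((y0 * y1⁻¹) * g) * y1 := by group
        _ = y0⁻¹ * (g * (y0 * y1⁻¹)) * y1 := this
        _ = y0⁻¹ * g * y0 := by group
    rw [← h3]; group
  induction n using Nat.strong_induction_on with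
  | _ n ih =>
    match n, ih with
    | 0, _ =>
      have := aux _ relation_one
      rw [xx_conj 1] at this
      exact this
    | 1, _ =>
      have := aux _ relation_two
      rw [xx_conj 2] at this
      exact this
    | (m + 2), ih =>
      -- relations conjugated by powers of `y0`
      have hc : ∀ k, y0⁻¹ * xx (k + 1) * y0 = xx (k + 2) := xx_conj
      have h1 := ih m (by omega)
      have h2 := ih (m + 1) (by omega)
      have h0 := ih 0 (by omega)
      -- (2, m+3) : xx (m+3) * xx 2 = xx 2 * xx (m+4)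
      have e1 : xx (m + 3) * xx 2 = xx 2 * xx (m + 4) := by
        have : y0⁻¹ * (xx (m + 2) * y1) * y0 = y0⁻¹ * (y1 * xx (m + 3)) * y0 := by rw [h1]
        calc xx (m + 3) * xx 2 = (y0⁻¹ * xx (m + 2) * y0) * (y0⁻¹ * xx 1 * y0) := by
              rw [hc (m + 1), hc 0]
          _ = y0⁻¹ * (xx (m + 2) * y1) * y0 := by rw [xx_one]; group
          _ = y0⁻¹ * (y1 * xx (m + 3)) * y0 := this
          _ = (y0⁻¹ * xx 1 * y0) * (y0⁻¹ * xx (m + 3) * y0) := by rw [xx_one]; group
          _ = xx 2 * xx (m + 4) := by rw [hc 0, hc (m + 2)]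
      -- (3, m+4)
      have e2 : xx (m + 4) * xx 3 = xx 3 * xx (m + 5) := by
        calc xx (m + 4) * xx 3 = (y0⁻¹ * xx (m + 3) * y0) * (y0⁻¹ * xx 2 * y0) := by
              rw [hc (m + 2), hc 1]
          _ = y0⁻¹ * (xx (m + 3) * xx 2) * y0 := by group
          _ = y0⁻¹ * (xx 2 * xx (m + 4)) * y0 := by rw [e1]
          _ = (y0⁻¹ * xx 2 * y0) * (y0⁻¹ * xx (m + 4) * y0) := by group
          _ = xx 3 * xx (m + 5) := by rw [hc 1, hc (m + 3)]
      -- now the claim
      have e3 : xx (m + 4) = (xx 2)⁻¹ * xx (m + 3) * xx 2 := by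
        rw [mul_assoc, e1]; group
      have e4 : xx (m + 5) = (xx 3)⁻¹ * xx (m + 4) * xx 3 := by
        rw [mul_assoc, e2]; group
      show xx (m + 4) * y1 = y1 * xx (m + 5)
      have h0' : y1⁻¹ * xx 2 * y1 = xx 3 := by rw [mul_assoc, h0]; group
      have h2' : y1⁻¹ * xx (m + 3) * y1 = xx (m + 4) := by rw [mul_assoc, h2]; group
      have : y1⁻¹ * xx (m + 4) * y1 = xx (m + 5) := by
        calc y1⁻¹ * xx (m + 4) * y1 = (y1⁻¹ * xx 2 * y1)⁻¹ * (y1⁻¹ * xx (m + 3) * y1) *
              (y1⁻¹ * xx 2 * y1) := by rw [e3]; group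
          _ = (xx 3)⁻¹ * xx (m + 4) * xx 3 := by rw [h0', h2']
          _ = xx (m + 5) := e4.symm
      rw [← this]; group

/-- All the relations `x_n x_k = x_k x_{n+1}` for `k < n`. -/
lemma rel (k n : ℕ) (h : k < n) : xx n * xx k = xx k * xx (n + 1) := by
  rcases k with _ | k
  · obtain ⟨m, rfl⟩ : ∃ m, n = m + 1 := ⟨n - 1, by omega⟩
    rw [xx_zero, ← xx_conj m]; group
  · induction k generalizing n with
    | zero =>
      obtain ⟨m, rfl⟩ : ∃ m, n = m + 2 := ⟨n - 2, by omega⟩
      rw [zero_add, xx_one]; exact rel_one m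
    | succ k ih =>
      obtain ⟨m, rfl⟩ : ∃ m, n = m + 2 := ⟨n - 2, by omega⟩
      have := ih (m + 1) (by omega)
      calc xx (m + 2) * xx (k + 2) = (y0⁻¹ * xx (m + 1) * y0) * (y0⁻¹ * xx (k + 1) * y0) := by
            rw [xx_conj, xx_conj]
        _ = y0⁻¹ * (xx (m + 1) * xx (k + 1)) * y0 := by group
        _ = y0⁻¹ * (xx (k + 1) * xx (m + 2)) * y0 := by rw [this]
        _ = (y0⁻¹ * xx (k + 1) * y0) * (y0⁻¹ * xx (m + 2) * y0) := by group
        _ = xx (k + 2) * xx (m + 3) := by rw [xx_conj, xx_conj]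

/-- positive words -/
def pos (l : List ℕ) : RR := (l.map xx).prod

@[simp] lemma pos_nil : pos [] = 1 := rfl
@[simp] lemma pos_cons (i : ℕ) (l : List ℕ) : pos (i :: l) = xx i * pos l := by simp [pos]
@[simp] lemma pos_append (l m : List ℕ) : pos (l ++ m) = pos l * pos m := by simp [pos]

/-- bring a minimal letter to the front -/
lemma front (l : List ℕ) (hl : l ≠ []) :
    ∃ i l', pos l = xx i * pos l' ∧ (∀ j ∈ l', i ≤ j) ∧ l'.length + 1 = l.length := by
  induction l with
  | nil => exact absurd rfl hl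
  | cons j t ih =>
    rcases eq_or_ne t [] with rfl | ht
    · exact ⟨j, [], by simp, by simp, rfl⟩
    · obtain ⟨i, t', h1, h2, h3⟩ := ih ht
      rcases le_or_gt j i with hji | hji
      · refine ⟨j, i :: t', by rw [pos_cons, h1, pos_cons], ?_, by simp [← h3]⟩
        intro k hk
        rcases List.mem_cons.1 hk with rfl | hk
        · exact hji
        · exact hji.trans (h2 k hk)
      · refine ⟨i, (j + 1) :: t', ?_, ?_, by simp [← h3]⟩
        · rw [pos_cons, h1, ← mul_assoc, rel i j hji, pos_cons, mul_assoc]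
        · intro k hk
          rcases List.mem_cons.1 hk with rfl | hk
          · omega
          · exact h2 k hk

lemma left_inv_pos (l : List ℕ) (i : ℕ) : ∃ l' l'', (xx i)⁻¹ * pos l = pos l' * (pos l'')⁻¹ := by
  induction l generalizing i with
  | nil => exact ⟨[], [i], by simp⟩
  | cons k t ih =>
    rcases lt_trichotomy k i with h | h | h
    · obtain ⟨l', l'', h1⟩ := ih (i + 1)
      refine ⟨k :: l', l'', ?_⟩
      have h2 := rel k i h
      have h3 : (xx i)⁻¹ * xx k = xx k * (xx (i + 1))⁻¹ := by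
        rw [inv_mul_eq_iff_eq_mul, ← mul_assoc, h2]; group
      rw [pos_cons, ← mul_assoc, h3, mul_assoc, h1, pos_cons, mul_assoc]
    · subst h
      exact ⟨t, [], by simp⟩
    · obtain ⟨l', l'', h1⟩ := ih i
      refine ⟨(k + 1) :: l', l'', ?_⟩
      have h2 := rel i k h
      have h3 : (xx i)⁻¹ * xx k = xx (k + 1) * (xx i)⁻¹ := by
        rw [inv_mul_eq_iff_eq_mul, ← mul_assoc, ← h2]; group
      rw [pos_cons, ← mul_assoc, h3, mul_assoc, h1, pos_cons, mul_assoc]

lemma exists_frac (r : RR) : ∃ l l', r = pos l * (pos l')⁻¹ := by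
  obtain ⟨w, rfl⟩ := PresentedGroup.mk_surjective _ r
  obtain ⟨L, rfl⟩ : ∃ L, w = FreeGroup.mk L := ⟨w.toWord, FreeGroup.mk_toWord.symm⟩
  induction L with
  | nil => exact ⟨[], [], by simp [← FreeGroup.one_eq_mk]⟩
  | cons a L ih =>
    obtain ⟨l, l', h⟩ := ih
    have hsplit : FreeGroup.mk (a :: L) = FreeGroup.mk [a] * FreeGroup.mk L := by
      rw [FreeGroup.mul_mk]; rfl
    rw [hsplit, map_mul, h]
    have key : ∀ i, ∃ m m', xx i * (pos l * (pos l')⁻¹) = pos m * (pos m')⁻¹ := fun i =>
      ⟨i :: l, l', by simp [mul_assoc]⟩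
    have key' : ∀ i, ∃ m m', (xx i)⁻¹ * (pos l * (pos l')⁻¹) = pos m * (pos m')⁻¹ := by
      intro i
      obtain ⟨m, m', hm⟩ := left_inv_pos l i
      refine ⟨m, l' ++ m', ?_⟩
      rw [← mul_assoc, hm, pos_append]; group
    obtain ⟨b, s⟩ := a
    have hb : ∀ b : Bool, ∃ i, PresentedGroup.mk rels (FreeGroup.of b) = xx i := by
      intro b
      cases b
      · exact ⟨0, rfl⟩
      · exact ⟨1, xx_one.symm⟩
    obtain ⟨i, hi⟩ := hb b
    cases s
    · have : FreeGroup.mk [(b, false)] = (FreeGroup.of b)⁻¹ := rfl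
      rw [this, map_inv, hi]
      exact key' i
    · have : FreeGroup.mk [(b, true)] = FreeGroup.of b := rfl
      rw [this, hi]
      exact key i

/-! ### The action -/

/-- images of the generators -/
def gens : Bool → Au := fun b => if b then X1 else X0

lemma sup_half_X1 : Sup (1/2) 1 X1 := (sup_X0.i1).mono (by norm_num) (by norm_num)

lemma sup_tauX1 : Sup (3/4) 1 (X0⁻¹ * X1 * X0) := by
  have h := sup_half_X1.cj tau
  rw [show tau (1/2) = 3/4 by rw [tau_4 (by norm_num) (by norm_num)]; norm_num,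
    show tau 1 = 1 from tau_5 le_rfl] at h
  rwa [cj, show tau = X0⁻¹ from (inv_inv tau).symm, inv_inv] at h

lemma fix_X0X1 {t : ℚ} (h : 3/4 ≤ t) : (X0 * X1⁻¹) t = t := by
  rw [au_mul, X1_inv_apply]
  rcases le_or_gt t 1 with h1 | h1
  · rw [show tau (2 * t - 1) = t by rw [tau_4 (by linarith) (by linarith)]; ring,
      X0_4 (by linarith) (by linarith)]
    ring
  · rw [show tau (2 * t - 1) = 2 * t - 1 from tau_5 (by linarith),
      show (1 + (2 * t - 1)) / 2 = t by ring, X0_5 h1.le]

lemma comm_of_sup {g h : Au} (hg : ∀ t, 3/4 ≤ t → g t = t) (hh : Sup (3/4) 1 h) :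
    g * h * g⁻¹ * h⁻¹ = 1 := by
  have : cj g h = cj 1 h := hh.cj_congr (fun t ht _ => hg t ht)
  rw [cj, cj_one_left] at this
  rw [this, mul_inv_cancel]

lemma sup_tau2X1 : Sup (3/4) 1 (X0⁻¹ * X0⁻¹ * X1 * X0 * X0) := by
  have h := sup_tauX1.cj tau
  rw [show tau (3/4) = 7/8 by rw [tau_4 (by norm_num) (by norm_num)]; norm_num,
    show tau 1 = 1 from tau_5 le_rfl] at h
  have h' := h.mono (show (3/4 : ℚ) ≤ 7/8 by norm_num) le_rfl
  have e : cj tau (X0⁻¹ * X1 * X0) = X0⁻¹ * X0⁻¹ * X1 * X0 * X0 := by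
    rw [cj, show tau = X0⁻¹ from (inv_inv tau).symm, inv_inv]; group
  rwa [e] at h'

/-- The realisation homomorphism. -/
def real : RR →* Au := PresentedGroup.toGroup (f := gens) (by
  intro r hr
  rcases hr with rfl | rfl
  · simp only [map_mul, map_inv, FreeGroup.lift_apply_of, gens, if_true]
    exact comm_of_sup (fun t h => fix_X0X1 h) sup_tauX1
  · simp only [map_mul, map_inv, FreeGroup.lift_apply_of, gens, if_true]
    exact comm_of_sup (fun t h => fix_X0X1 h) sup_tau2X1)

lemma real_y0 : real y0 = X0 := PresentedGroup.toGroup.of _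
lemma real_y1 : real y1 = X1 := PresentedGroup.toGroup.of _

lemma real_xx (n : ℕ) : real (xx n) = (i1^[n]) X0 := by
  rcases n with _ | n
  · exact real_y0
  · induction n with
    | zero => rw [zero_add, xx_one, real_y1]; rfl
    | succ n ih =>
      have hs : ∀ m, Sup 0 1 ((i1^[m]) X0) := by
        intro m
        induction m with
        | zero => exact sup_X0
        | succ m ihm =>
          rw [Function.iterate_succ_apply']
          exact (ihm.i1).mono (by norm_num) (by norm_num)
      rw [← xx_conj, map_mul, map_mul, map_inv, ih, real_y0, Function.iterate_succ_apply',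
        Function.iterate_succ_apply' i1 (n + 1), Function.iterate_succ_apply' i1 n,
        ← cj_tau_i1 (hs n), cj, X0, inv_inv]

/-- the left endpoint `1 - 2^{-n}` of the support of `x_n` -/
def dd (n : ℕ) : ℚ := 1 - (1/2)^n

lemma dd_lt_one (n : ℕ) : dd n < 1 := by
  have : (0:ℚ) < (1/2)^n := by positivity
  rw [dd]; linarith

lemma dd_strictMono : StrictMono dd := by
  intro m n h
  have : ((1:ℚ)/2)^n < (1/2)^m := pow_lt_pow_right_of_lt_one₀ (by norm_num) (by norm_num) h
  simp only [dd]; linarith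

lemma dd_succ (n : ℕ) : dd (n + 1) = (1 + dd n) / 2 := by
  simp only [dd, pow_succ]; ring

lemma X0_lt {t : ℚ} (h0 : 0 < t) (h1 : t < 1) : X0 t < t := by
  rw [X0_apply, x0Fun]; split_ifs <;> linarith

lemma X0_le (t : ℚ) : X0 t ≤ t := by
  rw [X0_apply, x0Fun]; split_ifs <;> linarith

lemma real_xx_props (n : ℕ) : (∀ t, real (xx n) t ≤ t) ∧ (∀ t, t ≤ dd n → real (xx n) t = t) ∧
    (∀ t, dd n < t → t < 1 → real (xx n) t < t) := by
  rw [real_xx]
  induction n with
  | zero =>
    refine ⟨X0_le, fun t ht => X0_1 (by simpa [dd] using ht), fun t h0 h1 => X0_lt ?_ h1⟩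
    simpa [dd] using h0
  | succ n ih =>
    obtain ⟨h1, h2, h3⟩ := ih
    rw [Function.iterate_succ_apply']
    refine ⟨fun t => ?_, fun t ht => ?_, fun t h4 h5 => ?_⟩
    · rw [cj_apply, A1_apply, A1_inv_apply]
      have := h1 (2 * t - 1); linarith
    · rw [cj_apply, A1_apply, A1_inv_apply, h2]
      · ring
      · rw [dd_succ] at ht; linarith
    · rw [cj_apply, A1_apply, A1_inv_apply]
      rw [dd_succ] at h4
      have := h3 (2 * t - 1) (by linarith) (by linarith); linarith

lemma real_pos_le (l : List ℕ) (t : ℚ) : real (pos l) t ≤ t := by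
  induction l generalizing t with
  | nil => simp
  | cons i l ih =>
    rw [pos_cons, map_mul, au_mul]
    exact ((real_xx_props i).1 _).trans (ih t)

lemma real_pos_fix (l : List ℕ) (i : ℕ) (h : ∀ j ∈ l, i ≤ j) (t : ℚ) (ht : t ≤ dd i) :
    real (pos l) t = t := by
  induction l with
  | nil => simp
  | cons j l ih =>
    rw [pos_cons, map_mul, au_mul, ih (fun k hk => h k (by simp [hk]))]
    exact (real_xx_props j).2.1 t (ht.trans (dd_strictMono.monotone (h j (by simp))))

lemma real_front_lt (i : ℕ) (l : List ℕ) (t : ℚ) (h1 : dd i < t) (h2 : t < 1) :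
    real (xx i * pos l) t < t := by
  rw [map_mul, au_mul]
  exact lt_of_le_of_lt ((au_le _).2 (real_pos_le l t)) ((real_xx_props i).2.2 t h1 h2)

lemma pos_inj (N : ℕ) : ∀ l m : List ℕ, l.length = N → real (pos l) = real (pos m) →
    pos l = pos m := by
  induction N with
  | zero =>
    intro l m hl h
    have hl' : l = [] := List.length_eq_zero_iff.1 hl
    subst hl'
    rcases eq_or_ne m [] with rfl | hm
    · rfl
    · exfalso
      obtain ⟨i, m', h1, -, -⟩ := front m hm
      rw [h1, pos_nil, map_one] at h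
      obtain ⟨t, ht1, ht2⟩ := exists_between (dd_lt_one i)
      have := real_front_lt i m' t ht1 ht2
      rw [← h] at this
      exact lt_irrefl _ this
  | succ N ih =>
    intro l m hl h
    have hl' : l ≠ [] := by rintro rfl; simp at hl
    obtain ⟨i, l', h1, h2, h3⟩ := front l hl'
    have hm : m ≠ [] := by
      rintro rfl
      rw [h1, pos_nil, map_one] at h
      obtain ⟨t, ht1, ht2⟩ := exists_between (dd_lt_one i)
      have := real_front_lt i l' t ht1 ht2
      rw [h] at this
      exact lt_irrefl _ this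
    obtain ⟨j, m', h4, h5, h6⟩ := front m hm
    have hij : i = j := by
      rw [h1, h4] at h
      rcases lt_trichotomy i j with hij | hij | hij
      · exfalso
        obtain ⟨t, ht1, ht2⟩ := exists_between (dd_strictMono hij)
        have e1 := real_front_lt i l' t ht1 (ht2.trans (dd_lt_one j))
        have e2 : real (xx j * pos m') t = t := by
          rw [← pos_cons]
          refine real_pos_fix _ j ?_ t ht2.le
          intro k hk
          rcases List.mem_cons.1 hk with rfl | hk
          · exact le_rfl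
          · exact h5 k hk
        rw [h, e2] at e1
        exact lt_irrefl _ e1
      · exact hij
      · exfalso
        obtain ⟨t, ht1, ht2⟩ := exists_between (dd_strictMono hij)
        have e1 := real_front_lt j m' t ht1 (ht2.trans (dd_lt_one i))
        have e2 : real (xx i * pos l') t = t := by
          rw [← pos_cons]
          refine real_pos_fix _ i ?_ t ht2.le
          intro k hk
          rcases List.mem_cons.1 hk with rfl | hk
          · exact le_rfl
          · exact h2 k hk
        rw [← h, e2] at e1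
        exact lt_irrefl _ e1
    subst hij
    have h7 : real (pos l') = real (pos m') := by
      rw [h1, h4, map_mul, map_mul] at h
      exact mul_left_cancel h
    rw [h1, h4, ih l' m' (by omega) h7]

theorem real_injective : Function.Injective real := by
  rw [injective_iff_map_eq_one]
  intro r hr
  obtain ⟨l, m, rfl⟩ := exists_frac r
  rw [map_mul, map_inv, mul_inv_eq_one] at hr
  rw [pos_inj _ l m rfl hr, mul_inv_cancel]

theorem real_mem (r : RR) : real r ∈ FF := by
  induction r using PresentedGroup.induction_on with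
  | _ w =>
    induction w using FreeGroup.induction_on with
    | C1 => simp [FF.one_mem]
    | of b =>
      cases b
      · exact (real_y0 ▸ X0_mem : real y0 ∈ FF)
      · exact (real_y1 ▸ X1_mem : real y1 ∈ FF)
    | inv_of b h => rw [map_inv, map_inv]; exact FF.inv_mem h
    | mul x y hx hy => rw [map_mul, map_mul]; exact FF.mul_mem hx hy

theorem exists_real (g : Au) (hg : g ∈ FF) : ∃ r, real r = g := by
  have : FF ≤ real.range := FF_le ⟨y0, real_y0⟩ ⟨y1, real_y1⟩
  exact this hg

end Pool.Agent.Helper48.Thompson
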