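import Mathlib
import Pool.Agent.Helper48.Thompson.Basic

/-!
# Dynamics of the action: germs, centralisers, localisation
-/

set_option autoImplicit false

namespace Pool.Agent.Helper48.Thompson

/-- Automorphisms which are, immediately to the left of every point, affine with slope a power
of two. -/
def Germ : Subgroup Au where
  carrier := {g | ∀ q : ℚ, ∃ k : ℤ, ∃ ε : ℚ, 0 < ε ∧ ∀ t, 0 ≤ t → t ≤ ε →
    g (q - t) = g q - 2 ^ k * t}
  one_mem' := fun q => ⟨0, 1, one_pos, fun t _ _ => by simp⟩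
  mul_mem' := by
    intro g h hg hh q
    obtain ⟨k, ε, hε, hk⟩ := hh q
    obtain ⟨l, δ, hδ, hl⟩ := hg (h q)
    have hp : (0 : ℚ) < 2 ^ k := by positivity
    refine ⟨l + k, min ε (δ / 2 ^ k), lt_min hε (by positivity), fun t h0 h1 => ?_⟩
    rw [au_mul, hk t h0 (h1.trans (min_le_left _ _)), hl, au_mul, zpow_add₀ (by norm_num)]
    · ring
    · positivity
    · have := h1.trans (min_le_right _ _)
      rw [le_div_iff₀ hp] at this
      linarith
  inv_mem' := by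
    intro g hg q
    obtain ⟨k, ε, hε, hk⟩ := hg (g⁻¹ q)
    have hp : (0 : ℚ) < 2 ^ k := by positivity
    refine ⟨-k, 2 ^ k * ε, by positivity, fun t h0 h1 => ?_⟩
    rw [au_inv_eq, hk]
    · rw [au_self_inv, zpow_neg]; field_simp
    · rw [zpow_neg]; positivity
    · rw [zpow_neg, inv_mul_le_iff₀ hp]; exact h1

lemma A0_germ : A0 ∈ Germ := fun q => ⟨-1, 1, one_pos, fun t _ _ => by
  simp only [A0_apply, zpow_neg_one]; ring⟩
lemma A1_germ : A1 ∈ Germ := fun q => ⟨-1, 1, one_pos, fun t _ _ => by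
  simp only [A1_apply, zpow_neg_one]; ring⟩

lemma tau_germ : tau ∈ Germ := by
  intro q
  rcases le_or_gt q 0 with h1 | h1
  · exact ⟨0, 1, one_pos, fun t h0 _ => by rw [tau_1 (by linarith), tau_1 h1]; simp⟩
  rcases le_or_gt q (1/4) with h2 | h2
  · exact ⟨1, q, h1, fun t h0 h => by
      rw [tau_2 (by linarith) (by linarith), tau_2 h1.le h2]; simp; ring⟩
  rcases le_or_gt q (1/2) with h3 | h3
  · exact ⟨0, q - 1/4, by linarith, fun t h0 h => by
      rw [tau_3 (by linarith) (by linarith), tau_3 h2.le h3]; simp; ring⟩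
  rcases le_or_gt q 1 with h4 | h4
  · exact ⟨-1, q - 1/2, by linarith, fun t h0 h => by
      rw [tau_4 (by linarith) (by linarith), tau_4 h3.le h4]; simp; ring⟩
  · exact ⟨0, q - 1, by linarith, fun t h0 h => by
      rw [tau_5 (by linarith), tau_5 h4.le]; simp⟩

lemma cj_germ {a g : Au} (ha : a ∈ Germ) (hg : g ∈ Germ) : cj a g ∈ Germ :=
  Germ.mul_mem (Germ.mul_mem ha hg) (Germ.inv_mem ha)

lemma FF_le_Germ : FF ≤ Germ :=
  FF_le (Germ.inv_mem tau_germ) (cj_germ A1_germ (Germ.inv_mem tau_germ))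

/-- The ambient group of the soundness arguments. -/
def GG : Subgroup Au where
  carrier := {g | g ∈ Germ ∧ Sup 0 1 g}
  one_mem' := ⟨Germ.one_mem, Sup.one 0 1⟩
  mul_mem' := fun h1 h2 => ⟨Germ.mul_mem h1.1 h2.1, h1.2.mul h2.2⟩
  inv_mem' := fun h => ⟨Germ.inv_mem h.1, h.2.inv⟩

lemma GG.sup {g : Au} (h : g ∈ GG) : Sup 0 1 g := h.2
lemma GG.germ {g : Au} (h : g ∈ GG) : g ∈ Germ := h.1
lemma FF_le_GG : FF ≤ GG := fun _ h => ⟨FF_le_Germ h, sup01_of_mem h⟩
lemma tau_GG : tau ∈ GG := FF_le_GG tau_mem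

/-! ### Powers of `tau` -/

lemma tau_pow_near (j : ℕ) {t : ℚ} (h0 : 0 ≤ t) (h1 : t ≤ 1/2) :
    (tau ^ j) (1 - t) = 1 - t / 2 ^ j := by
  induction j with
  | zero => simp
  | succ j ih =>
    have hp : (1 : ℚ) ≤ 2 ^ j := one_le_pow₀ (by norm_num)
    have h2 : t / 2 ^ j ≤ t := div_le_self h0 hp
    have h3 : 0 ≤ t / 2 ^ j := by positivity
    rw [pow_succ', au_mul, ih, tau_4 (by linarith) (by linarith), pow_succ]
    field_simp
    ring

lemma tau_zpow_near (k : ℤ) {t : ℚ} (h0 : 0 ≤ t) (h1 : t ≤ 1/2) (h2 : 2 ^ (-k) * t ≤ 1/2) :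
    (tau ^ k) (1 - t) = 1 - 2 ^ (-k) * t := by
  obtain ⟨n, rfl | rfl⟩ := k.eq_nat_or_neg
  · rw [zpow_natCast, tau_pow_near n h0 h1, zpow_neg, zpow_natCast]
    field_simp
  · rw [zpow_neg, zpow_natCast, au_inv_eq, neg_neg, zpow_natCast, tau_pow_near]
    · field_simp
    · positivity
    · rw [neg_neg, zpow_natCast] at h2; exact h2

lemma tau_pow_ge (j : ℕ) {s : ℚ} (h0 : 0 < s) : min (1/2) (2 ^ j * s) ≤ (tau ^ j) s := by
  induction j with
  | zero => simp
  | succ j ih =>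
    rw [pow_succ' tau j, au_mul]
    have h1 : tau (min (1/2) (2 ^ j * s)) ≤ tau ((tau ^ j) s) := (au_le tau).2 ih
    refine le_trans ?_ h1
    have hp : 0 < 2 ^ j * s := by positivity
    rcases le_or_gt (1/2) (2 ^ j * s) with h2 | h2
    · rw [min_eq_left h2, tau_3 (by norm_num) (by norm_num)]
      exact (min_le_left _ _).trans (by norm_num)
    · rw [min_eq_right h2.le]
      rcases le_or_gt (2 ^ j * s) (1/4) with h3 | h3
      · rw [tau_2 hp.le h3]
        exact (min_le_right _ _).trans (by rw [pow_succ]; linarith)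
      · rw [tau_3 h3.le h2.le]
        exact (min_le_left _ _).trans (by linarith)

lemma exists_tau_pow_ge {s ε : ℚ} (h0 : 0 < s) (h1 : s < 1) (hε : 0 < ε) :
    ∃ j : ℕ, 1 - ε ≤ (tau ^ j) s := by
  obtain ⟨a, ha⟩ : ∃ a : ℕ, 1/2 ≤ (tau ^ a) s := by
    obtain ⟨a, ha⟩ := pow_unbounded_of_one_lt (1 / (2 * s)) (by norm_num : (1 : ℚ) < 2)
    refine ⟨a, le_trans ?_ (tau_pow_ge a h0)⟩
    refine le_min le_rfl ?_
    rw [div_lt_iff₀ (by positivity)] at ha
    linarith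
  have hlt : (tau ^ a) s < 1 := ((sup_tau.pow a).mem ⟨h0, h1⟩).2
  obtain ⟨b, hb⟩ := pow_unbounded_of_one_lt (1 / ε) (by norm_num : (1 : ℚ) < 2)
  refine ⟨b + a, ?_⟩
  have e : (tau ^ a) s = 1 - (1 - (tau ^ a) s) := by ring
  rw [pow_add, au_mul, e, tau_pow_near b (by linarith) (by linarith)]
  have hp : (0 : ℚ) < 2 ^ b := by positivity
  have : (1 - (tau ^ a) s) / 2 ^ b ≤ ε := by
    rw [div_le_iff₀ hp]
    rw [div_lt_iff₀ hε] at hb
    nlinarith
  linarith

lemma commute_pow_fix {K g : Au} (h : K * g = g * K) (j : ℕ) {t : ℚ}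
    (hf : K ((g ^ j) t) = (g ^ j) t) : K t = t := by
  have hc : K * g ^ j = g ^ j * K := (Commute.pow_right h j)
  have : (g ^ j) (K t) = (g ^ j) t := by
    rw [← au_mul, ← hc, au_mul, hf]
  exact (g ^ j).injective this

lemma eq_one_of_near {K : Au} (hK : Sup 0 1 K) (hc : K * tau = tau * K) {ε : ℚ} (hε : 0 < ε)
    (h : ∀ t, 1 - ε ≤ t → t ≤ 1 → K t = t) : K = 1 := by
  ext s
  rw [au_one]
  by_cases h1 : 0 < s ∧ s < 1
  · obtain ⟨j, hj⟩ := exists_tau_pow_ge h1.1 h1.2 hε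
    have h2 := (sup_tau.pow j).mem h1
    exact commute_pow_fix hc j (h _ hj h2.2.le)
  · exact hK s h1

/-- The centraliser of `tau` in `GG` is generated by `tau`. -/
lemma centralizer_tau {T : Au} (hT : T ∈ GG) (hc : T * tau = tau * T) : ∃ k : ℤ, T = tau ^ k := by
  obtain ⟨k, ε, hε, hk⟩ := hT.1 1
  rw [hT.2.map_right] at hk
  refine ⟨-k, ?_⟩
  have hp : (0 : ℚ) < 2 ^ k := by positivity
  have hn : (0 : ℚ) < 2 ^ (-k) := by positivity
  have key : T * tau ^ k = 1 := by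
    have hz : tau ^ k ∈ GG := GG.zpow_mem tau_GG k
    refine eq_one_of_near (hT.2.mul hz.2) ?_ (ε := min (1/2) (min (2 ^ k * (1/2)) (2 ^ k * ε)))
      (lt_min (by norm_num) (lt_min (by positivity) (by positivity))) ?_
    · have h1 : tau ^ k * tau = tau * tau ^ k := (Commute.zpow_self tau k)
      rw [mul_assoc, h1, ← mul_assoc, hc, mul_assoc]
    · intro s hs hs1
      have e : s = 1 - (1 - s) := by ring
      have hs2 : 1 - s ≤ 1/2 := by
        have := min_le_left (1/2 : ℚ) (min (2 ^ k * (1/2)) (2 ^ k * ε)); linarith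
      have hs3 : 1 - s ≤ 2 ^ k * (1/2) := by
        have := (min_le_right (1/2 : ℚ) (min (2 ^ k * (1/2)) (2 ^ k * ε))).trans (min_le_left _ _)
        linarith
      have hs4 : 1 - s ≤ 2 ^ k * ε := by
        have := (min_le_right (1/2 : ℚ) (min (2 ^ k * (1/2)) (2 ^ k * ε))).trans (min_le_right _ _)
        linarith
      have e2 : (2 : ℚ) ^ (-k) * 2 ^ k = 1 := by
        rw [zpow_neg]; field_simp
      have hs5 : 2 ^ (-k) * (1 - s) ≤ 1/2 := by nlinarith
      have hs6 : 2 ^ (-k) * (1 - s) ≤ ε := by nlinarith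
      rw [au_mul, e, tau_zpow_near k (by linarith) hs2 hs5, hk _ (by nlinarith) hs6,
        ← mul_assoc, mul_comm ((2:ℚ) ^ k), e2]
      ring
  rw [zpow_neg]
  exact eq_inv_of_mul_eq_one_left key

lemma tau_pow_half (j : ℕ) : (tau ^ j) (1/2) = 1 - 1/2 / 2 ^ j := by
  have := tau_pow_near j (t := 1/2) (by norm_num) le_rfl
  rwa [show (1 : ℚ) - 1/2 = 1/2 by norm_num] at this

lemma tau_pow_half_strictMono : StrictMono (fun j : ℕ => (tau ^ j) (1/2)) := by
  apply strictMono_nat_of_lt_succ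
  intro j
  rw [tau_pow_half, tau_pow_half, pow_succ]
  have hp : (0 : ℚ) < 2 ^ j := by positivity
  have : (1:ℚ)/2 / (2 ^ j * 2) < 1/2 / 2 ^ j := by
    apply div_lt_div_of_pos_left <;> linarith
  linarith

lemma tau_zpow_eq_one_of_half {k : ℤ} (h : (tau ^ k) (1/2) = 1/2) : k = 0 := by
  obtain ⟨n, rfl | rfl⟩ := k.eq_nat_or_neg
  · rw [zpow_natCast] at h
    have h0 : (tau ^ 0) (1/2 : ℚ) = 1/2 := rfl
    have := tau_pow_half_strictMono.injective (h.trans h0.symm)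
    simp [this]
  · rw [zpow_neg, zpow_natCast, au_inv_eq] at h
    have h0 : (tau ^ 0) (1/2 : ℚ) = 1/2 := rfl
    have := tau_pow_half_strictMono.injective (h.symm.trans h0.symm)
    simp [this]

lemma tau_zpow_nonneg_of_half {k : ℤ} (h : 1/2 ≤ (tau ^ k) (1/2)) : ∃ n : ℕ, k = n := by
  obtain ⟨n, rfl | rfl⟩ := k.eq_nat_or_neg
  · exact ⟨n, rfl⟩
  · rw [zpow_neg, zpow_natCast, au_le_inv] at h
    have h0 : (tau ^ 0) (1/2 : ℚ) = 1/2 := rfl
    have h1 : (tau ^ n) (1/2) ≤ (tau ^ 0) (1/2) := h.trans h0.symm.le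
    have := tau_pow_half_strictMono.le_iff_le.1 h1
    exact ⟨0, by simp at this; simp [this]⟩

/-- An element of `GG` commuting with `tau` and fixing `1/2` is trivial. -/
lemma rigid {K : Au} (hK : K ∈ GG) (hc : K * tau = tau * K) (h : K (1/2) = 1/2) : K = 1 := by
  obtain ⟨k, rfl⟩ := centralizer_tau hK hc
  rw [tau_zpow_eq_one_of_half h, zpow_zero]

/-! ### The end point lemmas -/

lemma endpoint_aux {g h : Au} (hc : g * h = h * g) {m p r : ℚ} (hmp : m < p) (hpr : p < r)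
    (h1 : ∀ t, m < t → t < p → g t = t) (h2 : ∀ t, p < t → t < r → g t ≠ t) (h3 : h m = m) :
    h p ≤ p := by
  by_contra hcon
  push Not at hcon
  have e1 : h⁻¹ p < p := by rw [au_inv_lt]; exact hcon
  have e2 : m < h⁻¹ p := by rw [au_lt_inv, h3]; exact hmp
  have e3 : h⁻¹ p < h⁻¹ r := (au_lt _).2 hpr
  obtain ⟨t, ht1, ht2⟩ := exists_between (lt_min e1 e3)
  have f1 := h1 t (e2.trans ht1) (ht2.trans_le (min_le_left _ _))
  have f2 := h2 (h t) ((au_inv_lt h).1 ht1) ((au_lt_inv h).1 (ht2.trans_le (min_le_right _ _)))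
  apply f2
  rw [← au_mul, hc, au_mul, f1]

/-- If `g` commutes with `h`, `g` is trivial on `(m, p)` and moves all points of `(p, r)`, and `h`
fixes `m`, then `h` fixes `p`. -/
lemma endpoint {g h : Au} (hc : g * h = h * g) {m p r : ℚ} (hmp : m < p) (hpr : p < r)
    (h1 : ∀ t, m < t → t < p → g t = t) (h2 : ∀ t, p < t → t < r → g t ≠ t) (h3 : h m = m) :
    h p = p := by
  apply le_antisymm (endpoint_aux hc hmp hpr h1 h2 h3)
  have hc' : g * h⁻¹ = h⁻¹ * g := (Commute.inv_right hc)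
  have := endpoint_aux hc' hmp hpr h1 h2 (by rw [au_inv_eq, h3])
  rwa [au_inv_le] at this

lemma endpoint_aux' {g h : Au} (hc : g * h = h * g) {m p r : ℚ} (hmp : p < m) (hpr : r < p)
    (h1 : ∀ t, p < t → t < m → g t = t) (h2 : ∀ t, r < t → t < p → g t ≠ t) (h3 : h m = m) :
    p ≤ h p := by
  by_contra hcon
  push Not at hcon
  have e1 : p < h⁻¹ p := by rw [au_lt_inv]; exact hcon
  have e2 : h⁻¹ p < m := by rw [au_inv_lt, h3]; exact hmp
  have e3 : h⁻¹ r < h⁻¹ p := (au_lt _).2 hpr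
  obtain ⟨t, ht1, ht2⟩ := exists_between (max_lt e1 e3)
  have f1 := h1 t ((le_max_left _ _).trans_lt ht1) (ht2.trans e2)
  have f2 := h2 (h t) ((au_inv_lt h).1 ((le_max_right _ _).trans_lt ht1)) ((au_lt_inv h).1 ht2)
  apply f2
  rw [← au_mul, hc, au_mul, f1]

/-- Mirror image of `endpoint`. -/
lemma endpoint' {g h : Au} (hc : g * h = h * g) {m p r : ℚ} (hmp : p < m) (hpr : r < p)
    (h1 : ∀ t, p < t → t < m → g t = t) (h2 : ∀ t, r < t → t < p → g t ≠ t) (h3 : h m = m) :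
    h p = p := by
  apply le_antisymm _ (endpoint_aux' hc hmp hpr h1 h2 h3)
  have hc' : g * h⁻¹ = h⁻¹ * g := (Commute.inv_right hc)
  have := endpoint_aux' hc' hmp hpr h1 h2 (by rw [au_inv_eq, h3])
  rwa [au_le_inv] at this

lemma tau_lt {t : ℚ} (h0 : 0 < t) (h1 : t < 1) : t < tau t := by
  rw [tau_apply, tauFun]; split_ifs <;> linarith

lemma tau_le' (t : ℚ) : t ≤ tau t := by
  rw [tau_apply, tauFun]; split_ifs <;> linarith

lemma cj_tau_ne {A : Au} {t : ℚ} (h0 : A 0 < t) (h1 : t < A 1) : cj A tau t ≠ t := by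
  intro h
  rw [cj_apply] at h
  have h2 : tau (A⁻¹ t) = A⁻¹ t := by rw [eq_comm, au_inv_eq, h]
  have h3 := tau_lt (t := A⁻¹ t) (by rw [au_lt_inv]; exact h0) (by rw [au_inv_lt]; exact h1)
  rw [h2] at h3
  exact lt_irrefl _ h3

/-- The anchors. -/
def al : Au := i0 tau
def be : Au := i1 tau

lemma al_sup : Sup 0 (1/2) al := (sup_tau.i0).mono (by norm_num) (by norm_num)
lemma be_sup : Sup (1/2) 1 be := (sup_tau.i1).mono (by norm_num) (by norm_num)
lemma al_mem : al ∈ FF := i0_mem tau_mem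
lemma be_mem : be ∈ FF := i1_mem tau_mem
lemma al_ne {t : ℚ} (h0 : 0 < t) (h1 : t < 1/2) : al t ≠ t :=
  cj_tau_ne (by simpa using h0) (by simpa using h1)
lemma be_ne {t : ℚ} (h0 : 1/2 < t) (h1 : t < 1) : be t ≠ t :=
  cj_tau_ne (by simpa using h0) (by norm_num [A1_apply]; exact h1)

lemma cj_fix {V g : Au} {t : ℚ} : cj V g (V t) = V t ↔ g t = t := by
  rw [cj_apply']; exact V.injective.eq_iff

lemma cj_fix' {V g : Au} {t : ℚ} : cj V g t = t ↔ g (V⁻¹ t) = V⁻¹ t := by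
  rw [cj_apply, eq_comm (a := g (V⁻¹ t)), au_inv_eq, eq_comm]

lemma anchor_ge {V : Au} (h0 : V 0 = 0) (h1 : V 1 = 1) (hc : al * cj V be = cj V be * al) :
    1/2 ≤ V (1/2) := by
  have hp : 0 < V (1/2) := by
    have := (au_lt V).2 (show (0:ℚ) < 1/2 by norm_num); rwa [h0] at this
  have hp1 : V (1/2) < 1 := by
    have := (au_lt V).2 (show (1/2:ℚ) < 1 by norm_num); rwa [h1] at this
  have := endpoint (g := cj V be) (h := al) hc.symm hp hp1 (fun t ht0 ht1 => by
      rw [cj_fix']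
      apply be_sup
      rintro ⟨h, -⟩
      rw [au_lt_inv] at h; linarith) (fun t ht0 ht1 => by
      rw [Ne, cj_fix']
      apply be_ne
      · rw [au_lt_inv]; exact ht0
      · rw [au_inv_lt, h1]; exact ht1) (al_sup.map_left)
  by_contra hcon
  push Not at hcon
  exact al_ne hp hcon this

lemma anchor_le {V : Au} (h0 : V 0 = 0) (hc : cj V al * be = be * cj V al) :
    V (1/2) ≤ 1/2 := by
  have := endpoint (g := be) (h := cj V al) hc.symm (m := 0) (p := 1/2) (r := 1) (by norm_num)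
    (by norm_num) (fun t _ ht1 => be_sup t (by rintro ⟨h, -⟩; linarith))
    (fun t ht0 ht1 => be_ne ht0 ht1) (by
      have : V⁻¹ 0 = 0 := by rw [au_inv_eq, h0]
      rw [cj_fix', this]; exact al_sup.map_left)
  rw [cj_fix'] at this
  by_contra hcon
  push Not at hcon
  refine al_ne (t := V⁻¹ (1/2)) ?_ ?_ this
  · rw [au_lt_inv, h0]; norm_num
  · rw [au_inv_lt]; exact hcon

lemma anchor_ge_conv {V : Au} (h : 1/2 ≤ V (1/2)) : al * cj V be = cj V be * al :=
  al_sup.commute (be_sup.cj V) h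

lemma anchor_le_conv {V : Au} (h : V (1/2) ≤ 1/2) : cj V al * be = be * cj V al :=
  (al_sup.cj V).commute be_sup h

/-! ### Restriction to the unit interval and localisation -/

/-- Restriction of `g` (fixing `0` and `1`) to `[0,1]`, extended by the identity. -/
def rs (g : Au) (h0 : g 0 = 0) (h1 : g 1 = 1) : Au :=
  StrictMono.orderIsoOfRightInverse (fun t => if 0 ≤ t ∧ t ≤ 1 then g t else t)
    (by
      intro s t hst
      have a0 : ∀ {u}, 0 ≤ u → 0 ≤ g u := fun hu => by rw [← h0]; exact (au_le g).2 hu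
      have a1 : ∀ {u}, u ≤ 1 → g u ≤ 1 := fun hu => by rw [← h1]; exact (au_le g).2 hu
      have a2 : g s < g t := (au_lt g).2 hst
      simp only
      split_ifs with h2 h3 h3
      · exact a2
      · have : 1 < t := by by_contra h; exact h3 ⟨by linarith [h2.1], by linarith⟩
        exact lt_of_le_of_lt (a1 h2.2) this
      · have : s < 0 := by by_contra h; exact h2 ⟨by linarith, by linarith [h3.2]⟩
        exact lt_of_lt_of_le this (a0 h3.1)
      · exact hst)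
    (fun t => if 0 ≤ t ∧ t ≤ 1 then g⁻¹ t else t)
    (by
      intro t
      have a0 : ∀ {u}, 0 ≤ u → 0 ≤ g⁻¹ u := fun hu => by rw [au_le_inv, h0]; exact hu
      have a1 : ∀ {u}, u ≤ 1 → g⁻¹ u ≤ 1 := fun hu => by rw [au_inv_le, h1]; exact hu
      simp only
      by_cases h2 : 0 ≤ t ∧ t ≤ 1
      · rw [if_pos h2, if_pos ⟨a0 h2.1, a1 h2.2⟩, au_self_inv]
      · rw [if_neg h2, if_neg h2])

lemma rs_in {g : Au} {h0 : g 0 = 0} {h1 : g 1 = 1} {t : ℚ} (ht0 : 0 ≤ t) (ht1 : t ≤ 1) :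
    rs g h0 h1 t = g t := if_pos ⟨ht0, ht1⟩

lemma rs_sup {g : Au} {h0 : g 0 = 0} {h1 : g 1 = 1} : Sup 0 1 (rs g h0 h1) := by
  intro t ht
  by_cases h : 0 ≤ t ∧ t ≤ 1
  · rw [rs_in h.1 h.2]
    rcases eq_or_lt_of_le h.1 with h2 | h2
    · rw [← h2, h0]
    · rcases eq_or_lt_of_le h.2 with h3 | h3
      · rw [h3, h1]
      · exact absurd ⟨h2, h3⟩ ht
  · exact if_neg h

lemma rs_germ {g : Au} {h0 : g 0 = 0} {h1 : g 1 = 1} (hg : g ∈ Germ) : rs g h0 h1 ∈ Germ := by
  intro q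
  rcases le_or_gt q 0 with h2 | h2
  · refine ⟨0, 1, one_pos, fun t ht0 _ => ?_⟩
    rw [rs_sup _ (by rintro ⟨h, -⟩; linarith), rs_sup _ (by rintro ⟨h, -⟩; linarith)]
    simp
  rcases le_or_gt q 1 with h3 | h3
  · obtain ⟨k, ε, hε, hk⟩ := hg q
    refine ⟨k, min ε q, lt_min hε h2, fun t ht0 ht => ?_⟩
    have a1 := ht.trans (min_le_left _ _)
    have a2 := ht.trans (min_le_right _ _)
    rw [rs_in (by linarith) (by linarith), rs_in h2.le h3, hk t ht0 a1]
  · refine ⟨0, q - 1, by linarith, fun t ht0 ht => ?_⟩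
    rw [rs_sup _ (by rintro ⟨-, h⟩; linarith), rs_sup _ (by rintro ⟨-, h⟩; linarith)]
    simp

lemma rs_GG {g : Au} {h0 : g 0 = 0} {h1 : g 1 = 1} (hg : g ∈ Germ) : rs g h0 h1 ∈ GG :=
  ⟨rs_germ hg, rs_sup⟩

open Classical in
/-- The localisation of `V` at the interval `[A 0, A 1]` (when `V` fixes the end points),
transported to `[0, 1]`. -/
noncomputable def loc (A V : Au) : Au :=
  if h : V (A 0) = A 0 ∧ V (A 1) = A 1 then
    rs (A⁻¹ * V * A) (by rw [au_mul, au_mul, h.1, au_inv_self]) (by rw [au_mul, au_mul, h.2, au_inv_self])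
  else 1

/-- `V` fixes the end points of `A [0,1]`. -/
def St (A V : Au) : Prop := V (A 0) = A 0 ∧ V (A 1) = A 1

lemma St.one (A : Au) : St A 1 := ⟨rfl, rfl⟩
lemma St.mul {A V W : Au} (h : St A V) (h' : St A W) : St A (V * W) :=
  ⟨by rw [au_mul, h'.1, h.1], by rw [au_mul, h'.2, h.2]⟩
lemma St.inv {A V : Au} (h : St A V) : St A V⁻¹ :=
  ⟨by rw [au_inv_eq, h.1], by rw [au_inv_eq, h.2]⟩

lemma loc_apply {A V : Au} (h : St A V) {t : ℚ} (h0 : 0 ≤ t) (h1 : t ≤ 1) :
    A (loc A V t) = V (A t) := by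
  rw [loc, dif_pos (show V (A 0) = A 0 ∧ V (A 1) = A 1 from h), rs_in h0 h1, au_mul, au_mul,
    au_self_inv]

lemma loc_sup (A V : Au) : Sup 0 1 (loc A V) := by
  rw [loc]
  split_ifs with h
  · exact rs_sup
  · exact Sup.one 0 1

lemma loc_GG {A V : Au} (hA : A ∈ Germ) (hV : V ∈ Germ) : loc A V ∈ GG := by
  rw [loc]
  split_ifs with h
  · exact rs_GG (Germ.mul_mem (Germ.mul_mem (Germ.inv_mem hA) hV) hA)
  · exact GG.one_mem

lemma loc_unique {A V U : Au} (hU : Sup 0 1 U) (h : St A V)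
    (hUV : ∀ t, 0 ≤ t → t ≤ 1 → A (U t) = V (A t)) : loc A V = U := by
  ext t
  by_cases ht : 0 < t ∧ t < 1
  · apply A.injective
    rw [loc_apply h ht.1.le ht.2.le, hUV t ht.1.le ht.2.le]
  · rw [loc_sup A V t ht, hU t ht]

lemma loc_mul {A V W : Au} (h : St A V) (h' : St A W) : loc A (V * W) = loc A V * loc A W := by
  apply loc_unique ((loc_sup _ _).mul (loc_sup _ _)) (h.mul h')
  intro t h0 h1
  have a0 : 0 ≤ loc A W t := by
    rw [← (loc_sup A W).map_left]; exact (au_le _).2 h0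
  have a1 : loc A W t ≤ 1 := by
    rw [← (loc_sup A W).map_right]; exact (au_le _).2 h1
  rw [au_mul, loc_apply h a0 a1, loc_apply h' h0 h1, au_mul]

lemma loc_one (A : Au) : loc A 1 = 1 :=
  loc_unique (Sup.one 0 1) (St.one A) (fun _ _ _ => rfl)

lemma loc_inv {A V : Au} (h : St A V) : loc A V⁻¹ = (loc A V)⁻¹ := by
  rw [eq_inv_iff_mul_eq_one, ← loc_mul h.inv h, inv_mul_cancel, loc_one]

/-- The localisation of a conjugate. -/
lemma loc_cj {A g : Au} (hg : Sup 0 1 g) : loc A (cj A g) = g := by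
  apply loc_unique hg
  · exact ⟨by rw [cj_apply', hg.map_left], by rw [cj_apply', hg.map_right]⟩
  · intro t _ _; rw [cj_apply']

lemma St.of_sup {A V : Au} {a b : ℚ} (hV : Sup a b V) (h : A 1 ≤ a ∨ b ≤ A 0) : St A V := by
  rcases h with h | h
  · have : A 0 < A 1 := (au_lt A).2 (by norm_num)
    exact ⟨hV _ (by rintro ⟨h1, -⟩; linarith), hV _ (by rintro ⟨h1, -⟩; linarith)⟩
  · have : A 0 < A 1 := (au_lt A).2 (by norm_num)
    exact ⟨hV _ (by rintro ⟨-, h1⟩; linarith), hV _ (by rintro ⟨-, h1⟩; linarith)⟩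

lemma loc_of_disjoint {A V : Au} {a b : ℚ} (hV : Sup a b V) (h : A 1 ≤ a ∨ b ≤ A 0) :
    loc A V = 1 := by
  apply loc_unique (Sup.one 0 1) (St.of_sup hV h)
  intro t h0 h1
  have a0 : A 0 ≤ A t := (au_le A).2 h0
  have a1 : A t ≤ A 1 := (au_le A).2 h1
  rw [au_one]
  rcases h with h | h
  · exact (hV _ (by rintro ⟨h1, -⟩; linarith)).symm
  · exact (hV _ (by rintro ⟨-, h1⟩; linarith)).symm

lemma loc_conj {A B V : Au} (h : St A V) : loc (B * A) (cj B V) = loc A V := by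
  apply loc_unique (loc_sup _ _)
  · exact ⟨by rw [au_mul, cj_apply', h.1], by rw [au_mul, cj_apply', h.2]⟩
  · intro t h0 h1
    rw [au_mul, loc_apply h h0 h1, au_mul, cj_apply']

lemma St.cj {A B V : Au} (h : St A V) : St (B * A) (Thompson.cj B V) :=
  ⟨by rw [au_mul, cj_apply', h.1], by rw [au_mul, cj_apply', h.2]⟩

/-- local power lemma: `V` commuting with the copy of `tau` on `A[0,1]` is there a power. -/
lemma loc_power {A V : Au} (hA : A ∈ Germ) (hV : V ∈ Germ) (h : St A V)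
    (hc : V * cj A tau = cj A tau * V) : ∃ k : ℤ, loc A V = tau ^ k := by
  apply centralizer_tau (loc_GG hA hV)
  have h1 : St A (cj A tau) :=
    ⟨by rw [cj_apply', sup_tau.map_left], by rw [cj_apply', sup_tau.map_right]⟩
  have h2 := loc_mul h h1
  have h3 := loc_mul h1 h
  rw [loc_cj sup_tau] at h2 h3
  rw [← h2, ← h3, hc]

/-- local rigidity. -/
lemma loc_rigid {A V : Au} (hA : A ∈ Germ) (hV : V ∈ Germ) (h : St A V)
    (hc : V * cj A tau = cj A tau * V) (hm : V (A (1/2)) = A (1/2)) :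
    ∀ t, A 0 ≤ t → t ≤ A 1 → V t = t := by
  obtain ⟨k, hk⟩ := loc_power hA hV h hc
  have h1 : (tau ^ k) (1/2) = 1/2 := by
    apply A.injective
    rw [← hk, loc_apply h (by norm_num) (by norm_num), hm]
  rw [tau_zpow_eq_one_of_half h1, zpow_zero] at hk
  intro t h0 h1
  have e : t = A (A⁻¹ t) := by simp
  have h0' : 0 ≤ A⁻¹ t := by rw [au_le_inv]; exact h0
  have h1' : A⁻¹ t ≤ 1 := by rw [au_inv_le]; exact h1
  rw [e, ← loc_apply h h0' h1', hk, au_one]

end Pool.Agent.Helper48.Thompson
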