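import Mathlib
import Pool.Agent.Helper48.Thompson.Dynamics

/-!
# Spreading elements over the zones `tau^j [1/2, 3/4]`
-/

set_option autoImplicit false

namespace Pool.Agent.Helper48.Thompson

/-- data part of the first zone: `[1/2, 5/8]` -/
def AD : Au := A1 * (A0 * A0)
/-- separator part of the first zone: `[5/8, 3/4]` -/
def AE : Au := A1 * (A0 * A1)

lemma AD_apply (t : ℚ) : AD t = 1/2 + t / 8 := by
  simp only [AD, au_mul, A0_apply, A1_apply]; ring
lemma AE_apply (t : ℚ) : AE t = 5/8 + t / 8 := by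
  simp only [AE, au_mul, A0_apply, A1_apply]; ring

lemma AD_germ : AD ∈ Germ := Germ.mul_mem A1_germ (Germ.mul_mem A0_germ A0_germ)
lemma AE_germ : AE ∈ Germ := Germ.mul_mem A1_germ (Germ.mul_mem A0_germ A1_germ)

lemma cj_AD_mem {g : Au} (hg : g ∈ FF) : cj AD g ∈ FF := by
  rw [AD, ← cj_cj, ← cj_cj]; exact i1_mem (i0_mem (i0_mem hg))
lemma cj_AE_mem {g : Au} (hg : g ∈ FF) : cj AE g ∈ FF := by
  rw [AE, ← cj_cj, ← cj_cj]; exact i1_mem (i0_mem (i1_mem hg))

lemma cj_mem {k g : Au} (hk : k ∈ FF) (hg : g ∈ FF) : cj k g ∈ FF :=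
  FF.mul_mem (FF.mul_mem hk hg) (FF.inv_mem hk)

lemma tau_half : tau (1/2) = 3/4 := by rw [tau_4 (by norm_num) (by norm_num)]; norm_num

/-- A good zone: contained in `[1/2, 3/4]`. -/
structure Zone (A : Au) : Prop where
  left : 1/2 ≤ A 0
  right : A 1 ≤ 3/4

lemma zone_AD : Zone AD := ⟨by rw [AD_apply]; norm_num, by rw [AD_apply]; norm_num⟩
lemma zone_AE : Zone AE := ⟨by rw [AE_apply]; norm_num, by rw [AE_apply]; norm_num⟩

/-- Spread the sequence `s` over the first `N` zones. -/
def spr (A : Au) (s : ℕ → Au) : ℕ → Au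
  | 0 => 1
  | (N + 1) => spr A s N * cj (tau ^ N * A) (s N)

lemma tau_pow_succ_half (N : ℕ) : (tau ^ (N + 1)) (1/2) = (tau ^ N) (3/4) := by
  rw [pow_succ, au_mul, tau_half]

variable {A : Au} {s s' : ℕ → Au}

lemma piece_sup (hA : Zone A) {g : Au} (hg : Sup 0 1 g) (N : ℕ) :
    Sup ((tau ^ N) (1/2)) ((tau ^ N) (3/4)) (cj (tau ^ N * A) g) := by
  have h := hg.cj (tau ^ N * A)
  rw [au_mul, au_mul] at h
  exact h.mono ((au_le _).2 hA.left) ((au_le _).2 hA.right)

lemma tau_pow_half_mono {i j : ℕ} (h : i ≤ j) : (tau ^ i) (1/2) ≤ (tau ^ j) (1/2) :=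
  tau_pow_half_strictMono.monotone h

lemma spr_sup (hA : Zone A) (hs : ∀ j, Sup 0 1 (s j)) (N : ℕ) :
    Sup (1/2) ((tau ^ N) (1/2)) (spr A s N) := by
  induction N with
  | zero => exact Sup.one _ _
  | succ N ih =>
    refine (ih.mono le_rfl (tau_pow_half_mono (Nat.le_succ N))).mul ?_
    rw [tau_pow_succ_half]
    refine (piece_sup hA (hs N) N).mono ?_ le_rfl
    have := tau_pow_half_mono (Nat.zero_le N)
    simpa using this

lemma spr_sup01 (hA : Zone A) (hs : ∀ j, Sup 0 1 (s j)) (N : ℕ) : Sup 0 1 (spr A s N) := by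
  refine (spr_sup hA hs N).mono (by norm_num) ?_
  rw [tau_pow_half]
  have : (0 : ℚ) < 2 ^ N := by positivity
  have : (0 : ℚ) < 1/2 / 2 ^ N := by positivity
  linarith

lemma spr_mul (hA : Zone A) (hs : ∀ j, Sup 0 1 (s j)) (hs' : ∀ j, Sup 0 1 (s' j)) (N : ℕ) :
    spr A (fun j => s j * s' j) N = spr A s N * spr A s' N := by
  induction N with
  | zero => simp [spr]
  | succ N ih =>
    rw [spr, spr, spr, ih, cj_mul]
    have := (spr_sup hA hs' N).commute (piece_sup hA (hs N) N) le_rfl
    calc spr A s N * spr A s' N * (cj (tau ^ N * A) (s N) * cj (tau ^ N * A) (s' N))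
        = spr A s N * (spr A s' N * cj (tau ^ N * A) (s N)) * cj (tau ^ N * A) (s' N) := by group
      _ = spr A s N * (cj (tau ^ N * A) (s N) * spr A s' N) * cj (tau ^ N * A) (s' N) := by
          rw [this]
      _ = _ := by group

lemma spr_inv (hA : Zone A) (hs : ∀ j, Sup 0 1 (s j)) (N : ℕ) :
    spr A (fun j => (s j)⁻¹) N = (spr A s N)⁻¹ := by
  have h := spr_mul hA (s := fun j => (s j)⁻¹) (s' := s) (fun j => (hs j).inv) hs N
  have h1 : spr A (fun j => (s j)⁻¹ * s j) N = 1 := by
    have : (fun j => (s j)⁻¹ * s j) = fun _ => (1 : Au) := by funext j; simp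
    rw [this]
    clear h
    induction N with
    | zero => rfl
    | succ N ih => rw [spr, ih, cj_one, one_mul]
  rw [h1] at h
  exact eq_inv_of_mul_eq_one_left h.symm

lemma spr_one (N : ℕ) : spr A (fun _ => 1) N = 1 := by
  induction N with
  | zero => rfl
  | succ N ih => rw [spr, ih, cj_one, one_mul]

lemma spr_shift (s : ℕ → Au) (N : ℕ) :
    spr A s (N + 1) = cj A (s 0) * cj tau (spr A (fun j => s (j + 1)) N) := by
  induction N with
  | zero => simp [spr]
  | succ N ih =>
    rw [spr, ih, spr, cj_mul, cj_cj, pow_succ' tau N]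
    simp only [mul_assoc]

lemma spr_mem (hAF : ∀ g ∈ FF, cj A g ∈ FF) (hs : ∀ j, s j ∈ FF) (N : ℕ) : spr A s N ∈ FF := by
  induction N with
  | zero => exact FF.one_mem
  | succ N ih =>
    rw [spr, ← cj_cj]
    exact FF.mul_mem ih (cj_mem (FF.pow_mem tau_mem N) (hAF _ (hs N)))

lemma spr_congr {N : ℕ} (h : ∀ j < N, s j = s' j) : spr A s N = spr A s' N := by
  induction N with
  | zero => rfl
  | succ N ih => rw [spr, spr, ih (fun j hj => h j (by omega)), h N (by omega)]

lemma cj_zone_mem (hA : Zone A) {g : Au} (hg : Sup 0 1 g) {t : ℚ} (h0 : 1/2 ≤ t) (h1 : t ≤ 3/4) :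
    1/2 ≤ cj A g t ∧ cj A g t ≤ 3/4 := by
  have h := (hg.cj A).mono hA.left hA.right
  constructor
  · rw [← h.map_left]; exact (au_le _).2 h0
  · rw [← h.map_right]; exact (au_le _).2 h1

/-- Action of a spread element on the zones. -/
lemma spr_apply (hA : Zone A) (hs : ∀ j, Sup 0 1 (s j)) (N j : ℕ) {t : ℚ} (h0 : 1/2 ≤ t)
    (h1 : t ≤ 3/4) :
    spr A s N ((tau ^ j) t) = (tau ^ j) (if j < N then cj A (s j) t else t) := by
  induction N generalizing t with
  | zero => simp [spr]
  | succ N ih =>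
    rw [spr, au_mul]
    rcases eq_or_ne j N with rfl | hne
    · rw [if_pos (Nat.lt_succ_self j), ← cj_cj, cj_apply']
      have h2 := cj_zone_mem hA (hs j) h0 h1
      rw [ih h2.1 h2.2, if_neg (lt_irrefl j)]
    · have h2 : cj (tau ^ N * A) (s N) ((tau ^ j) t) = (tau ^ j) t := by
        apply piece_sup hA (hs N) N
        rintro ⟨h3, h4⟩
        rcases lt_or_gt_of_ne hne with h5 | h5
        · have h6 : (tau ^ j) t ≤ (tau ^ j) (3/4) := (au_le _).2 h1
          rw [← tau_pow_succ_half] at h6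
          have h7 := tau_pow_half_mono (show j + 1 ≤ N from h5)
          linarith
        · have h6 : (tau ^ j) (1/2) ≤ (tau ^ j) t := (au_le _).2 h0
          rw [← tau_pow_succ_half] at h4
          have h7 := tau_pow_half_mono (show N + 1 ≤ j from h5)
          linarith
      rw [h2, ih h0 h1]
      have : (j < N) = (j < N + 1) := by
        apply propext; constructor <;> intro h <;> omega
      simp only [this]

lemma loc_spr (hA : Zone A) (hs : ∀ j, Sup 0 1 (s j)) (N j : ℕ) :
    St (tau ^ j * A) (spr A s N) ∧ loc (tau ^ j * A) (spr A s N) = if j < N then s j else 1 := by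
  have hbd : ∀ t, 0 ≤ t → t ≤ 1 → 1/2 ≤ A t ∧ A t ≤ 3/4 := fun t h0 h1 =>
    ⟨hA.left.trans ((au_le A).2 h0), ((au_le A).2 h1).trans hA.right⟩
  have key : ∀ t, 0 ≤ t → t ≤ 1 → (tau ^ j * A) ((if j < N then s j else 1 : Au) t) =
      spr A s N ((tau ^ j * A) t) := by
    intro t h0 h1
    rw [au_mul, au_mul, spr_apply hA hs N j (hbd t h0 h1).1 (hbd t h0 h1).2]
    split_ifs
    · rw [cj_apply']
    · rfl
  have hsup : Sup 0 1 (if j < N then s j else 1 : Au) := by
    split_ifs
    · exact hs j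
    · exact Sup.one 0 1
  have hst : St (tau ^ j * A) (spr A s N) := by
    constructor
    · rw [← key 0 le_rfl zero_le_one, hsup.map_left]
    · rw [← key 1 zero_le_one le_rfl, hsup.map_right]
  exact ⟨hst, loc_unique hsup hst key⟩

/-! ### The difference equation -/

lemma spr_const_eqn (hA : Zone A) {c : Au} (hc : Sup 0 1 c) (N : ℕ) :
    cj tau (spr A (fun _ => c) N) * cj A c = spr A (fun _ => c) N * cj (tau ^ N) (cj A c) := by
  have h1 := spr_shift (A := A) (fun _ => c) N
  have h2 : spr A (fun _ => c) (N + 1) = spr A (fun _ => c) N * cj (tau ^ N) (cj A c) := by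
    rw [spr, cj_cj]
  have h3 : cj A c * cj tau (spr A (fun _ => c) N) = cj tau (spr A (fun _ => c) N) * cj A c := by
    have e1 : Sup (1/2) (3/4) (cj A c) := (hc.cj A).mono hA.left hA.right
    have e2 := (spr_sup hA (s := fun _ => c) (fun _ => hc) N).cj tau
    rw [tau_half] at e2
    exact e1.commute e2 le_rfl
  rw [← h3, ← h1, h2]

lemma spr_unique (hA : Zone A) (hAG : A ∈ Germ) {c C : Au} (hc : c ∈ GG) (hC : C ∈ GG) (N : ℕ)
    (h : cj tau C * cj A c = C * cj (tau ^ N) (cj A c)) (h1 : C (1/2) = 1/2) :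
    C = spr A (fun _ => c) N := by
  set S := spr A (fun _ => c) N with hS
  have hSsup : Sup 0 1 S := spr_sup01 hA (fun _ => hc.2) N
  have hSG : S ∈ GG := by
    refine ⟨?_, hSsup⟩
    rw [hS]
    clear_value S
    clear h hS
    induction N with
    | zero => exact Germ.one_mem
    | succ N ih =>
      exact Germ.mul_mem (ih) (cj_germ (Germ.mul_mem (Germ.pow_mem tau_germ N) hAG) hc.1)
  have h2 := spr_const_eqn hA hc.2 N
  rw [← hS] at h2
  have hK : C * S⁻¹ = 1 := by
    apply rigid (GG.mul_mem hC (GG.inv_mem hSG))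
    · have e1 : cj tau C = C * cj (tau ^ N) (cj A c) * (cj A c)⁻¹ := by rw [← h]; group
      have e2 : cj tau S = S * cj (tau ^ N) (cj A c) * (cj A c)⁻¹ := by rw [← h2]; group
      have e3 : cj tau (C * S⁻¹) = C * S⁻¹ := by
        rw [cj_mul, cj_inv, e1, e2]; group
      rw [cj] at e3
      calc C * S⁻¹ * tau = (tau * (C * S⁻¹) * tau⁻¹) * tau := by rw [e3]
        _ = tau * (C * S⁻¹) := by group
    · rw [au_mul]
      have : S (1/2) = 1/2 := by
        rw [hS]; exact (spr_sup hA (fun _ => hc.2) N).map_left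
      have h3 : S⁻¹ (1/2) = 1/2 := by rw [au_inv_eq, this]
      rw [h3, h1]
  exact mul_inv_eq_one.1 hK

/-! ### Zone preservation -/

lemma tau_half' : (3/4 : ℚ) = tau (1/2) := tau_half.symm

lemma pow_lt_pow_apply {j : ℕ} {s t : ℚ} (h : s < t) : (tau ^ j) s < (tau ^ j) t := (au_lt _).2 h

lemma a_moves {N i : ℕ} (hi : i < N) {t : ℚ} (h0 : (tau ^ i) (1/2) < t) (h1 : t < (tau ^ i) (5/8)) :
    spr AD (fun _ => tau) N t ≠ t := by
  intro h
  have e : t = (tau ^ i) ((tau ^ i)⁻¹ t) := by simp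
  have h0' : 1/2 < (tau ^ i)⁻¹ t := by rw [au_lt_inv]; exact h0
  have h1' : (tau ^ i)⁻¹ t < 5/8 := by rw [au_inv_lt]; exact h1
  rw [e, spr_apply zone_AD (fun _ => sup_tau) N i h0'.le (by linarith), if_pos hi] at h
  refine cj_tau_ne (A := AD) ?_ ?_ ((tau ^ i).injective h)
  · rw [AD_apply]; linarith
  · rw [AD_apply]; linarith

lemma a_fixes (N i : ℕ) {t : ℚ} (h0 : (tau ^ i) (5/8) ≤ t) (h1 : t ≤ (tau ^ i) (3/4)) :
    spr AD (fun _ => tau) N t = t := by
  have e : t = (tau ^ i) ((tau ^ i)⁻¹ t) := by simp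
  have h0' : 5/8 ≤ (tau ^ i)⁻¹ t := by rw [au_le_inv]; exact h0
  have h1' : (tau ^ i)⁻¹ t ≤ 3/4 := by rw [au_inv_le]; exact h1
  rw [e, spr_apply zone_AD (fun _ => sup_tau) N i (by linarith) h1']
  have : cj AD tau ((tau ^ i)⁻¹ t) = (tau ^ i)⁻¹ t := by
    apply (sup_tau.cj AD)
    rintro ⟨-, h⟩
    rw [AD_apply] at h; linarith
  rw [this, ite_self]

lemma b_moves {N i : ℕ} (hi : i < N) {t : ℚ} (h0 : (tau ^ i) (5/8) < t) (h1 : t < (tau ^ i) (3/4)) :
    spr AE (fun _ => tau) N t ≠ t := by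
  intro h
  have e : t = (tau ^ i) ((tau ^ i)⁻¹ t) := by simp
  have h0' : 5/8 < (tau ^ i)⁻¹ t := by rw [au_lt_inv]; exact h0
  have h1' : (tau ^ i)⁻¹ t < 3/4 := by rw [au_inv_lt]; exact h1
  rw [e, spr_apply zone_AE (fun _ => sup_tau) N i (by linarith) h1'.le, if_pos hi] at h
  refine cj_tau_ne (A := AE) ?_ ?_ ((tau ^ i).injective h)
  · rw [AE_apply]; linarith
  · rw [AE_apply]; linarith

lemma b_fixes (N i : ℕ) {t : ℚ} (h0 : (tau ^ i) (1/2) ≤ t) (h1 : t ≤ (tau ^ i) (5/8)) :
    spr AE (fun _ => tau) N t = t := by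
  have e : t = (tau ^ i) ((tau ^ i)⁻¹ t) := by simp
  have h0' : 1/2 ≤ (tau ^ i)⁻¹ t := by rw [au_le_inv]; exact h0
  have h1' : (tau ^ i)⁻¹ t ≤ 5/8 := by rw [au_inv_le]; exact h1
  rw [e, spr_apply zone_AE (fun _ => sup_tau) N i h0' (by linarith)]
  have : cj AE tau ((tau ^ i)⁻¹ t) = (tau ^ i)⁻¹ t := by
    apply (sup_tau.cj AE)
    rintro ⟨h, -⟩
    rw [AE_apply] at h; linarith
  rw [this, ite_self]

lemma zones_preserved {N : ℕ} {V : Au} (h0 : V (1/2) = 1/2)
    (h1 : spr AD (fun _ => tau) (N + 1) * cj V (spr AE (fun _ => tau) N) =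
      cj V (spr AE (fun _ => tau) N) * spr AD (fun _ => tau) (N + 1))
    (h2 : cj V (spr AD (fun _ => tau) (N + 1)) * spr AE (fun _ => tau) N =
      spr AE (fun _ => tau) N * cj V (spr AD (fun _ => tau) (N + 1))) :
    (∀ i ≤ N, V ((tau ^ i) (1/2)) = (tau ^ i) (1/2)) ∧
    (∀ i < N, V ((tau ^ i) (5/8)) = (tau ^ i) (5/8)) := by
  set a := spr AD (fun _ => tau) (N + 1) with ha
  set b := spr AE (fun _ => tau) N with hb
  have lt1 : ∀ i, (tau ^ i) (1/2) < (tau ^ i) (5/8) := fun i => pow_lt_pow_apply (by norm_num)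
  have lt2 : ∀ i, (tau ^ i) (5/8) < (tau ^ (i + 1)) (1/2) := fun i => by
    rw [tau_pow_succ_half]; exact pow_lt_pow_apply (by norm_num)
  -- step A
  have stepA : ∀ i, i < N → V ((tau ^ i) (1/2)) = (tau ^ i) (1/2) →
      V ((tau ^ i) (5/8)) = (tau ^ i) (5/8) := by
    intro i hi hVd
    set d := (tau ^ i) (1/2)
    set e := (tau ^ i) (5/8)
    have hd' : (tau ^ (i + 1)) (1/2) = (tau ^ i) (3/4) := tau_pow_succ_half i
    set d' := (tau ^ (i + 1)) (1/2)
    have hde : d < e := lt1 i
    have hed : e < d' := lt2 i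
    apply le_antisymm
    · -- (2)
      have := endpoint (g := b) (h := cj V a) h2.symm hde hed
        (fun t ht0 ht1 => b_fixes N i ht0.le ht1.le)
        (fun t ht0 ht1 => b_moves hi ht0 (by rw [← hd']; exact ht1))
        (by
          have : cj V a (V d) = V d := by
            rw [cj_fix]
            by_cases h3 : i = 0
            · subst h3
              have := (spr_sup zone_AD (s := fun _ => tau) (fun _ => sup_tau) (N + 1)).map_left
              simpa [d] using this
            · obtain ⟨m, rfl⟩ := Nat.exists_eq_succ_of_ne_zero h3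
              have e1 : d = (tau ^ m) (3/4) := tau_pow_succ_half m
              rw [e1]
              exact a_fixes (N + 1) m (pow_lt_pow_apply (by norm_num)).le le_rfl
          rwa [hVd] at this)
      rw [cj_fix'] at this
      by_contra hcon
      push Not at hcon
      refine a_moves (N := N + 1) (i := i) (by omega) (t := V⁻¹ e) ?_ ?_ this
      · rw [au_lt_inv]; show V d < e; rw [hVd]; exact hde
      · rw [au_inv_lt]; exact hcon
    · -- (1)
      have hp : d < V e := by
        have := (au_lt V).2 hde; rwa [hVd] at this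
      have := endpoint (g := cj V b) (h := a) h1.symm hp ((au_lt V).2 hed)
        (fun t ht0 ht1 => by
          rw [cj_fix']
          refine b_fixes N i ?_ ?_
          · rw [au_le_inv]; show V d ≤ t; rw [hVd]; exact ht0.le
          · rw [au_inv_le]; exact ht1.le)
        (fun t ht0 ht1 => by
          rw [Ne, cj_fix']
          refine b_moves hi ?_ ?_
          · rw [au_lt_inv]; exact ht0
          · rw [au_inv_lt, ← hd']; exact ht1)
        (by
          by_cases h3 : i = 0
          · subst h3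
            have := (spr_sup zone_AD (s := fun _ => tau) (fun _ => sup_tau) (N + 1)).map_left
            simpa [d] using this
          · obtain ⟨m, rfl⟩ := Nat.exists_eq_succ_of_ne_zero h3
            have e1 : d = (tau ^ m) (3/4) := tau_pow_succ_half m
            rw [e1]
            exact a_fixes (N + 1) m (pow_lt_pow_apply (by norm_num)).le le_rfl)
      by_contra hcon
      push Not at hcon
      exact a_moves (N := N + 1) (i := i) (by omega) hp hcon this
  -- step B
  have stepB : ∀ i, i < N → V ((tau ^ i) (5/8)) = (tau ^ i) (5/8) →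
      V ((tau ^ (i + 1)) (1/2)) = (tau ^ (i + 1)) (1/2) := by
    intro i hi hVe
    have hd' : (tau ^ (i + 1)) (1/2) = (tau ^ i) (3/4) := tau_pow_succ_half i
    have hede : (tau ^ (i + 1)) (1/2) < (tau ^ (i + 1)) (5/8) := lt1 (i + 1)
    have hed : (tau ^ i) (5/8) < (tau ^ (i + 1)) (1/2) := lt2 i
    set e := (tau ^ i) (5/8)
    set d' := (tau ^ (i + 1)) (1/2)
    set e' := (tau ^ (i + 1)) (5/8)
    apply le_antisymm
    · -- (4)
      have := endpoint (g := a) (h := cj V b) h1 hed hede
        (fun t ht0 ht1 => a_fixes (N + 1) i ht0.le (by rw [← hd']; exact ht1.le))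
        (fun t ht0 ht1 => a_moves (i := i + 1) (by omega) ht0 ht1)
        (by
          have : cj V b (V e) = V e := by
            rw [cj_fix]
            exact b_fixes N i (lt1 i).le le_rfl
          rwa [hVe] at this)
      rw [cj_fix'] at this
      by_contra hcon
      push Not at hcon
      refine b_moves (N := N) (i := i) hi (t := V⁻¹ d') ?_ ?_ this
      · rw [au_lt_inv]; show V e < d'; rw [hVe]; exact hed
      · rw [au_inv_lt, ← hd']; exact hcon
    · -- (3)
      have hp : e < V d' := by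
        have := (au_lt V).2 hed; rwa [hVe] at this
      have := endpoint (g := cj V a) (h := b) h2 hp ((au_lt V).2 hede)
        (fun t ht0 ht1 => by
          rw [cj_fix']
          refine a_fixes (N + 1) i ?_ ?_
          · rw [au_le_inv]; show V e ≤ t; rw [hVe]; exact ht0.le
          · rw [au_inv_le, ← hd']; exact ht1.le)
        (fun t ht0 ht1 => by
          rw [Ne, cj_fix']
          refine a_moves (i := i + 1) (by omega) ?_ ?_
          · rw [au_lt_inv]; exact ht0
          · rw [au_inv_lt]; exact ht1)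
        (b_fixes N i (lt1 i).le le_rfl)
      by_contra hcon
      push Not at hcon
      exact b_moves (N := N) (i := i) hi hp (by rw [← hd']; exact hcon) this
  have main : ∀ i, i ≤ N → V ((tau ^ i) (1/2)) = (tau ^ i) (1/2) := by
    intro i
    induction i with
    | zero => intro _; simpa using h0
    | succ i ih => intro hi; exact stepB i (by omega) (stepA i (by omega) (ih (by omega)))
  exact ⟨main, fun i hi => stepA i hi (main i hi.le)⟩

end Pool.Agent.Helper48.Thompson
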