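import Mathlib
import Pool.Agent.Helper48.Thompson.Presentation
import Pool.Agent.Helper48.Thompson.Spread

/-!
# Relations on `ℕ` defined by finite systems of equations over `F`
-/

set_option autoImplicit false

namespace Pool.Agent.Helper48.Thompson

/-- Evaluation of words in the two generators and the variables `V`. -/
def ev {V : Type} (v : V → Au) : FreeGroup (Bool ⊕ V) →* Au := FreeGroup.lift (Sum.elim gens v)

lemma gens_mem (b : Bool) : gens b ∈ FF := by
  cases b
  · exact X0_mem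
  · exact X1_mem

/-! ### Terms -/

/-- `t` is given by a word in the variables and the generators. -/
def Term {V : Type} (t : (V → Au) → Au) : Prop := ∃ w : FreeGroup (Bool ⊕ V), ∀ v, t v = ev v w

namespace Term

variable {V : Type} {t t' : (V → Au) → Au}

lemma var (i : V) : Term (fun v : V → Au => v i) :=
  ⟨FreeGroup.of (Sum.inr i), fun v => by simp [ev]⟩

lemma mul (h : Term t) (h' : Term t') : Term (fun v => t v * t' v) := by
  obtain ⟨w, hw⟩ := h
  obtain ⟨w', hw'⟩ := h'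
  exact ⟨w * w', fun v => by beta_reduce; rw [map_mul, hw, hw']⟩

lemma inv (h : Term t) : Term (fun v => (t v)⁻¹) := by
  obtain ⟨w, hw⟩ := h
  exact ⟨w⁻¹, fun v => by beta_reduce; rw [map_inv, hw]⟩

lemma const {g : Au} (hg : g ∈ FF) : Term (fun _ : V → Au => g) := by
  have h : FF ≤ (FreeGroup.lift gens : FreeGroup Bool →* Au).range :=
    FF_le ⟨FreeGroup.of false, by simp [gens]⟩ ⟨FreeGroup.of true, by simp [gens]⟩
  obtain ⟨u, rfl⟩ := h hg
  refine ⟨FreeGroup.map Sum.inl u, fun v => ?_⟩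
  have : (ev v).comp (FreeGroup.map Sum.inl) = (FreeGroup.lift gens : FreeGroup Bool →* Au) := by
    ext b; simp [ev]
  exact (DFunLike.congr_fun this u).symm

lemma pow (h : Term t) (n : ℕ) : Term (fun v => t v ^ n) := by
  obtain ⟨w, hw⟩ := h
  exact ⟨w ^ n, fun v => by beta_reduce; rw [map_pow, hw]⟩

lemma cj (h : Term t) (h' : Term t') : Term (fun v => Thompson.cj (t v) (t' v)) :=
  (h.mul h').mul h.inv

end Term

/-! ### Conditions -/

/-- `C` is a finite conjunction of word equations. -/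
def Cond {V : Type} (C : (V → Au) → Prop) : Prop :=
  ∃ L : List (FreeGroup (Bool ⊕ V)), ∀ v, C v ↔ ∀ w ∈ L, ev v w = 1

namespace Cond

variable {V W : Type} {C D : (V → Au) → Prop} {t t' : (V → Au) → Au}

lemma of_iff (h : Cond C) (h' : ∀ v, C v ↔ D v) : Cond D := by
  obtain ⟨L, hL⟩ := h
  exact ⟨L, fun v => (h' v).symm.trans (hL v)⟩

lemma eq (h : Term t) (h' : Term t') : Cond (fun v => t v = t' v) := by
  obtain ⟨w, hw⟩ := h
  obtain ⟨w', hw'⟩ := h'
  refine ⟨[w * w'⁻¹], fun v => ?_⟩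
  simp only [List.mem_singleton, forall_eq, map_mul, map_inv, mul_inv_eq_one]
  rw [hw, hw']

lemma true : Cond (fun _ : V → Au => True) := ⟨[], fun v => by simp⟩

lemma and (h : Cond C) (h' : Cond D) : Cond (fun v => C v ∧ D v) := by
  obtain ⟨L, hL⟩ := h
  obtain ⟨L', hL'⟩ := h'
  refine ⟨L ++ L', fun v => ?_⟩
  beta_reduce
  rw [hL, hL']
  constructor
  · rintro ⟨h1, h2⟩ w hw
    rcases List.mem_append.1 hw with hw | hw
    · exact h1 w hw
    · exact h2 w hw
  · intro h
    exact ⟨fun w hw => h w (List.mem_append.2 (Or.inl hw)),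
      fun w hw => h w (List.mem_append.2 (Or.inr hw))⟩

lemma all {ι : Type} [Finite ι] {C : ι → (V → Au) → Prop} (h : ∀ i, Cond (C i)) :
    Cond (fun v => ∀ i, C i v) := by
  classical
  have _ := Fintype.ofFinite ι
  choose L hL using h
  refine ⟨(Finset.univ.toList.map L).flatten, fun v => ?_⟩
  constructor
  · intro h w hw
    rw [List.mem_flatten] at hw
    obtain ⟨l, hl, hw⟩ := hw
    rw [List.mem_map] at hl
    obtain ⟨i, -, rfl⟩ := hl
    exact (hL i v).1 (h i) w hw
  · intro h i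
    rw [hL]
    intro w hw
    apply h
    rw [List.mem_flatten]
    exact ⟨L i, List.mem_map.2 ⟨i, by simp, rfl⟩, hw⟩

lemma comp (h : Cond C) (f : V → W) : Cond (fun w : W → Au => C (fun v => w (f v))) := by
  obtain ⟨L, hL⟩ := h
  refine ⟨L.map (FreeGroup.map (Sum.map id f)), fun w => ?_⟩
  have key : ∀ u, ev w (FreeGroup.map (Sum.map id f) u) = ev (fun v => w (f v)) u := by
    intro u
    have : (ev w).comp (FreeGroup.map (Sum.map id f)) = ev (fun v => w (f v)) := by
      ext x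
      rcases x with b | i <;> simp [ev]
    exact DFunLike.congr_fun this u
  beta_reduce
  rw [hL]
  simp only [List.mem_map, forall_exists_index, and_imp, forall_apply_eq_imp_iff₂, key]

/-- Substituting variables for the generators and the variables of a list of words. -/
lemma subst (L : List (FreeGroup (Bool ⊕ V))) (c : Bool → W) (f : V → W) :
    Cond (fun w : W → Au => ∀ u ∈ L,
      FreeGroup.lift (Sum.elim (fun b => w (c b)) (fun i => w (f i))) u = 1) := by
  refine ⟨L.map (FreeGroup.map (Sum.elim (fun b => Sum.inr (c b)) (fun i => Sum.inr (f i)))),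
    fun w => ?_⟩
  have key : ∀ u, ev w (FreeGroup.map (Sum.elim (fun b => Sum.inr (c b)) (fun i => Sum.inr (f i))) u)
      = FreeGroup.lift (Sum.elim (fun b => w (c b)) (fun i => w (f i))) u := by
    intro u
    have : (ev w).comp (FreeGroup.map (Sum.elim (fun b => Sum.inr (c b)) (fun i => Sum.inr (f i))))
        = FreeGroup.lift (Sum.elim (fun b => w (c b)) (fun i => w (f i))) := by
      ext x
      rcases x with b | i <;> simp [ev]
    exact DFunLike.congr_fun this u
  simp only [List.mem_map, forall_exists_index, and_imp, forall_apply_eq_imp_iff₂, key]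

end Cond

/-! ### Anchors as conditions -/

/-- `V (1/2) ≥ 1/2`, as an equation. -/
def Ge (V : Au) : Prop := al * cj V be = cj V be * al
/-- `V (1/2) ≤ 1/2`, as an equation. -/
def Le (V : Au) : Prop := cj V al * be = be * cj V al

lemma Ge_iff {V : Au} (h0 : V 0 = 0) (h1 : V 1 = 1) : Ge V ↔ 1/2 ≤ V (1/2) :=
  ⟨anchor_ge h0 h1, anchor_ge_conv⟩
lemma Le_iff {V : Au} (h0 : V 0 = 0) : Le V ↔ V (1/2) ≤ 1/2 :=
  ⟨anchor_le h0, anchor_le_conv⟩

/-- `V` fixes `k (1/2)`, as a pair of equations. -/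
def Fixes (k V : Au) : Prop := Ge (k⁻¹ * V * k) ∧ Le (k⁻¹ * V * k)

lemma conj_zero {k V : Au} (hk : Sup 0 1 k) (hV : Sup 0 1 V) : (k⁻¹ * V * k) 0 = 0 := by
  rw [au_mul, au_mul, hk.map_left, hV.map_left, hk.inv.map_left]
lemma conj_one {k V : Au} (hk : Sup 0 1 k) (hV : Sup 0 1 V) : (k⁻¹ * V * k) 1 = 1 := by
  rw [au_mul, au_mul, hk.map_right, hV.map_right, hk.inv.map_right]

lemma Fixes_iff {k V : Au} (hk : Sup 0 1 k) (hV : Sup 0 1 V) :
    Fixes k V ↔ V (k (1/2)) = k (1/2) := by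
  rw [Fixes, Ge_iff (conj_zero hk hV) (conj_one hk hV), Le_iff (conj_zero hk hV), au_mul, au_mul]
  rw [au_le_inv, au_inv_le]
  constructor
  · rintro ⟨h1, h2⟩; exact le_antisymm h2 h1
  · intro h; rw [h]; exact ⟨le_rfl, le_rfl⟩

lemma Ge_conj_iff {k V : Au} (hk : Sup 0 1 k) (hV : Sup 0 1 V) :
    Ge (k⁻¹ * V * k) ↔ k (1/2) ≤ V (k (1/2)) := by
  rw [Ge_iff (conj_zero hk hV) (conj_one hk hV), au_mul, au_mul, au_le_inv]

section
variable {V : Type} {t t' : (V → Au) → Au}

lemma cond_Ge (h : Term t) : Cond (fun v => Ge (t v)) :=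
  Cond.eq ((Term.const al_mem).mul (h.cj (Term.const be_mem)))
    ((h.cj (Term.const be_mem)).mul (Term.const al_mem))
lemma cond_Le (h : Term t) : Cond (fun v => Le (t v)) :=
  Cond.eq ((h.cj (Term.const al_mem)).mul (Term.const be_mem))
    ((Term.const be_mem).mul (h.cj (Term.const al_mem)))
lemma cond_Fixes (h : Term t) (h' : Term t') : Cond (fun v => Fixes (t v) (t' v)) :=
  (cond_Ge ((h.inv.mul h').mul h)).and (cond_Le ((h.inv.mul h').mul h))
lemma cond_comm (h : Term t) (h' : Term t') : Cond (fun v => t v * t' v = t' v * t v) :=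
  Cond.eq (h.mul h') (h'.mul h)
end

/-! ### Trivial pieces -/

lemma triv_left {V : Au} (hV : V ∈ GG) (hc : V * al = al * V) (hf : V (1/4) = 1/4) :
    ∀ t, t ≤ 1/2 → V t = t := by
  have h1 : V (1/2) = 1/2 := by
    refine endpoint' (g := al) (h := V) hc.symm (m := 1) (p := 1/2) (r := 0) (by norm_num)
      (by norm_num) (fun t ht0 _ => al_sup t (by rintro ⟨-, h⟩; linarith))
      (fun t ht0 ht1 => al_ne ht0 ht1) hV.2.map_right
  have hst : St A0 V := ⟨by
      have : A0 0 = 0 := by norm_num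
      rw [this, hV.2.map_left], by rw [show A0 1 = 1/2 by norm_num, h1]⟩
  intro t ht
  by_cases h0 : 0 ≤ t
  · refine loc_rigid A0_germ hV.1 hst hc ?_ t ?_ ?_
    · rw [show A0 (1/2) = 1/4 by norm_num, hf]
    · rw [show A0 0 = 0 by norm_num]; exact h0
    · rw [show A0 1 = 1/2 by norm_num]; exact ht
  · exact hV.2 t (by rintro ⟨h, -⟩; linarith)

lemma triv_right0 {V : Au} (hV : V ∈ GG) (hc : V * be = be * V) (hf : V (3/4) = 3/4) :
    ∀ t, 1/2 ≤ t → V t = t := by
  have h1 : V (1/2) = 1/2 := by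
    refine endpoint (g := be) (h := V) hc.symm (m := 0) (p := 1/2) (r := 1) (by norm_num)
      (by norm_num) (fun t _ ht0 => be_sup t (by rintro ⟨h, -⟩; linarith))
      (fun t ht0 ht1 => be_ne ht0 ht1) hV.2.map_left
  have hst : St A1 V := ⟨by rw [show A1 0 = 1/2 by norm_num, h1], by
      rw [show A1 1 = 1 by norm_num, hV.2.map_right]⟩
  intro t ht
  by_cases h0 : t ≤ 1
  · refine loc_rigid A1_germ hV.1 hst hc ?_ t ?_ ?_
    · rw [show A1 (1/2) = 3/4 by norm_num, hf]
    · rw [show A1 0 = 1/2 by norm_num]; exact ht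
    · rw [show A1 1 = 1 by norm_num]; exact h0
  · exact hV.2 t (by rintro ⟨-, h⟩; linarith)

lemma triv_right (N : ℕ) {V : Au} (hV : V ∈ GG) (hc : V * cj (tau ^ N) be = cj (tau ^ N) be * V)
    (hf : V ((tau ^ N) (3/4)) = (tau ^ N) (3/4)) : ∀ t, (tau ^ N) (1/2) ≤ t → V t = t := by
  have hT : tau ^ N ∈ GG := GG.pow_mem tau_GG N
  have h1 : cj (tau ^ N)⁻¹ V ∈ GG := GG.mul_mem (GG.mul_mem (GG.inv_mem hT) hV)
    (GG.inv_mem (GG.inv_mem hT))
  have h2 := triv_right0 h1 (by
    have : cj (tau ^ N)⁻¹ (V * cj (tau ^ N) be) = cj (tau ^ N)⁻¹ (cj (tau ^ N) be * V) := by rw [hc]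
    rw [cj_mul, cj_mul, cj_cj, inv_mul_cancel, cj_one_left] at this
    exact this) (by
    rw [cj_apply, inv_inv, hf, au_inv_self])
  intro t ht
  have h3 := h2 ((tau ^ N)⁻¹ t) (by rw [au_le_inv]; exact ht)
  rw [cj_apply, inv_inv, au_self_inv] at h3
  exact (tau ^ N)⁻¹.injective h3

/-! ### The encoding of numbers -/

/-- The interval `[1/2, 3/4]`. -/
def AS : Au := A1 * A0
lemma AS_apply (t : ℚ) : AS t = 1/2 + t / 4 := by
  simp only [AS, au_mul, A0_apply, A1_apply]; ring
lemma AS_germ : AS ∈ Germ := Germ.mul_mem A1_germ A0_germ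
lemma cj_AS_mem {g : Au} (hg : g ∈ FF) : cj AS g ∈ FF := by
  rw [AS, ← cj_cj]; exact i1_mem (i0_mem hg)

/-- The number `n` is encoded by `ss ^ n`. -/
def ss : Au := cj AS tau
lemma ss_mem : ss ∈ FF := cj_AS_mem tau_mem
lemma ss_sup : Sup (1/2) (3/4) ss :=
  (sup_tau.cj AS).mono (by rw [AS_apply]; norm_num) (by rw [AS_apply]; norm_num)
lemma ss_pow (n : ℕ) : ss ^ n = cj AS (tau ^ n) := by rw [ss, cj_pow]
lemma ss_pow_sup01 (n : ℕ) : Sup 0 1 (ss ^ n) :=
  (ss_sup.pow n).mono (by norm_num) (by norm_num)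

lemma ss_pow_injective : Function.Injective (fun n : ℕ => ss ^ n) := by
  intro m n h
  simp only [ss_pow, cj_eq_iff] at h
  apply tau_pow_half_strictMono.injective
  simp only [h]

/-- Membership in `{ss ^ n}`, as a finite conjunction of equations. -/
def MemC (x : Au) : Prop :=
  (x * al = al * x ∧ Fixes X0 x) ∧ (x * cj tau be = cj tau be * x ∧ Fixes (tau * tau) x) ∧
    (x * ss = ss * x ∧ Ge ((X1 * tau)⁻¹ * x * (X1 * tau)))

lemma cond_MemC {V : Type} {t : (V → Au) → Au} (h : Term t) : Cond (fun v => MemC (t v)) :=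
  (((cond_comm h (Term.const al_mem)).and (cond_Fixes (Term.const X0_mem) h))).and
    (((cond_comm h (Term.const (cj_mem tau_mem be_mem))).and
      (cond_Fixes (Term.const (FF.mul_mem tau_mem tau_mem)) h)).and
      ((cond_comm h (Term.const ss_mem)).and
        (cond_Ge (((Term.const (FF.inv_mem (FF.mul_mem X1_mem tau_mem))).mul h).mul
          (Term.const (FF.mul_mem X1_mem tau_mem))))))

lemma X0_half : X0 (1/2) = 1/4 := by rw [X0_2 (by norm_num) le_rfl]; norm_num
lemma tau_34 : tau (3/4) = 7/8 := by rw [tau_4 (by norm_num) (by norm_num)]; norm_num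
lemma X1tau_half : (X1 * tau) (1/2) = 5/8 := by
  rw [au_mul, tau_half, X1, cj_apply, A1_inv_apply, show (2 * (3/4) - 1 : ℚ) = 1/2 by norm_num,
    X0_half]
  norm_num

lemma sup_cj_loc {A V : Au} (h : Sup (A 0) (A 1) V) : V = cj A (loc A V) := by
  have hst : St A V := ⟨h.map_left, h.map_right⟩
  ext t
  by_cases ht : A 0 < t ∧ t < A 1
  · have h0 : 0 ≤ A⁻¹ t := by rw [au_le_inv]; exact ht.1.le
    have h1 : A⁻¹ t ≤ 1 := by rw [au_inv_le]; exact ht.2.le
    rw [cj_apply, loc_apply hst h0 h1, au_self_inv]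
  · rw [h t ht, cj_apply, loc_sup A V]
    · simp
    · rwa [au_lt_inv, au_inv_lt]

lemma MemC_iff {x : Au} (hx : x ∈ GG) : MemC x ↔ ∃ n : ℕ, x = ss ^ n := by
  have sX1 : Sup 0 1 X1 := sup01_of_mem X1_mem
  constructor
  · rintro ⟨⟨h1, h2⟩, ⟨h3, h4⟩, h5, h6⟩
    rw [Fixes_iff sup_X0 hx.2, X0_half] at h2
    rw [Fixes_iff (sup_tau.mul sup_tau) hx.2, au_mul, tau_half, tau_34] at h4
    rw [Ge_conj_iff (sX1.mul sup_tau) hx.2, X1tau_half] at h6
    have h7 := triv_left hx h1 h2
    have h8 := triv_right 1 hx (by rw [pow_one]; exact h3) (by rw [pow_one, tau_34]; exact h4)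
    rw [pow_one, tau_half] at h8
    have hsup : Sup (AS 0) (AS 1) x := by
      intro t ht
      rw [AS_apply, AS_apply] at ht
      rcases le_or_gt t (1/2) with h | h
      · exact h7 t h
      · refine h8 t ?_
        by_contra hcon
        exact ht ⟨by linarith, by linarith⟩
    obtain ⟨k, hk⟩ := loc_power AS_germ hx.1 ⟨hsup.map_left, hsup.map_right⟩ h5
    have h9 : 1/2 ≤ (tau ^ k) (1/2) := by
      rw [← au_le AS, ← hk, loc_apply ⟨hsup.map_left, hsup.map_right⟩ (by norm_num) (by norm_num),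
        AS_apply, show (1/2 + 1/2/4 : ℚ) = 5/8 by norm_num]
      exact h6
    obtain ⟨n, rfl⟩ := tau_zpow_nonneg_of_half h9
    refine ⟨n, ?_⟩
    rw [ss_pow, sup_cj_loc hsup, hk, zpow_natCast]
  · rintro ⟨n, rfl⟩
    have hs := ss_pow_sup01 n
    have hs' := ss_sup.pow n
    refine ⟨⟨(al_sup.commute hs' le_rfl).symm, ?_⟩, ⟨?_, ?_⟩, ?_, ?_⟩
    · rw [Fixes_iff sup_X0 hs, X0_half]
      exact hs' _ (by rintro ⟨h, -⟩; norm_num at h)
    · have h := be_sup.cj tau
      rw [tau_half] at h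
      exact hs'.commute h le_rfl
    · rw [Fixes_iff (sup_tau.mul sup_tau) hs, au_mul, tau_half, tau_34]
      exact hs' _ (by rintro ⟨-, h⟩; norm_num at h)
    · exact (Commute.pow_self ss n)
    · rw [Ge_conj_iff (sX1.mul sup_tau) hs, X1tau_half, ss_pow, cj_apply]
      have e1 : AS⁻¹ (5/8) = 1/2 := by rw [au_inv_eq, AS_apply]; norm_num
      have e2 : (1/2 : ℚ) ≤ (tau ^ n) (1/2) := by
        have := tau_pow_half_mono (Nat.zero_le n); simpa using this
      have e3 := (au_le AS).2 e2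
      rw [e1]
      rw [AS_apply (1/2)] at e3
      norm_num at e3 ⊢
      exact e3

/-! ### Definable relations -/

open Sum

/-- `P` is defined by a finite system of equations: solvable inside `FF` for every tuple in `P`, and
every solution in `GG` comes from a tuple in `P`. -/
def Def {α : Type} (P : (α → ℕ) → Prop) : Prop :=
  ∃ (β : Type) (_ : Finite β) (C : (α ⊕ β → Au) → Prop), Cond C ∧
    (∀ n, P n → ∃ y : β → Au, (∀ b, y b ∈ FF) ∧ C (Sum.elim (fun a => ss ^ n a) y)) ∧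
    (∀ v : α ⊕ β → Au, (∀ i, v i ∈ GG) → C v → ∃ n, P n ∧ ∀ a, v (inl a) = ss ^ n a)

namespace Def

variable {α γ : Type} {P Q : (α → ℕ) → Prop}

lemma of_iff (h : Def P) (h' : ∀ v, P v ↔ Q v) : Def Q := by
  have : P = Q := funext fun v => propext (h' v)
  rwa [← this]

lemma and (hP : Def P) (hQ : Def Q) : Def (fun v => P v ∧ Q v) := by
  obtain ⟨β₁, _, C₁, h₁, c₁, s₁⟩ := hP
  obtain ⟨β₂, _, C₂, h₂, c₂, s₂⟩ := hQ
  refine ⟨β₁ ⊕ β₂, inferInstance,
    fun v => C₁ (fun i => v (Sum.map id inl i)) ∧ C₂ (fun i => v (Sum.map id inr i)),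
    (h₁.comp _).and (h₂.comp _), ?_, ?_⟩
  · rintro n ⟨hp, hq⟩
    obtain ⟨y₁, m₁, e₁⟩ := c₁ n hp
    obtain ⟨y₂, m₂, e₂⟩ := c₂ n hq
    refine ⟨Sum.elim y₁ y₂, ?_, ?_, ?_⟩
    · rintro (b | b)
      · exact m₁ b
      · exact m₂ b
    · convert e₁ using 1
      funext i; rcases i with i | i <;> rfl
    · convert e₂ using 1
      funext i; rcases i with i | i <;> rfl
  · rintro v hv ⟨h1, h2⟩
    obtain ⟨n, hn, e⟩ := s₁ _ (fun i => hv _) h1
    obtain ⟨n', hn', e'⟩ := s₂ _ (fun i => hv _) h2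
    have : n = n' := by
      funext a
      apply ss_pow_injective
      simp only
      rw [← e a, ← e' a]; rfl
    subst this
    exact ⟨n, ⟨hn, hn'⟩, e⟩

lemma rename [Finite γ] (hP : Def P) (f : α → γ) : Def (fun v : γ → ℕ => P (fun a => v (f a))) := by
  obtain ⟨β, _, C, h, c, s⟩ := hP
  refine ⟨β, inferInstance,
    fun v => C (fun i => v (Sum.map f id i)) ∧ ∀ g : γ, MemC (v (inl g)),
    (h.comp _).and (Cond.all fun g => cond_MemC (Term.var (inl g))), ?_, ?_⟩
  · rintro n hn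
    obtain ⟨y, m, e⟩ := c _ hn
    refine ⟨y, m, ?_, fun g => (MemC_iff (FF_le_GG (FF.pow_mem ss_mem _))).2 ⟨n g, rfl⟩⟩
    convert e using 1
    funext i; rcases i with i | i <;> rfl
  · rintro v hv ⟨h1, h2⟩
    obtain ⟨n, hn, e⟩ := s _ (fun i => hv _) h1
    have h3 : ∀ g, ∃ m : ℕ, v (inl g) = ss ^ m := fun g => (MemC_iff (hv _)).1 (h2 g)
    choose m hm using h3
    refine ⟨m, ?_, hm⟩
    have : (fun a => m (f a)) = n := by
      funext a
      apply ss_pow_injective
      simp only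
      rw [← e a, ← hm (f a)]; rfl
    beta_reduce
    rw [this]; exact hn

lemma ex {P : (α ⊕ γ → ℕ) → Prop} [Finite γ] (hP : Def P) :
    Def (fun v : α → ℕ => ∃ u : γ → ℕ, P (Sum.elim v u)) := by
  obtain ⟨β, _, C, h, c, s⟩ := hP
  refine ⟨γ ⊕ β, inferInstance, fun v => C (fun i => v ((Equiv.sumAssoc α γ β) i)), h.comp _, ?_, ?_⟩
  · rintro n ⟨u, hu⟩
    obtain ⟨y, m, e⟩ := c _ hu
    refine ⟨Sum.elim (fun g => ss ^ u g) y, ?_, ?_⟩
    · rintro (g | b)
      · exact FF.pow_mem ss_mem _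
      · exact m b
    · convert e using 1
      funext i; rcases i with (i | i) | i <;> rfl
  · rintro v hv h1
    obtain ⟨n, hn, e⟩ := s _ (fun i => hv _) h1
    refine ⟨fun a => n (inl a), ⟨fun g => n (inr g), ?_⟩, fun a => e (inl a)⟩
    convert hn using 1
    funext i; rcases i with i | i <;> rfl

/-- Affine relation `v i = m * v j + c`. -/
lemma aff [Finite α] (i j : α) (m c : ℕ) : Def (fun v : α → ℕ => v i = m * v j + c) := by
  refine ⟨Empty, inferInstance,
    fun v => v (inl i) = v (inl j) ^ m * ss ^ c ∧ ∀ a : α, MemC (v (inl a)),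
    (Cond.eq (Term.var _) (((Term.var _).pow m).mul (Term.const (FF.pow_mem ss_mem c)))).and
      (Cond.all fun a => cond_MemC (Term.var (inl a))), ?_, ?_⟩
  · intro n hn
    refine ⟨fun b => b.elim, fun b => b.elim, ?_, fun a =>
      (MemC_iff (FF_le_GG (FF.pow_mem ss_mem _))).2 ⟨n a, rfl⟩⟩
    simp only [Sum.elim_inl]
    rw [hn, ← pow_mul, ← pow_add, mul_comm m]
  · rintro v hv ⟨h1, h2⟩
    have h3 : ∀ g, ∃ m : ℕ, v (inl g) = ss ^ m := fun g => (MemC_iff (hv _)).1 (h2 g)
    choose n hn using h3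
    refine ⟨n, ?_, hn⟩
    rw [hn, hn, ← pow_mul, ← pow_add] at h1
    rw [mul_comm m]
    exact ss_pow_injective h1

/-- Constant relation `v i = c`. -/
lemma cst [Finite α] (i : α) (c : ℕ) : Def (fun v : α → ℕ => v i = c) :=
  (aff i i 0 c).of_iff (fun v => by simp)

/-- The relation `v i + v j = 1`. -/
lemma addOne [Finite α] (i j : α) : Def (fun v : α → ℕ => v i + v j = 1) := by
  refine ⟨Empty, inferInstance,
    fun v => v (inl i) * v (inl j) = ss ∧ ∀ a : α, MemC (v (inl a)),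
    (Cond.eq ((Term.var _).mul (Term.var _)) (Term.const ss_mem)).and
      (Cond.all fun a => cond_MemC (Term.var (inl a))), ?_, ?_⟩
  · intro n hn
    refine ⟨fun b => b.elim, fun b => b.elim, ?_, fun a =>
      (MemC_iff (FF_le_GG (FF.pow_mem ss_mem _))).2 ⟨n a, rfl⟩⟩
    simp only [Sum.elim_inl]
    rw [← pow_add, hn, pow_one]
  · rintro v hv ⟨h1, h2⟩
    have h3 : ∀ g, ∃ m : ℕ, v (inl g) = ss ^ m := fun g => (MemC_iff (hv _)).1 (h2 g)
    choose n hn using h3
    refine ⟨n, ?_, hn⟩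
    rw [hn, hn, ← pow_add] at h1
    exact ss_pow_injective (h1.trans (pow_one ss).symm)

lemma false : Def (fun _ : α → ℕ => False) := by
  refine ⟨Empty, inferInstance, fun v => ss = 1, Cond.eq (Term.const ss_mem) (Term.const FF.one_mem),
    fun n hn => hn.elim, fun v _ h => ?_⟩
  exfalso
  have := ss_pow_injective (a₁ := 1) (a₂ := 0) (by simpa using h)
  omega

lemma all {ι : Type} [Finite ι] [Finite α] {P : ι → (α → ℕ) → Prop} (h : ∀ i, Def (P i)) :
    Def (fun v => ∀ i, P i v) := by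
  classical
  choose β hβ C hC c s using h
  refine ⟨(Σ i, β i), inferInstance,
    fun v => (∀ i, C i (fun x => v (Sum.map id (fun b => ⟨i, b⟩) x))) ∧ ∀ a : α, MemC (v (inl a)),
    (Cond.all fun i => (hC i).comp _).and (Cond.all fun a => cond_MemC (Term.var (inl a))), ?_, ?_⟩
  · intro n hn
    have := fun i => c i n (hn i)
    choose y hy e using this
    refine ⟨fun b => y b.1 b.2, fun b => hy b.1 b.2, fun i => ?_, fun a =>
      (MemC_iff (FF_le_GG (FF.pow_mem ss_mem _))).2 ⟨n a, rfl⟩⟩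
    convert e i using 1
    funext x; rcases x with x | x <;> rfl
  · rintro v hv ⟨h1, h2⟩
    have h3 : ∀ g, ∃ m : ℕ, v (inl g) = ss ^ m := fun g => (MemC_iff (hv _)).1 (h2 g)
    choose n hn using h3
    refine ⟨n, fun i => ?_, hn⟩
    obtain ⟨m, hm, e⟩ := s i _ (fun x => hv _) (h1 i)
    have : n = m := by
      funext a
      apply ss_pow_injective
      simp only
      rw [← e a, ← hn a]; rfl
    rw [this]; exact hm

end Def

end Pool.Agent.Helper48.Thompson
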