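import Mathlib
import Pool.Agent.Helper48.Thompson.Systems

/-!
# Closure of definable relations under reflexive transitive closure
-/

set_option autoImplicit false

namespace Pool.Agent.Helper48.Thompson

open Sum

lemma loc_lift {ι : Type} (A : Au) (f : ι → Au) (h : ∀ i, St A (f i)) (w : FreeGroup ι) :
    St A (FreeGroup.lift f w) ∧
      loc A (FreeGroup.lift f w) = FreeGroup.lift (fun i => loc A (f i)) w := by
  induction w using FreeGroup.induction_on with
  | C1 => simp only [map_one]; exact ⟨St.one A, loc_one A⟩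
  | of i => simp only [FreeGroup.lift_apply_of]; exact ⟨h i, trivial⟩
  | inv_of i ih =>
    simp only [map_inv]
    exact ⟨ih.1.inv, by rw [loc_inv ih.1, ih.2]⟩
  | mul x y hx hy =>
    simp only [map_mul]
    exact ⟨hx.1.mul hy.1, by rw [loc_mul hx.1 hy.1, hx.2, hy.2]⟩

lemma lift_sup {ι : Type} (f : ι → Au) (h : ∀ i, Sup 0 1 (f i)) (w : FreeGroup ι) :
    Sup 0 1 (FreeGroup.lift f w) := by
  induction w using FreeGroup.induction_on with
  | C1 => simp only [map_one]; exact Sup.one 0 1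
  | of i => simp only [FreeGroup.lift_apply_of]; exact h i
  | inv_of i ih => simp only [map_inv]; exact ih.inv
  | mul x y hx hy => simp only [map_mul]; exact hx.mul hy

lemma lift_spr {ι : Type} {A : Au} (hA : Zone A) (F : ι → ℕ → Au)
    (hF : ∀ i j, Sup 0 1 (F i j)) (N : ℕ) (w : FreeGroup ι) :
    FreeGroup.lift (fun i => spr A (F i) N) w =
      spr A (fun j => FreeGroup.lift (fun i => F i j) w) N := by
  induction w using FreeGroup.induction_on with
  | C1 => simp only [map_one]; exact (spr_one N).symm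
  | of i => simp only [FreeGroup.lift_apply_of]
  | inv_of i ih =>
    simp only [map_inv]
    rw [ih, spr_inv hA (fun j => lift_sup _ (fun i => hF i j) _)]
  | mul x y hx hy =>
    simp only [map_mul]
    rw [hx, hy, spr_mul hA (fun j => lift_sup _ (fun i => hF i j) _)
      (fun j => lift_sup _ (fun i => hF i j) _)]

lemma piece_AD {g : Au} (hg : Sup 0 1 g) (N : ℕ) :
    Sup ((tau ^ N) (1/2)) ((tau ^ N) (5/8)) (cj (tau ^ N * AD) g) := by
  have h := hg.cj (tau ^ N * AD)
  rw [au_mul, au_mul, AD_apply, AD_apply, show (1/2 + 0/8 : ℚ) = 1/2 by norm_num,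
    show (1/2 + 1/8 : ℚ) = 5/8 by norm_num] at h
  exact h

lemma piece_AE {g : Au} (hg : Sup 0 1 g) (N : ℕ) :
    Sup ((tau ^ N) (5/8)) ((tau ^ N) (3/4)) (cj (tau ^ N * AE) g) := by
  have h := hg.cj (tau ^ N * AE)
  rw [au_mul, au_mul, AE_apply, AE_apply, show (5/8 + 0/8 : ℚ) = 5/8 by norm_num,
    show (5/8 + 1/8 : ℚ) = 3/4 by norm_num] at h
  exact h

lemma pieces_comm {g h : Au} (hg : Sup 0 1 g) (hh : Sup 0 1 h) (i j : ℕ) :
    cj (tau ^ i * AD) g * cj (tau ^ j * AE) h = cj (tau ^ j * AE) h * cj (tau ^ i * AD) g := by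
  rcases le_or_gt i j with hij | hij
  · refine (piece_AD hg i).commute (piece_AE hh j) ?_
    rcases eq_or_lt_of_le hij with rfl | hij
    · exact le_rfl
    · have h1 : (tau ^ i) (5/8) < (tau ^ i) (3/4) := pow_lt_pow_apply (by norm_num)
      rw [← tau_pow_succ_half] at h1
      have h2 := tau_pow_half_mono (show i + 1 ≤ j from hij)
      have h3 : (tau ^ j) (1/2) < (tau ^ j) (5/8) := pow_lt_pow_apply (by norm_num)
      linarith
  · refine ((piece_AE hh j).commute (piece_AD hg i) ?_).symm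
    rw [← tau_pow_succ_half]
    exact tau_pow_half_mono hij

lemma spr_comm {s s' : ℕ → Au} (hs : ∀ j, Sup 0 1 (s j)) (hs' : ∀ j, Sup 0 1 (s' j)) (N M : ℕ) :
    spr AD s N * spr AE s' M = spr AE s' M * spr AD s N := by
  have h1 : ∀ i M, Commute (cj (tau ^ i * AD) (s i)) (spr AE s' M) := by
    intro i M
    induction M with
    | zero => exact Commute.one_right _
    | succ M ih => exact ih.mul_right (pieces_comm (hs i) (hs' M) i M)
  have h2 : Commute (spr AD s N) (spr AE s' M) := by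
    induction N with
    | zero => exact Commute.one_left _
    | succ N ih => exact ih.mul_left (h1 N M)
  exact h2

/-- The element realising `ι_D` on the number encodings. -/
def gg : Au := X1 * X1 * tau * X1

lemma gg_mem : gg ∈ FF :=
  FF.mul_mem (FF.mul_mem (FF.mul_mem X1_mem X1_mem) tau_mem) X1_mem

lemma X1_apply (t : ℚ) : X1 t = (1 + X0 (2 * t - 1)) / 2 := by
  rw [X1, cj_apply, A1_apply, A1_inv_apply]

lemma gg_AS {t : ℚ} (h0 : 0 ≤ t) (h1 : t ≤ 1) : gg (AS t) = AD (AS t) := by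
  simp only [gg, au_mul]
  rw [AS_apply]
  have e1 : X1 (1/2 + t/4) = 1/2 + t/8 := by
    rw [X1_apply, X0_2 (by linarith) (by linarith)]; ring
  have e2 : tau (1/2 + t/8) = 3/4 + t/16 := by
    rw [tau_4 (by linarith) (by linarith)]; ring
  have e3 : X1 (3/4 + t/16) = 5/8 + t/16 := by
    rw [X1_apply, X0_3 (by linarith) (by linarith)]; ring
  have e4 : X1 (5/8 + t/16) = 9/16 + t/32 := by
    rw [X1_apply, X0_2 (by linarith) (by linarith)]; ring
  rw [e1, e2, e3, e4, AD_apply]; ring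

lemma cj_gg (n : ℕ) : cj gg (ss ^ n) = cj AD (ss ^ n) := by
  rw [ss_pow, cj_cj, cj_cj]
  exact (sup_tau.pow n).cj_congr (fun t h0 h1 => by rw [au_mul, au_mul, gg_AS h0 h1])

lemma chain_iff {X : Type} {R : X → X → Prop} {u w : X} :
    Relation.ReflTransGen R u w ↔
      ∃ (N : ℕ) (f : ℕ → X), f 0 = u ∧ f N = w ∧ ∀ j < N, R (f j) (f (j + 1)) := by
  constructor
  · intro h
    induction h with
    | refl => exact ⟨0, fun _ => u, rfl, rfl, fun j hj => absurd hj (by omega)⟩
    | @tail b c _ hbc ih =>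
      obtain ⟨N, f, h0, hN, hf⟩ := ih
      refine ⟨N + 1, fun j => if j ≤ N then f j else c, by simp [h0], by simp, fun j hj => ?_⟩
      rcases Nat.lt_or_ge j N with h | h
      · simp only [if_pos h.le, if_pos (Nat.succ_le_of_lt h)]
        exact hf j h
      · have : j = N := by omega
        subst this
        simp only [le_refl, if_true, hN]
        rw [if_neg (by omega)]
        exact hbc
  · rintro ⟨N, f, rfl, rfl, hf⟩
    induction N with
    | zero => exact Relation.ReflTransGen.refl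
    | succ N ih => exact (ih (fun j hj => hf j (by omega))).tail (hf N (by omega))

section
variable {α β : Type}

/-- The system defining the reflexive transitive closure. -/
def StarC (L : List (FreeGroup (Bool ⊕ ((α ⊕ α) ⊕ β)))) (x : α ⊕ α → Au)
    (V : (α ⊕ α) ⊕ β → Au) (C : Bool → Au) (T B : Au) : Prop :=
  (T * tau = tau * T ∧ Ge T) ∧
  (∀ b, cj tau (C b) * cj AD (gens b) = C b * cj T (cj AD (gens b)) ∧ (Ge (C b) ∧ Le (C b))) ∧
  (cj tau B * cj AE tau = B * cj T (cj AE tau) ∧ (Ge B ∧ Le B)) ∧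
  (∀ i, (V i * al = al * V i ∧ Fixes X0 (V i)) ∧
    (V i * cj T be = cj T be * V i ∧ Fixes (T * tau) (V i)) ∧
    (((C false)⁻¹ * cj T (cj AD tau)) * cj (V i) B = cj (V i) B * ((C false)⁻¹ * cj T (cj AD tau)) ∧
      cj (V i) ((C false)⁻¹ * cj T (cj AD tau)) * B =
        B * cj (V i) ((C false)⁻¹ * cj T (cj AD tau)))) ∧
  (∀ u ∈ L, FreeGroup.lift (Sum.elim (fun b => C b) (fun i => V i)) u = 1) ∧
  (∀ a, cj tau (V (inl (inr a))) * cj gg (x (inl a)) =
    V (inl (inl a)) * cj T (cj gg (x (inr a)))) ∧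
  (∀ a, MemC (x a))

lemma GG_conds {C : Au} (hC : C ∈ GG) (h : Ge C ∧ Le C) : C (1/2) = 1/2 :=
  le_antisymm ((Le_iff hC.2.map_left).1 h.2) ((Ge_iff hC.2.map_left hC.2.map_right).1 h.1)

lemma gens_GG (b : Bool) : gens b ∈ GG := FF_le_GG (gens_mem b)

lemma tau_pow_one (j : ℕ) : (tau ^ j) 1 = 1 := (sup_tau.pow j).map_right

lemma zone_pt (j : ℕ) : (tau ^ j * AD) 0 = (tau ^ j) (1/2) ∧ (tau ^ j * AD) 1 = (tau ^ j) (5/8) := by
  constructor
  · rw [au_mul, AD_apply]; norm_num
  · rw [au_mul, AD_apply]; norm_num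

theorem star_sound {R : (α → ℕ) → (α → ℕ) → Prop}
    {L : List (FreeGroup (Bool ⊕ ((α ⊕ α) ⊕ β)))}
    (hL : ∀ v : (α ⊕ α) ⊕ β → Au, (∀ i, v i ∈ GG) → (∀ w ∈ L, ev v w = 1) →
      ∃ n : α ⊕ α → ℕ, R (fun a => n (inl a)) (fun a => n (inr a)) ∧ ∀ a, v (inl a) = ss ^ n a)
    {x : α ⊕ α → Au} {V : (α ⊕ α) ⊕ β → Au} {C : Bool → Au} {T B : Au}
    (hx : ∀ a, x a ∈ GG) (hV : ∀ i, V i ∈ GG) (hC : ∀ b, C b ∈ GG) (hT : T ∈ GG) (hB : B ∈ GG)
    (h : StarC L x V C T B) :
    ∃ n : α ⊕ α → ℕ, Relation.ReflTransGen R (fun a => n (inl a)) (fun a => n (inr a)) ∧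
      ∀ a, x a = ss ^ n a := by
  obtain ⟨⟨hT1, hT2⟩, hC1, ⟨hB1, hB2⟩, hV1, hL1, hlink, hx1⟩ := h
  -- the number of steps
  obtain ⟨N, rfl⟩ : ∃ N : ℕ, T = tau ^ N := by
    obtain ⟨k, rfl⟩ := centralizer_tau hT hT1
    rw [Ge_iff hT.2.map_left hT.2.map_right] at hT2
    obtain ⟨N, rfl⟩ := tau_zpow_nonneg_of_half hT2
    exact ⟨N, by rw [zpow_natCast]⟩
  -- the spread constants
  have hC2 : ∀ b, C b = spr AD (fun _ => gens b) N := fun b =>
    spr_unique zone_AD AD_germ (gens_GG b) (hC b) N (hC1 b).1 (GG_conds (hC b) (hC1 b).2)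
  have hB3 : B = spr AE (fun _ => tau) N :=
    spr_unique zone_AE AE_germ tau_GG hB N hB1 (GG_conds hB hB2)
  have ha : (C false)⁻¹ * cj (tau ^ N) (cj AD tau) = spr AD (fun _ => tau) (N + 1) := by
    have h1 := spr_inv zone_AD (s := fun _ => gens false) (fun _ => sup_X0) N
    have h2 : (fun _ : ℕ => (gens false)⁻¹) = fun _ => tau := by
      funext _; show X0⁻¹ = tau; rw [X0, inv_inv]
    rw [h2] at h1
    rw [hC2, ← h1, spr, cj_cj]
  -- zones
  have hV2 : ∀ i, (∀ t, t ≤ 1/2 → V i t = t) ∧ (∀ t, (tau ^ N) (1/2) ≤ t → V i t = t) ∧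
      (∀ j < N, St (tau ^ j * AD) (V i)) := by
    intro i
    obtain ⟨⟨h1, h2⟩, ⟨h3, h4⟩, h5, h6⟩ := hV1 i
    rw [Fixes_iff sup_X0 (hV i).2, X0_half] at h2
    rw [Fixes_iff ((sup_tau.pow N).mul sup_tau) (hV i).2, au_mul, tau_half] at h4
    have e1 := triv_left (hV i) h1 h2
    have e2 := triv_right N (hV i) h3 h4
    rw [ha, hB3] at h5 h6
    have e3 := zones_preserved (e1 _ le_rfl) h5 h6
    refine ⟨e1, e2, fun j hj => ?_⟩
    rw [St, (zone_pt j).1, (zone_pt j).2]
    exact ⟨e3.1 j hj.le, e3.2 j hj⟩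
  -- local solutions
  have hloc : ∀ j, ∃ n : α ⊕ α → ℕ, j < N → (R (fun a => n (inl a)) (fun a => n (inr a)) ∧
      ∀ a, loc (tau ^ j * AD) (V (inl a)) = ss ^ n a) := by
    intro j
    by_cases hj : j < N
    · have hg : tau ^ j * AD ∈ Germ := Germ.mul_mem (Germ.pow_mem tau_germ j) AD_germ
      have key := hL (fun i => loc (tau ^ j * AD) (V i)) (fun i => loc_GG hg (hV i).1) ?_
      · obtain ⟨n, hn⟩ := key
        exact ⟨n, fun _ => hn⟩
      · intro w hw
        have h1 := loc_lift (tau ^ j * AD) (Sum.elim (fun b => C b) (fun i => V i)) (by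
          rintro (b | i)
          · show St _ (C b)
            rw [hC2 b]
            exact (loc_spr zone_AD (fun _ => (gens_GG b).2) N j).1
          · exact (hV2 i).2.2 j hj) w
        rw [hL1 w hw, loc_one] at h1
        rw [ev, h1.2]
        congr 1
        congr 1
        funext i
        rcases i with b | i
        · show gens b = loc _ (C b)
          rw [hC2 b, (loc_spr zone_AD (fun _ => (gens_GG b).2) N j).2, if_pos hj]
        · rfl
    · exact ⟨fun _ => 0, fun h => absurd h hj⟩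
  choose n hn using hloc
  -- the end points
  have hx2 : ∀ a, ∃ m : ℕ, x a = ss ^ m := fun a => (MemC_iff (hx a)).1 (hx1 a)
  choose m hm using hx2
  refine ⟨m, ?_, hm⟩
  rw [chain_iff]
  -- consequences of the link equation
  have hlink' : ∀ a, cj tau (V (inl (inr a))) * cj AD (ss ^ m (inl a)) =
      V (inl (inl a)) * cj (tau ^ N) (cj AD (ss ^ m (inr a))) := by
    intro a
    have := hlink a
    rwa [hm, hm, cj_gg, cj_gg] at this
  -- localisation of the constants in the link equation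
  have hfixL : ∀ j i, j ≤ N → N ≤ j → St (tau ^ j * AD) (V i) ∧ loc (tau ^ j * AD) (V i) = 1 := by
    intro j i h1 h2
    have : j = N := le_antisymm h1 h2
    subst this
    have hst : St (tau ^ j * AD) (V i) := by
      rw [St, (zone_pt j).1, (zone_pt j).2]
      exact ⟨(hV2 i).2.1 _ le_rfl, (hV2 i).2.1 _ (pow_lt_pow_apply (by norm_num)).le⟩
    refine ⟨hst, loc_unique (Sup.one 0 1) hst (fun t h0 _ => ?_)⟩
    rw [au_one]
    refine ((hV2 i).2.1 _ ?_).symm
    rw [← (zone_pt j).1]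
    exact (au_le _).2 h0
  have hst0 : ∀ i, St (tau ^ 0 * AD) (cj tau (V i)) ∧ loc (tau ^ 0 * AD) (cj tau (V i)) = 1 := by
    intro i
    have hfix : ∀ t, t ≤ 3/4 → cj tau (V i) t = t := by
      intro t ht
      rw [cj_apply, (hV2 i).1, au_self_inv]
      rw [au_inv_le, tau_half]; exact ht
    have e : ∀ t, (tau ^ 0 * AD) t = 1/2 + t/8 := fun t => by rw [pow_zero, one_mul, AD_apply]
    have hst : St (tau ^ 0 * AD) (cj tau (V i)) := by
      rw [St, e, e]
      exact ⟨hfix _ (by norm_num), hfix _ (by norm_num)⟩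
    refine ⟨hst, loc_unique (Sup.one 0 1) hst (fun t _ h1 => ?_)⟩
    rw [au_one, e]
    exact (hfix _ (by linarith)).symm
  have hpiece : ∀ (j k : ℕ) (q : ℕ), St (tau ^ j * AD) (cj (tau ^ k * AD) (ss ^ q)) ∧
      loc (tau ^ j * AD) (cj (tau ^ k * AD) (ss ^ q)) = if j = k then ss ^ q else 1 := by
    intro j k q
    have hs := ss_pow_sup01 q
    rcases lt_trichotomy j k with h | h | h
    · have hd : (tau ^ j * AD) 1 ≤ (tau ^ k) (1/2) := by
        rw [(zone_pt j).2]
        have h1 : (tau ^ j) (5/8) < (tau ^ j) (3/4) := pow_lt_pow_apply (by norm_num)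
        rw [← tau_pow_succ_half] at h1
        exact h1.le.trans (tau_pow_half_mono h)
      rw [if_neg (by omega)]
      exact ⟨St.of_sup (piece_AD hs k) (Or.inl hd), loc_of_disjoint (piece_AD hs k) (Or.inl hd)⟩
    · subst h
      rw [if_pos rfl]
      refine ⟨⟨?_, ?_⟩, loc_cj hs⟩
      · rw [cj_apply', hs.map_left]
      · rw [cj_apply', hs.map_right]
    · have hd : (tau ^ k) (5/8) ≤ (tau ^ j * AD) 0 := by
        rw [(zone_pt j).1]
        have h1 : (tau ^ k) (5/8) < (tau ^ k) (3/4) := pow_lt_pow_apply (by norm_num)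
        rw [← tau_pow_succ_half] at h1
        exact h1.le.trans (tau_pow_half_mono h)
      rw [if_neg (by omega)]
      exact ⟨St.of_sup (piece_AD hs k) (Or.inr hd), loc_of_disjoint (piece_AD hs k) (Or.inr hd)⟩
  have hlink2 : ∀ a, cj tau (V (inl (inr a))) * cj (tau ^ 0 * AD) (ss ^ m (inl a)) =
      V (inl (inl a)) * cj (tau ^ N * AD) (ss ^ m (inr a)) := by
    intro a
    rw [pow_zero, one_mul, ← cj_cj (tau ^ N) AD]
    exact hlink' a
  refine ⟨N, fun j a => if j < N then n j (inl a) else m (inr a), ?_, ?_, ?_⟩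
  · -- start
    funext a
    apply ss_pow_injective
    simp only
    have h1 := congrArg (loc (tau ^ 0 * AD)) (hlink2 a)
    rw [loc_mul (hst0 _).1 (hpiece 0 0 _).1, (hst0 _).2, (hpiece 0 0 _).2, if_pos rfl, one_mul] at h1
    rcases Nat.eq_zero_or_pos N with h0 | h0
    · rw [if_neg (by omega), h1]
      rw [loc_mul (hfixL 0 _ (by omega) (by omega)).1 (hpiece 0 N _).1,
        (hfixL 0 _ (by omega) (by omega)).2, (hpiece 0 N _).2, if_pos h0.symm, one_mul]
    · rw [if_pos h0, h1, loc_mul ((hV2 _).2.2 0 h0) (hpiece 0 N _).1, (hpiece 0 N _).2,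
        if_neg (by omega), mul_one]
      exact ((hn 0 h0).2 (inl a)).symm
  · funext a
    show (if N < N then n N (inl a) else m (inr a)) = m (inr a)
    rw [if_neg (lt_irrefl N)]
  · intro j hj
    have h2 := (hn j hj).1
    have e1 : (fun a => if j < N then n j (inl a) else m (inr a)) = fun a => n j (inl a) := by
      funext a; rw [if_pos hj]
    have e2 : (fun a => if j + 1 < N then n (j + 1) (inl a) else m (inr a)) =
        fun a => n j (inr a) := by
      funext a
      apply ss_pow_injective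
      simp only
      have h1 := congrArg (loc (tau ^ (j + 1) * AD)) (hlink2 a)
      have hst1 : St (tau ^ (j + 1) * AD) (cj tau (V (inl (inr a)))) ∧
          loc (tau ^ (j + 1) * AD) (cj tau (V (inl (inr a)))) = ss ^ n j (inr a) := by
        have e3 : tau ^ (j + 1) * AD = tau * (tau ^ j * AD) := by rw [pow_succ' tau j, mul_assoc]
        rw [e3]
        exact ⟨((hV2 _).2.2 j hj).cj, by rw [loc_conj ((hV2 _).2.2 j hj), (hn j hj).2 (inr a)]⟩
      rw [loc_mul hst1.1 (hpiece (j + 1) 0 _).1, hst1.2, (hpiece (j + 1) 0 _).2,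
        if_neg (by omega), mul_one] at h1
      rw [h1]
      rcases Nat.lt_or_ge (j + 1) N with h3 | h3
      · rw [if_pos h3, loc_mul ((hV2 _).2.2 _ h3) (hpiece _ N _).1, (hpiece _ N _).2,
          if_neg (by omega), mul_one]
        exact ((hn _ h3).2 (inl a)).symm
      · rw [if_neg (by omega), loc_mul (hfixL _ _ hj h3).1 (hpiece _ N _).1,
          (hfixL _ _ hj h3).2, (hpiece _ N _).2, if_pos (le_antisymm hj h3), one_mul]
    show R (fun a => if j < N then n j (inl a) else m (inr a))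
      (fun a => if j + 1 < N then n (j + 1) (inl a) else m (inr a))
    rw [e1, e2]
    exact h2

theorem star_complete {R : (α → ℕ) → (α → ℕ) → Prop}
    {L : List (FreeGroup (Bool ⊕ ((α ⊕ α) ⊕ β)))}
    (hL : ∀ n : α ⊕ α → ℕ, R (fun a => n (inl a)) (fun a => n (inr a)) →
      ∃ y : β → Au, (∀ b, y b ∈ FF) ∧
        ∀ w ∈ L, ev (Sum.elim (fun a => ss ^ n a) y) w = 1)
    (n : α ⊕ α → ℕ) (h : Relation.ReflTransGen R (fun a => n (inl a)) (fun a => n (inr a))) :
    ∃ (V : (α ⊕ α) ⊕ β → Au) (C : Bool → Au) (T B : Au), (∀ i, V i ∈ FF) ∧ (∀ b, C b ∈ FF) ∧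
      T ∈ FF ∧ B ∈ FF ∧ StarC L (fun a => ss ^ n a) V C T B := by
  classical
  rw [chain_iff] at h
  obtain ⟨N, f, hf0, hfN, hf⟩ := h
  have hy : ∀ j, ∃ y : β → Au, (∀ b, y b ∈ FF) ∧ (j < N → ∀ w ∈ L,
      ev (Sum.elim (fun a => ss ^ (Sum.elim (f j) (f (j + 1))) a) y) w = 1) := by
    intro j
    by_cases hj : j < N
    · obtain ⟨y, h1, h2⟩ := hL (Sum.elim (f j) (f (j + 1))) (hf j hj)
      exact ⟨y, h1, fun _ => h2⟩
    · exact ⟨fun _ => 1, fun _ => FF.one_mem, fun h => absurd h hj⟩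
  choose y hyF hyL using hy
  -- the sequences
  let s : (α ⊕ α) ⊕ β → ℕ → Au := fun i j =>
    Sum.elim (fun a => ss ^ (Sum.elim (f j) (f (j + 1))) a) (y j) i
  have hsF : ∀ i j, s i j ∈ FF := by
    rintro (a | b) j
    · exact FF.pow_mem ss_mem _
    · exact hyF j b
  have hsS : ∀ i j, Sup 0 1 (s i j) := fun i j => sup01_of_mem (hsF i j)
  let V : (α ⊕ α) ⊕ β → Au := fun i => spr AD (s i) N
  let C : Bool → Au := fun b => spr AD (fun _ => gens b) N
  have hgS : ∀ b, Sup 0 1 (gens b) := fun b => (gens_GG b).2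
  have hVF : ∀ i, V i ∈ FF := fun i => spr_mem (fun g hg => cj_AD_mem hg) (hsF i) N
  have hCF : ∀ b, C b ∈ FF := fun b => spr_mem (fun g hg => cj_AD_mem hg) (fun _ => gens_mem b) N
  have hTF : tau ^ N ∈ FF := FF.pow_mem tau_mem N
  have hBF : spr AE (fun _ => tau) N ∈ FF :=
    spr_mem (fun g hg => cj_AE_mem hg) (fun _ => tau_mem) N
  have ha : (C false)⁻¹ * cj (tau ^ N) (cj AD tau) = spr AD (fun _ => tau) (N + 1) := by
    have h1 := spr_inv zone_AD (s := fun _ => gens false) (fun _ => sup_X0) N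
    have h2 : (fun _ : ℕ => (gens false)⁻¹) = fun _ => tau := by
      funext _; show X0⁻¹ = tau; rw [X0, inv_inv]
    rw [h2] at h1
    show (spr AD (fun _ => gens false) N)⁻¹ * _ = _
    rw [← h1, spr, cj_cj]
  have hhalf : ∀ {W : Au}, Sup 0 1 W → W (1/2) = 1/2 → Ge W ∧ Le W := fun {W} hW h =>
    ⟨(Ge_iff hW.map_left hW.map_right).2 h.ge, (Le_iff hW.map_left).2 h.le⟩
  refine ⟨V, C, tau ^ N, spr AE (fun _ => tau) N, hVF, hCF, hTF, hBF, ?_, ?_, ?_, ?_, ?_, ?_, ?_⟩
  · refine ⟨(Commute.pow_self tau N), ?_⟩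
    rw [Ge_iff (sup_tau.pow N).map_left (sup_tau.pow N).map_right]
    have := tau_pow_half_mono (Nat.zero_le N); simpa using this
  · intro b
    exact ⟨spr_const_eqn zone_AD (hgS b) N,
      hhalf (spr_sup01 zone_AD (fun _ => hgS b) N) (spr_sup zone_AD (fun _ => hgS b) N).map_left⟩
  · exact ⟨spr_const_eqn zone_AE sup_tau N,
      hhalf (spr_sup01 zone_AE (fun _ => sup_tau) N) (spr_sup zone_AE (fun _ => sup_tau) N).map_left⟩
  · intro i
    have hsup := spr_sup zone_AD (hsS i) N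
    have hs01 := spr_sup01 zone_AD (hsS i) N
    have hcomm : ∀ M, cj (V i) (spr AE (fun _ => tau) M) = spr AE (fun _ => tau) M := by
      intro M
      show spr AD (s i) N * spr AE (fun _ => tau) M * (spr AD (s i) N)⁻¹ = _
      rw [spr_comm (hsS i) (fun _ => sup_tau) N M]; group
    refine ⟨⟨(al_sup.commute hsup le_rfl).symm, ?_⟩, ⟨?_, ?_⟩, ?_, ?_⟩
    · rw [Fixes_iff sup_X0 hs01, X0_half]
      exact hsup _ (by rintro ⟨h, -⟩; norm_num at h)
    · exact hsup.commute (be_sup.cj (tau ^ N)) le_rfl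
    · rw [Fixes_iff ((sup_tau.pow N).mul sup_tau) hs01, au_mul, tau_half]
      refine hsup _ ?_
      rintro ⟨-, h⟩
      have : (tau ^ N) (1/2) < (tau ^ N) (3/4) := pow_lt_pow_apply (by norm_num)
      linarith
    · rw [ha, hcomm]
      exact spr_comm (fun _ => sup_tau) (fun _ => sup_tau) (N + 1) N
    · rw [ha]
      have h1 : cj (V i) (spr AD (fun _ => tau) (N + 1)) * cj (V i) (spr AE (fun _ => tau) N) =
          cj (V i) (spr AE (fun _ => tau) N) * cj (V i) (spr AD (fun _ => tau) (N + 1)) := by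
        rw [← cj_mul, ← cj_mul, spr_comm (fun _ => sup_tau) (fun _ => sup_tau) (N + 1) N]
      rw [hcomm] at h1
      exact h1
  · intro w hw
    have h1 := lift_spr zone_AD (fun (i : Bool ⊕ ((α ⊕ α) ⊕ β)) j => Sum.elim gens (fun i => s i j) i)
      (by
        rintro (b | i) j
        · exact hgS b
        · exact hsS i j) N w
    have h2 : (fun i => spr AD ((fun (i : Bool ⊕ ((α ⊕ α) ⊕ β)) j =>
        Sum.elim gens (fun i => s i j) i) i) N) = Sum.elim (fun b => C b) (fun i => V i) := by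
      funext i
      rcases i with b | i <;> rfl
    rw [h2] at h1
    rw [h1]
    have h3 : spr AD (fun j => FreeGroup.lift (fun i => Sum.elim gens (fun i => s i j) i) w) N =
        spr AD (fun _ => 1) N := by
      apply spr_congr
      intro j hj
      exact hyL j hj w hw
    rw [h3, spr_one]
  · intro a
    rw [cj_gg, cj_gg]
    have e1 : (s (inl (inr a))) = fun j => s (inl (inl a)) (j + 1) := rfl
    have e2 := spr_shift (A := AD) (s (inl (inl a))) N
    have e3 : s (inl (inl a)) 0 = ss ^ n (inl a) := by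
      show ss ^ f 0 a = _
      rw [hf0]
    have e4 : s (inl (inl a)) N = ss ^ n (inr a) := by
      show ss ^ f N a = _
      rw [hfN]
    have e5 : cj AD (ss ^ n (inl a)) * cj tau (spr AD (fun j => s (inl (inl a)) (j + 1)) N) =
        cj tau (spr AD (fun j => s (inl (inl a)) (j + 1)) N) * cj AD (ss ^ n (inl a)) := by
      have f1 : Sup (1/2) (3/4) (cj AD (ss ^ n (inl a))) :=
        ((ss_pow_sup01 _).cj AD).mono zone_AD.left zone_AD.right
      have f2 := (spr_sup zone_AD (fun j => hsS (inl (inl a)) (j + 1)) N).cj tau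
      rw [tau_half] at f2
      exact f1.commute f2 le_rfl
    show cj tau (spr AD (s (inl (inr a))) N) * _ = spr AD (s (inl (inl a))) N * _
    rw [e1, ← e5, ← e3, ← e2, spr, e4, cj_cj]
  · intro a
    exact (MemC_iff (FF_le_GG (FF.pow_mem ss_mem _))).2 ⟨n a, rfl⟩

end

/-- Definable relations are closed under reflexive transitive closure. -/
theorem def_star {α : Type} [Finite α] {R : (α → ℕ) → (α → ℕ) → Prop}
    (h : Def (fun v : α ⊕ α → ℕ => R (fun a => v (inl a)) (fun a => v (inr a)))) :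
    Def (fun v : α ⊕ α → ℕ =>
      Relation.ReflTransGen R (fun a => v (inl a)) (fun a => v (inr a))) := by
  obtain ⟨β, _, C₀, ⟨L, hL⟩, comp, sound⟩ := h
  refine ⟨((α ⊕ α) ⊕ β) ⊕ (Bool ⊕ Bool), inferInstance,
    fun v => StarC L (fun a => v (inl a)) (fun i => v (inr (inl i)))
      (fun b => v (inr (inr (inl b)))) (v (inr (inr (inr false)))) (v (inr (inr (inr true)))),
    ?_, ?_, ?_⟩
  · -- it is a system of equations
    have tT : Term (fun v : (α ⊕ α) ⊕ (((α ⊕ α) ⊕ β) ⊕ (Bool ⊕ Bool)) → Au =>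
      v (inr (inr (inr false)))) := Term.var _
    have tB : Term (fun v : (α ⊕ α) ⊕ (((α ⊕ α) ⊕ β) ⊕ (Bool ⊕ Bool)) → Au =>
      v (inr (inr (inr true)))) := Term.var _
    have tC : ∀ b, Term (fun v : (α ⊕ α) ⊕ (((α ⊕ α) ⊕ β) ⊕ (Bool ⊕ Bool)) → Au =>
      v (inr (inr (inl b)))) := fun b => Term.var _
    have tV : ∀ i, Term (fun v : (α ⊕ α) ⊕ (((α ⊕ α) ⊕ β) ⊕ (Bool ⊕ Bool)) → Au =>
      v (inr (inl i))) := fun i => Term.var _
    have tx : ∀ a, Term (fun v : (α ⊕ α) ⊕ (((α ⊕ α) ⊕ β) ⊕ (Bool ⊕ Bool)) → Au =>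
      v (inl a)) := fun a => Term.var _
    have cc : ∀ {g : Au}, g ∈ FF →
        Term (fun _ : (α ⊕ α) ⊕ (((α ⊕ α) ⊕ β) ⊕ (Bool ⊕ Bool)) → Au => g) :=
      fun hg => Term.const hg
    have ta := (tC false).inv.mul (tT.cj (cc (cj_AD_mem tau_mem)))
    refine ((cond_comm tT (cc tau_mem)).and (cond_Ge tT)).and
      ((Cond.all fun b => (Cond.eq
          (((cc tau_mem).cj (tC b)).mul (cc (cj_AD_mem (gens_mem b))))
          ((tC b).mul (tT.cj (cc (cj_AD_mem (gens_mem b)))))).and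
        ((cond_Ge (tC b)).and (cond_Le (tC b)))).and
      (((Cond.eq (((cc tau_mem).cj tB).mul (cc (cj_AE_mem tau_mem)))
          (tB.mul (tT.cj (cc (cj_AE_mem tau_mem))))).and
        ((cond_Ge tB).and (cond_Le tB))).and
      ((Cond.all fun i => ((cond_comm (tV i) (cc al_mem)).and (cond_Fixes (cc X0_mem) (tV i))).and
        (((cond_comm (tV i) (tT.cj (cc be_mem))).and
            (cond_Fixes (tT.mul (cc tau_mem)) (tV i))).and
          ((cond_comm ta ((tV i).cj tB)).and (cond_comm ((tV i).cj ta) tB)))).and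
      ((Cond.subst L (fun b => inr (inr (inl b))) (fun i => inr (inl i))).and
      ((Cond.all fun a => Cond.eq (((cc tau_mem).cj (tV (inl (inr a)))).mul
          ((cc gg_mem).cj (tx (inl a))))
        ((tV (inl (inl a))).mul (tT.cj ((cc gg_mem).cj (tx (inr a)))))).and
      (Cond.all fun a => cond_MemC (tx a)))))))
  · intro n hn
    obtain ⟨V, C, T, B, hV, hC, hT, hB, hS⟩ := star_complete (L := L) (R := R) (fun m hm => by
      obtain ⟨y, hy, hy'⟩ := comp m hm
      exact ⟨y, hy, (hL _).1 hy'⟩) n hn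
    refine ⟨Sum.elim V (Sum.elim C (fun b => if b then B else T)), ?_, ?_⟩
    · rintro (i | b | b)
      · exact hV i
      · exact hC b
      · cases b
        · exact hT
        · exact hB
    · exact hS
  · intro v hv hS
    exact star_sound (R := R) (fun w hw h => sound w hw ((hL w).2 h)) (fun a => hv _)
      (fun i => hv _) (fun b => hv _) (hv _) (hv _) hS

end Pool.Agent.Helper48.Thompson
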