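import Mathlib
import Pool.Agent.Helper48.Thompson.Star

/-!
# Closure of definable relations under disjunctions
-/

set_option autoImplicit false

namespace Pool.Agent.Helper48.Thompson

open Sum

/-- The step relation used to define a guarded relation. -/
def GuardStep {α : Type} (P : (α → ℕ) → Prop) (k k' : Option α → ℕ) : Prop :=
  k' none = k none + 1 ∧ (∀ a, k' (some a) = k (some a)) ∧ P (fun a => k (some a))

lemma guard_fwd {α : Type} {P : (α → ℕ) → Prop} {u w : Option α → ℕ}
    (h : Relation.ReflTransGen (GuardStep P) u w) :
    (∀ a, w (some a) = u (some a)) ∧ (w none = u none ∨ P (fun a => u (some a))) := by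
  induction h with
  | refl => exact ⟨fun _ => rfl, Or.inl rfl⟩
  | @tail b c _ hbc ih =>
    obtain ⟨h1, h2, h3⟩ := hbc
    refine ⟨fun a => (h2 a).trans (ih.1 a), Or.inr ?_⟩
    have : (fun a => b (some a)) = fun a => u (some a) := funext ih.1
    rwa [this] at h3

lemma guard_bwd {α : Type} {P : (α → ℕ) → Prop} {u w : Option α → ℕ}
    (h0 : u none = 0) (h1 : ∀ a, w (some a) = u (some a)) (hP : P (fun a => u (some a))) :
    Relation.ReflTransGen (GuardStep P) u w := by
  obtain ⟨n, hn⟩ : ∃ n, w none = n := ⟨_, rfl⟩
  induction n generalizing w with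
  | zero =>
    have : u = w := by
      funext a
      cases a with
      | none => rw [h0, hn]
      | some a => exact (h1 a).symm
    rw [this]
  | succ n ih =>
    have h2 := ih (w := fun a => a.elim n (fun a => w (some a))) (fun a => h1 a) rfl
    refine h2.tail ⟨hn, fun a => rfl, ?_⟩
    have : (fun a => w (some a)) = fun a => u (some a) := funext h1
    show P (fun a => w (some a))
    rwa [this]

lemma def_guard {α : Type} [Finite α] {P : (α → ℕ) → Prop} (hP : Def P) :
    Def (fun v : Option α → ℕ => v none = 0 ∨ P (fun a => v (some a))) := by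
  have h1 : Def (fun v : Option α ⊕ Option α → ℕ =>
      GuardStep P (fun a => v (inl a)) (fun a => v (inr a))) := by
    refine (((Def.aff (inr none) (inl none) 1 1).and
      ((Def.all fun a : α => Def.aff (inr (some a)) (inl (some a)) 1 0).and
        (hP.rename (fun a => (inl (some a) : Option α ⊕ Option α)))))).of_iff (fun v => ?_)
    simp [GuardStep]
  have h2 := def_star h1
  have h3 : Def (fun v : Option α ⊕ Option α → ℕ =>
      Relation.ReflTransGen (GuardStep P) (fun a => v (inr a)) (fun a => v (inl a)) ∧
        (v (inr none) = 0 ∧ ∀ a : α, v (inl (some a)) = v (inr (some a)))) := by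
    refine ((h2.rename (Sum.swap : Option α ⊕ Option α → Option α ⊕ Option α)).and
      ((Def.cst (inr none) 0).and
        (Def.all fun a : α => Def.aff (inl (some a)) (inr (some a)) 1 0))).of_iff (fun v => ?_)
    simp
  refine (h3.ex (γ := Option α)).of_iff (fun v => ?_)
  constructor
  · rintro ⟨u, h4, h5, h6⟩
    have h7 := guard_fwd h4
    simp only [Sum.elim_inr, Sum.elim_inl] at h5 h6 h7
    rcases h7.2 with h8 | h8
    · left; rw [h8, h5]
    · right
      have : (fun a => v (some a)) = fun a => u (some a) := funext h6
      rwa [this]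
  · intro h4
    refine ⟨fun a => a.elim 0 (fun a => v (some a)), ?_, rfl, fun a => rfl⟩
    rcases h4 with h4 | h4
    · have : v = fun a => a.elim 0 (fun a => v (some a)) := by
        funext a
        cases a with
        | none => exact h4
        | some a => rfl
      simp only [Sum.elim_inr, Sum.elim_inl]
      rw [← this]
    · exact guard_bwd rfl (fun a => rfl) h4

lemma def_or {α : Type} [Finite α] {P Q : (α → ℕ) → Prop} (hP : Def P) (hQ : Def Q) :
    Def (fun v => P v ∨ Q v) := by
  have h1 : Def (fun v : α ⊕ Bool → ℕ => v (inr false) + v (inr true) = 1 ∧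
      ((v (inr false) = 0 ∨ P (fun a => v (inl a))) ∧
        (v (inr true) = 0 ∨ Q (fun a => v (inl a))))) := by
    refine ((Def.addOne (inr false) (inr true)).and
      (((def_guard hP).rename (fun a => a.elim (inr false) (fun a => (inl a : α ⊕ Bool)))).and
        ((def_guard hQ).rename (fun a => a.elim (inr true) (fun a => (inl a : α ⊕ Bool)))))).of_iff
      (fun v => ?_)
    simp
  refine (h1.ex (γ := Bool)).of_iff (fun v => ?_)
  constructor
  · rintro ⟨u, h4, h5, h6⟩
    simp only [Sum.elim_inr, Sum.elim_inl] at h4 h5 h6
    rcases h5 with h5 | h5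
    · right
      rcases h6 with h6 | h6
      · omega
      · exact h6
    · left; exact h5
  · rintro (h | h)
    · exact ⟨fun b => if b then 0 else 1, by simp, Or.inr h, Or.inl (by simp)⟩
    · exact ⟨fun b => if b then 1 else 0, by simp, Or.inl (by simp), Or.inr h⟩

lemma def_any {α : Type} [Finite α] {ι : Type} {P : ι → (α → ℕ) → Prop} (s : Finset ι)
    (h : ∀ i, Def (P i)) : Def (fun v => ∃ i ∈ s, P i v) := by
  classical
  induction s using Finset.induction_on with
  | empty => exact Def.false.of_iff (fun v => by simp)
  | insert i s _ ih => exact (def_or (h i) ih).of_iff (fun v => by simp)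

end Pool.Agent.Helper48.Thompson
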