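import Mathlib
import Pool.Agent.Helper48.Thompson.Closure

/-!
# Confinement: a word whose values always have support in a fixed interval
-/

set_option autoImplicit false

namespace Pool.Agent.Helper48.Thompson

open Sum

/-- `u ≥ id` fixes everything right of `s₂`, `r ≤ id` fixes everything left of `s₁`: the commutator
is supported in `(s₁, s₂)`. -/
lemma comm_sup {u r : Au} {s₁ s₂ : ℚ} (hu : ∀ t, t ≤ u t) (hu2 : ∀ t, s₂ ≤ t → u t = t)
    (hr : ∀ t, r t ≤ t) (hr1 : ∀ t, t ≤ s₁ → r t = t) : Sup s₁ s₂ (u * r * u⁻¹ * r⁻¹) := by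
  intro t ht
  have hr' : ∀ t, t ≤ r⁻¹ t := fun t => by rw [au_le_inv]; exact hr t
  have hu' : ∀ t, u⁻¹ t ≤ t := fun t => by rw [au_inv_le]; exact hu t
  simp only [au_mul]
  rcases le_or_gt t s₁ with h | h
  · have h1 : r⁻¹ t = t := by rw [au_inv_eq, hr1 t h]
    rw [h1, hr1 _ ((hu' t).trans h), au_self_inv]
  · have h2 : s₂ ≤ t := by
      by_contra hc
      exact ht ⟨h, lt_of_not_ge hc⟩
    have h3 : u⁻¹ (r⁻¹ t) = r⁻¹ t := by rw [au_inv_eq, hu2 _ (h2.trans (hr' t))]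
    rw [h3, au_self_inv, hu2 t h2]

lemma cj_ge {g : Au} (hg : ∀ t, t ≤ g t) (k : Au) : ∀ t, t ≤ cj k g t := by
  intro t
  rw [cj_apply, ← au_inv_le]
  exact hg _

lemma cj_le' {g : Au} (hg : ∀ t, g t ≤ t) (k : Au) : ∀ t, cj k g t ≤ t := by
  intro t
  rw [cj_apply, ← au_le_inv]
  exact hg _

lemma X0_le' (t : ℚ) : X0 t ≤ t := by
  show tau⁻¹ t ≤ t
  rw [au_inv_le]; exact tau_le' t

/-- A decreasing element supported in `(5/8, 11/16)`. -/
def rr : Au := cj AS (cj AS X0)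

lemma rr_mem : rr ∈ FF := cj_AS_mem (cj_AS_mem X0_mem)

lemma rr_sup : Sup (5/8) (11/16) rr :=
  ((sup_X0.cj AS).cj AS).mono (by simp only [AS_apply]; norm_num)
    (by simp only [AS_apply]; norm_num)

lemma rr_le (t : ℚ) : rr t ≤ t := cj_le' (cj_le' X0_le' AS) AS t

lemma ss_ge (t : ℚ) : t ≤ ss t := cj_ge tau_le' AS t

/-- The increasing conjugate depending on the variable. -/
def uu (x : Au) : Au := cj (x * tau⁻¹ * x⁻¹) (cj tau ss)

/-- The confined word. -/
def Ps (x : Au) : Au := (uu x * rr * (uu x)⁻¹ * rr⁻¹) * (ss * rr * ss⁻¹ * rr⁻¹)⁻¹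

lemma uu_ge (x : Au) (t : ℚ) : t ≤ uu x t := cj_ge (cj_ge ss_ge tau) _ t

lemma uu_fix (x : Au) (t : ℚ) (ht : 7/8 ≤ t) : uu x t = t := by
  have h1 : Sup (tau (1/2)) (tau (3/4)) (cj tau ss) := ss_sup.cj tau
  rw [tau_34] at h1
  have h2 : t ≤ (x * tau⁻¹ * x⁻¹)⁻¹ t := by
    rw [au_le_inv]
    have : x * tau⁻¹ * x⁻¹ = cj x X0 := rfl
    rw [this]
    exact cj_le' X0_le' x t
  rw [uu, cj_apply, h1, au_self_inv]
  rintro ⟨-, h3⟩
  linarith

lemma Ps_sup (x : Au) : Sup (1/2) (7/8) (Ps x) := by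
  have hr1 : ∀ t, t ≤ (1/2 : ℚ) → rr t = t := fun t ht => rr_sup t (by rintro ⟨h, -⟩; linarith)
  refine (comm_sup (uu_ge x) (uu_fix x) rr_le hr1).mul
    (comm_sup ss_ge (fun t ht => ss_sup t (by rintro ⟨-, h⟩; linarith)) rr_le hr1).inv

lemma Ps_eval {h : Au} {c d : ℚ} (hh : Sup c d h) (hc : 11/16 ≤ c) (hd : d ≤ 3/4) :
    Ps h = h * cj (cj ss rr) h⁻¹ := by
  have h1 : cj tau⁻¹ h⁻¹ * ss = ss * cj tau⁻¹ h⁻¹ := by
    refine (hh.inv.cj tau⁻¹).commute ss_sup ?_
    rw [au_inv_le, tau_half]; exact hd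
  have h2 : uu h = cj h ss := by
    have e1 : uu h = cj h (cj (cj tau⁻¹ h⁻¹) ss) := by
      simp only [uu, cj]; group
    rw [e1]
    congr 1
    rw [cj, h1]; group
  have h3 : rr * h = h * rr := rr_sup.commute hh hc
  have h4 : h⁻¹ * rr * h = rr := by rw [mul_assoc, h3]; group
  rw [Ps, h2]
  have e : cj h ss * rr * (cj h ss)⁻¹ * rr⁻¹ * (ss * rr * ss⁻¹ * rr⁻¹)⁻¹ =
      h * (ss * (h⁻¹ * rr * h) * ss⁻¹ * h⁻¹ * (ss * rr⁻¹ * ss⁻¹)) := by
    simp only [cj]; group
  rw [e, h4]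
  simp only [cj]; group

/-! ### The charts -/

/-- The middle chart. -/
def CA : Au := AS * tau * AS * AS
/-- The chart of the working interval. -/
def CJ : Au := CA * AS

lemma CA_apply {t : ℚ} (h0 : 0 ≤ t) (h1 : t ≤ 1) : CA t = 45/64 + t / 128 := by
  simp only [CA, au_mul, AS_apply]
  rw [tau_4 (by linarith) (by linarith)]
  ring

lemma CJ_apply {t : ℚ} (h0 : 0 ≤ t) (h1 : t ≤ 1) : CJ t = 181/256 + t / 512 := by
  rw [CJ, au_mul, AS_apply, CA_apply (by linarith) (by linarith)]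
  ring

lemma cj_CA_mem {g : Au} (hg : g ∈ FF) : cj CA g ∈ FF := by
  rw [CA, ← cj_cj, ← cj_cj, ← cj_cj]
  exact cj_AS_mem (cj_mem tau_mem (cj_AS_mem (cj_AS_mem hg)))

lemma cj_CJ_mem {g : Au} (hg : g ∈ FF) : cj CJ g ∈ FF := by
  rw [CJ, ← cj_cj]
  exact cj_CA_mem (cj_AS_mem hg)

lemma CJ_germ : CJ ∈ Germ :=
  Germ.mul_mem (Germ.mul_mem (Germ.mul_mem (Germ.mul_mem AS_germ tau_germ) AS_germ) AS_germ) AS_germ

lemma cj_CJ_sup {g : Au} (hg : Sup 0 1 g) : Sup (181/256) (363/512) (cj CJ g) :=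
  (hg.cj CJ).mono (by rw [CJ_apply le_rfl zero_le_one]; norm_num)
    (by rw [CJ_apply zero_le_one le_rfl]; norm_num)

/-- The conjugator in the value of the confined word. -/
def rho : Au := cj ss rr

lemma rho_eq : rho = cj (AS * tau * AS) X0 := by
  rw [rho, rr, ss, cj_cj]
  simp only [cj]; group

lemma rho_apply : rho (91/128) ≤ 45/64 := by
  rw [rho_eq, cj_apply]
  have h1 : (AS * tau * AS)⁻¹ (91/128) = 3/4 := by
    rw [au_inv_eq, au_mul, au_mul, AS_apply (3/4), tau_4 (by norm_num) (by norm_num), AS_apply]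
    norm_num
  rw [h1, X0_3 (by norm_num) le_rfl, au_mul, au_mul, AS_apply (3/4 - 1/4),
    tau_4 (by norm_num) (by norm_num), AS_apply]
  norm_num

/-- The value of the confined word on elements supported in the working interval. -/
lemma Ps_CJ {g : Au} (hg : Sup 0 1 g) : Ps (cj CJ g) = cj CJ g * cj rho (cj CJ g)⁻¹ :=
  Ps_eval (cj_CJ_sup hg) (by norm_num) (by norm_num)

lemma rho_piece_sup {g : Au} (hg : Sup 0 1 g) :
    Sup (rho (181/256)) (45/64) (cj rho (cj CJ g)⁻¹) :=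
  ((cj_CJ_sup hg).inv.cj rho).mono le_rfl
    (((au_le rho).2 (by norm_num : (363/512 : ℚ) ≤ 91/128)).trans rho_apply)

/-- The two guards of the working interval. -/
def gl : Au := cj CA al
def gr : Au := cj CA (cj tau be)

lemma gl_mem : gl ∈ FF := cj_CA_mem al_mem
lemma gr_mem : gr ∈ FF := cj_CA_mem (cj_mem tau_mem be_mem)

lemma gl_sup : Sup (45/64) (181/256) gl :=
  (al_sup.cj CA).mono (by rw [CA_apply le_rfl zero_le_one]; norm_num)
    (by rw [CA_apply (by norm_num) (by norm_num)]; norm_num)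

lemma tau_be_sup : Sup (3/4) 1 (cj tau be) :=
  (be_sup.cj tau).mono (by rw [tau_half]) (by rw [sup_tau.map_right])

lemma gr_sup : Sup (363/512) (91/128) gr :=
  (tau_be_sup.cj CA).mono (by rw [CA_apply (by norm_num) (by norm_num)]; norm_num)
    (by rw [CA_apply zero_le_one le_rfl]; norm_num)

lemma CA_inv_mem {t : ℚ} (h0 : 45/64 < t) (h1 : t < 91/128) :
    0 < CA⁻¹ t ∧ CA⁻¹ t < 1 ∧ CA⁻¹ t = 128 * (t - 45/64) := by
  refine ⟨?_, ?_, ?_⟩
  · rw [au_lt_inv, CA_apply le_rfl zero_le_one]; linarith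
  · rw [au_inv_lt, CA_apply zero_le_one le_rfl]; linarith
  · rw [au_inv_eq, CA_apply (by linarith) (by linarith)]; ring

lemma gl_ne {t : ℚ} (h0 : 45/64 < t) (h1 : t < 181/256) : gl t ≠ t := by
  obtain ⟨e1, e2, e3⟩ := CA_inv_mem h0 (by linarith)
  rw [gl, Ne, cj_fix']
  exact al_ne e1 (by rw [e3]; linarith)

lemma gr_ne {t : ℚ} (h0 : 363/512 < t) (h1 : t < 91/128) : gr t ≠ t := by
  obtain ⟨e1, e2, e3⟩ := CA_inv_mem (by linarith) h1
  rw [gr, Ne, cj_fix', cj_fix']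
  refine be_ne ?_ ?_
  · rw [au_lt_inv, tau_half, e3]; linarith
  · rw [au_inv_lt, sup_tau.map_right]; exact e2

lemma CJ_zero : CJ 0 = 181/256 := by rw [CJ_apply le_rfl zero_le_one]; norm_num
lemma CJ_one : CJ 1 = 363/512 := by rw [CJ_apply zero_le_one le_rfl]; norm_num

/-- Commuting with the guards forces an element of `GG` (or any element fixing `0`, `1`) to preserve
the working interval. -/
lemma St_of_guards {V : Au} (h0 : V 0 = 0) (h1 : V 1 = 1) (hl : gl * V = V * gl)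
    (hr : gr * V = V * gr) : St CJ V := by
  constructor
  · rw [CJ_zero]
    exact endpoint' (g := gl) (h := V) hl (m := 1) (p := 181/256) (r := 45/64) (by norm_num)
      (by norm_num) (fun t ht _ => gl_sup t (by rintro ⟨-, h⟩; linarith))
      (fun t ht0 ht1 => gl_ne ht0 ht1) h1
  · rw [CJ_one]
    exact endpoint (g := gr) (h := V) hr (m := 0) (p := 363/512) (r := 91/128) (by norm_num)
      (by norm_num) (fun t _ ht => gr_sup t (by rintro ⟨h, -⟩; linarith))
      (fun t ht0 ht1 => gr_ne ht0 ht1) h0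

lemma gens_sup (b : Bool) : Sup 0 1 (gens b) := (FF_le_GG (gens_mem b)).2

/-- An element commuting with the two generators is trivial. -/
lemma center_trivial {V : Au} (hV : V ∈ GG) (h : ∀ b, V * gens b = gens b * V) : V = 1 := by
  have h0 : V * tau = tau * V := by
    have h1 : V * X0 = X0 * V := h false
    have h2 : Commute V X0 := h1
    have h3 := h2.inv_right
    rw [X0, inv_inv] at h3
    exact h3
  obtain ⟨k, rfl⟩ := centralizer_tau hV h0
  have h1 : tau ^ k * X1 = X1 * tau ^ k := h true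
  have h2 : (tau ^ k : Au) (1/2) = 1/2 := by
    have sX1 : Sup (1/2) 1 X1 := (sup_X0.cj A1).mono (by norm_num) (by norm_num)
    refine endpoint (g := X1) (h := tau ^ k) h1.symm (m := 0) (p := 1/2) (r := 1) (by norm_num)
      (by norm_num) (fun t _ ht => sX1 t (by rintro ⟨h, -⟩; linarith)) (fun t ht0 ht1 => ?_)
      hV.2.map_left
    rw [X1, X0, Ne, cj_inv, au_inv_eq, eq_comm]
    exact cj_tau_ne (by norm_num; exact ht0) (by norm_num; exact ht1)
  rw [tau_zpow_eq_one_of_half h2, zpow_zero]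

/-- If `loc A V = 1` then `V` commutes with everything supported in `A [0,1]`. -/
lemma comm_of_loc_one {A V g : Au} (hV : St A V) (h : loc A V = 1) (hg : Sup 0 1 g) :
    V * cj A g = cj A g * V := by
  have hfix : ∀ t, A 0 ≤ t → t ≤ A 1 → V t = t := by
    intro t h0 h1
    have h2 := loc_apply hV (t := A⁻¹ t) (by rw [au_le_inv]; exact h0) (by rw [au_inv_le]; exact h1)
    rw [h, au_one, au_self_inv] at h2
    exact h2.symm
  have h1 : cj V (cj A g) = cj A g := by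
    have := (hg.cj A).cj_congr (k := V) (l := 1) (fun t h0 h1 => by rw [hfix t h0 h1, au_one])
    rw [this, cj_one_left]
  calc V * cj A g = cj V (cj A g) * V := by simp only [cj]; group
    _ = cj A g * V := by rw [h1]

end Pool.Agent.Helper48.Thompson
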