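import Mathlib
import Pool.Agent.Helper48.Thompson.Confinement

/-!
# From systems to a single equation
-/

set_option autoImplicit false

namespace Pool.Agent.Helper48.Thompson

open Sum

/-- `C` is a finite conjunction of word equations all of whose values are supported in
`(1/2, 7/8)`. -/
def Conf {V : Type} (C : (V → Au) → Prop) : Prop :=
  ∃ L : List (FreeGroup (Bool ⊕ V)), (∀ w ∈ L, ∀ v, Sup (1/2) (7/8) (ev v w)) ∧
    ∀ v, C v ↔ ∀ w ∈ L, ev v w = 1

namespace Conf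

variable {V : Type} {C D : (V → Au) → Prop} {t t' : (V → Au) → Au}

lemma comm (h : Term t) (h' : Term t') (c : ∀ v, Sup (1/2) (7/8) (t v))
    (c' : ∀ v, Sup (1/2) (7/8) (t' v)) : Conf (fun v => t v * t' v = t' v * t v) := by
  obtain ⟨w, hw⟩ := h
  obtain ⟨w', hw'⟩ := h'
  refine ⟨[w * w' * w⁻¹ * w'⁻¹], ?_, fun v => ?_⟩
  · simp only [List.mem_singleton, forall_eq, map_mul, map_inv]
    intro v
    rw [← hw, ← hw']
    exact (((c v).mul (c' v)).mul (c v).inv).mul (c' v).inv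
  · simp only [List.mem_singleton, forall_eq, map_mul, map_inv]
    rw [← hw, ← hw', mul_inv_eq_one, mul_inv_eq_iff_eq_mul]

lemma true : Conf (fun _ : V → Au => True) := ⟨[], by simp, fun v => by simp⟩

lemma and (h : Conf C) (h' : Conf D) : Conf (fun v => C v ∧ D v) := by
  obtain ⟨L, cL, hL⟩ := h
  obtain ⟨L', cL', hL'⟩ := h'
  refine ⟨L ++ L', ?_, fun v => ?_⟩
  · intro w hw
    rcases List.mem_append.1 hw with hw | hw
    · exact cL w hw
    · exact cL' w hw
  beta_reduce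
  rw [hL, hL']
  constructor
  · rintro ⟨h1, h2⟩ w hw
    rcases List.mem_append.1 hw with hw | hw
    · exact h1 w hw
    · exact h2 w hw
  · intro h
    exact ⟨fun w hw => h w (List.mem_append.2 (Or.inl hw)),
      fun w hw => h w (List.mem_append.2 (Or.inr hw))⟩

lemma of_iff (h : Conf C) (h' : ∀ v, C v ↔ D v) : Conf D := by
  obtain ⟨L, c, hL⟩ := h
  exact ⟨L, c, fun v => (h' v).symm.trans (hL v)⟩

lemma list {ι : Type} (l : List ι) {C : ι → (V → Au) → Prop} (h : ∀ i, Conf (C i)) :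
    Conf (fun v => ∀ i ∈ l, C i v) := by
  induction l with
  | nil => exact Conf.true.of_iff (fun v => by simp)
  | cons i l ih => exact ((h i).and ih).of_iff (fun v => by simp)

lemma all {ι : Type} [Finite ι] {C : ι → (V → Au) → Prop} (h : ∀ i, Conf (C i)) :
    Conf (fun v => ∀ i, C i v) := by
  classical
  have _ := Fintype.ofFinite ι
  exact (list (Finset.univ.toList) h).of_iff (fun v => by simp)

end Conf

lemma sup_mul_eq_one {a b c : ℚ} {g h : Au} (hg : Sup a b g) (hh : Sup b c h) :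
    g * h = 1 ↔ g = 1 ∧ h = 1 := by
  constructor
  · intro e
    have e1 : h = 1 := by
      ext t
      rw [au_one]
      by_contra hne
      have ht : b < t ∧ t < c := by
        by_contra hc; exact hne (hh t hc)
      have h1 := hh.mem ht
      have h2 : (g * h) t = h t := by
        rw [au_mul, hg (h t) (by rintro ⟨-, h3⟩; linarith [h1.1])]
      rw [e, au_one] at h2
      exact hne h2.symm
    rw [e1, mul_one] at e
    exact ⟨e, e1⟩
  · rintro ⟨rfl, rfl⟩; exact one_mul 1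

lemma tau2_half : (tau * tau) (1/2) = 7/8 := by rw [au_mul, tau_half, tau_34]

lemma tau2_sup {g : Au} (hg : Sup (1/2) 1 g) : Sup (7/8) 1 (cj (tau * tau) g) :=
  (hg.cj (tau * tau)).mono (by rw [tau2_half])
    (by rw [au_mul, sup_tau.map_right, sup_tau.map_right])

lemma Conf.single {V : Type} {C : (V → Au) → Prop} (h : Conf C) :
    ∃ w : FreeGroup (Bool ⊕ V), (∀ v, Sup (1/2) 1 (ev v w)) ∧ ∀ v, C v ↔ ev v w = 1 := by
  obtain ⟨L, cL, hL⟩ := h
  suffices H : ∃ w : FreeGroup (Bool ⊕ V), (∀ v, Sup (1/2) 1 (ev v w)) ∧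
      ∀ v, (∀ u ∈ L, ev v u = 1) ↔ ev v w = 1 by
    obtain ⟨w, h1, h2⟩ := H
    exact ⟨w, h1, fun v => (hL v).trans (h2 v)⟩
  clear hL
  induction L with
  | nil => exact ⟨1, fun v => by rw [map_one]; exact Sup.one _ _, fun v => by simp⟩
  | cons u L ih =>
    obtain ⟨w, h1, h2⟩ := ih (fun w hw => cL w (List.mem_cons_of_mem _ hw))
    obtain ⟨q, hq⟩ := Term.const (V := V) (FF.mul_mem tau_mem tau_mem)
    refine ⟨u * (q * w * q⁻¹), fun v => ?_, fun v => ?_⟩
    · have e : ev v (u * (q * w * q⁻¹)) = ev v u * cj (tau * tau) (ev v w) := by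
        rw [map_mul, map_mul, map_mul, map_inv, ← hq v]; rfl
      rw [e]
      exact ((cL u List.mem_cons_self v).mono le_rfl (by norm_num)).mul
        ((tau2_sup (h1 v)).mono (by norm_num) le_rfl)
    · have e : ev v (u * (q * w * q⁻¹)) = ev v u * cj (tau * tau) (ev v w) := by
        rw [map_mul, map_mul, map_mul, map_inv, ← hq v]; rfl
      rw [e, sup_mul_eq_one (cL u List.mem_cons_self v) (tau2_sup (h1 v))]
      have e2 : cj (tau * tau) (ev v w) = 1 ↔ ev v w = 1 := by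
        conv_lhs => rw [← cj_one (tau * tau)]
        exact cj_eq_iff _ _ _
      rw [e2, ← h2 v]
      simp

lemma Term.lift {V ι : Type} {f : (V → Au) → ι → Au} (h : ∀ i, Term (fun v => f v i))
    (w : FreeGroup ι) : Term (fun v => FreeGroup.lift (f v) w) := by
  induction w using FreeGroup.induction_on with
  | C1 => simp only [map_one]; exact Term.const FF.one_mem
  | of i => simp only [FreeGroup.lift_apply_of]; exact h i
  | inv_of i ih => simp only [map_inv]; exact ih.inv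
  | mul x y hx hy => simp only [map_mul]; exact hx.mul hy

lemma lift_sup' {ι : Type} {a b : ℚ} (f : ι → Au) (h : ∀ i, Sup a b (f i)) (w : FreeGroup ι) :
    Sup a b (FreeGroup.lift f w) := by
  induction w using FreeGroup.induction_on with
  | C1 => simp only [map_one]; exact Sup.one a b
  | of i => simp only [FreeGroup.lift_apply_of]; exact h i
  | inv_of i ih => simp only [map_inv]; exact ih.inv
  | mul x y hx hy => simp only [map_mul]; exact hx.mul hy

lemma lift_mem {ι : Type} (K : Subgroup Au) (f : ι → Au) (h : ∀ i, f i ∈ K) (w : FreeGroup ι) :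
    FreeGroup.lift f w ∈ K := by
  induction w using FreeGroup.induction_on with
  | C1 => simp only [map_one]; exact K.one_mem
  | of i => simp only [FreeGroup.lift_apply_of]; exact h i
  | inv_of i ih => simp only [map_inv]; exact K.inv_mem ih
  | mul x y hx hy => simp only [map_mul]; exact K.mul_mem hx hy

lemma Term.uu {V : Type} {t : (V → Au) → Au} (h : Term t) : Term (fun v => Thompson.uu (t v)) :=
  ((h.mul (Term.const (FF.inv_mem tau_mem))).mul h.inv).cj (Term.const (cj_mem tau_mem ss_mem))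

lemma Term.Ps {V : Type} {t : (V → Au) → Au} (h : Term t) : Term (fun v => Thompson.Ps (t v)) :=
  (((h.uu.mul (Term.const rr_mem)).mul h.uu.inv).mul (Term.const (FF.inv_mem rr_mem))).mul
    (Term.const (FF.inv_mem (FF.mul_mem (FF.mul_mem (FF.mul_mem ss_mem rr_mem)
      (FF.inv_mem ss_mem)) (FF.inv_mem rr_mem))))

lemma uu_mem {x : Au} (hx : x ∈ FF) : uu x ∈ FF :=
  cj_mem (FF.mul_mem (FF.mul_mem hx (FF.inv_mem tau_mem)) (FF.inv_mem hx)) (cj_mem tau_mem ss_mem)

lemma Ps_mem {x : Au} (hx : x ∈ FF) : Ps x ∈ FF :=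
  FF.mul_mem (FF.mul_mem (FF.mul_mem (FF.mul_mem (uu_mem hx) rr_mem) (FF.inv_mem (uu_mem hx)))
    (FF.inv_mem rr_mem)) (FF.inv_mem (FF.mul_mem (FF.mul_mem (FF.mul_mem ss_mem rr_mem)
      (FF.inv_mem ss_mem)) (FF.inv_mem rr_mem)))

/-- Letters of the confined system. -/
def lett {V : Type} (v : V → Au) : Bool ⊕ V → Au :=
  Sum.elim (fun b => cj CJ (gens b)) (fun i => Ps (v i))

/-- The confined system associated with a list of words. -/
def SysC {V : Type} (L : List (FreeGroup (Bool ⊕ V))) (v : V → Au) : Prop :=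
  (∀ i, gl * Ps (v i) = Ps (v i) * gl ∧ gr * Ps (v i) = Ps (v i) * gr) ∧
    ∀ u ∈ L, ∀ b : Bool, FreeGroup.lift (lett v) u * cj CJ (gens b) =
      cj CJ (gens b) * FreeGroup.lift (lett v) u

lemma cj_CJ_sup' {g : Au} (hg : Sup 0 1 g) : Sup (1/2) (7/8) (cj CJ g) :=
  (cj_CJ_sup hg).mono (by norm_num) (by norm_num)

lemma lett_sup {V : Type} (v : V → Au) (i : Bool ⊕ V) : Sup (1/2) (7/8) (lett v i) := by
  rcases i with b | i
  · exact cj_CJ_sup' (gens_sup b)
  · exact Ps_sup _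

lemma term_lett {V : Type} (i : Bool ⊕ V) : Term (fun v : V → Au => lett v i) := by
  rcases i with b | i
  · exact Term.const (cj_CJ_mem (gens_mem b))
  · exact (Term.var i).Ps

lemma conf_SysC {V : Type} [Finite V] (L : List (FreeGroup (Bool ⊕ V))) : Conf (SysC L) := by
  refine Conf.and (Conf.all fun i => Conf.and ?_ ?_) (Conf.list L fun u => Conf.all fun b => ?_)
  · exact Conf.comm (Term.const gl_mem) (Term.var i).Ps
      (fun v => gl_sup.mono (by norm_num) (by norm_num)) (fun v => Ps_sup _)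
  · exact Conf.comm (Term.const gr_mem) (Term.var i).Ps
      (fun v => gr_sup.mono (by norm_num) (by norm_num)) (fun v => Ps_sup _)
  · exact Conf.comm (Term.lift term_lett u) (Term.const (cj_CJ_mem (gens_mem b)))
      (fun v => lift_sup' _ (lett_sup v) u) (fun v => cj_CJ_sup' (gens_sup b))

/-- Soundness. -/
lemma SysC_sound {V : Type} {L : List (FreeGroup (Bool ⊕ V))} {v : V → Au} (hv : ∀ i, v i ∈ FF)
    (h : SysC L v) : (∀ i, St CJ (Ps (v i))) ∧ (∀ i, loc CJ (Ps (v i)) ∈ GG) ∧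
      ∀ u ∈ L, ev (fun i => loc CJ (Ps (v i))) u = 1 := by
  have h1 : ∀ i, St CJ (Ps (v i)) := fun i =>
    St_of_guards ((Ps_sup _) 0 (by norm_num)) ((Ps_sup _) 1 (by norm_num)) (h.1 i).1 (h.1 i).2
  have hG : ∀ i, Ps (v i) ∈ Germ := fun i => FF_le_Germ (Ps_mem (hv i))
  have h2 : ∀ i, loc CJ (Ps (v i)) ∈ GG := fun i => loc_GG CJ_germ (hG i)
  have h3 : ∀ j, St CJ (lett v j) := by
    rintro (b | i)
    · exact ⟨by
        show cj CJ (gens b) (CJ 0) = CJ 0
        rw [cj_apply', (gens_sup b).map_left], by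
        show cj CJ (gens b) (CJ 1) = CJ 1
        rw [cj_apply', (gens_sup b).map_right]⟩
    · exact h1 i
  refine ⟨h1, h2, fun u hu => ?_⟩
  obtain ⟨h4, h5⟩ := loc_lift CJ (lett v) h3 u
  have h6 : (fun j => loc CJ (lett v j)) = Sum.elim gens (fun i => loc CJ (Ps (v i))) := by
    funext j
    rcases j with b | i
    · exact loc_cj (gens_sup b)
    · rfl
  rw [h6] at h5
  have h7 : ev (fun i => loc CJ (Ps (v i))) u = loc CJ (FreeGroup.lift (lett v) u) := h5.symm
  rw [h7]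
  apply center_trivial
  · apply loc_GG CJ_germ
    refine FF_le_Germ (lift_mem FF _ (fun j => ?_) u)
    rcases j with b | i
    · exact cj_CJ_mem (gens_mem b)
    · exact Ps_mem (hv i)
  · intro b
    have h8 := congrArg (loc CJ) (h.2 u hu b)
    have h9 : St CJ (cj CJ (gens b)) := h3 (inl b)
    rw [loc_mul h4 h9, loc_mul h9 h4, loc_cj (gens_sup b)] at h8
    exact h8

lemma St_CJ_cj {g : Au} (hg : Sup 0 1 g) : St CJ (cj CJ g) :=
  ⟨by rw [cj_apply', hg.map_left], by rw [cj_apply', hg.map_right]⟩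

/-- Properties of the confined word at elements of the working interval. -/
lemma Ps_loc {g : Au} (hg : Sup 0 1 g) :
    St CJ (Ps (cj CJ g)) ∧ loc CJ (Ps (cj CJ g)) = g ∧
      gl * Ps (cj CJ g) = Ps (cj CJ g) * gl ∧ gr * Ps (cj CJ g) = Ps (cj CJ g) * gr := by
  rw [Ps_CJ hg]
  have h1 := rho_piece_sup hg
  have h2 := cj_CJ_sup hg
  have h3 : (45/64 : ℚ) ≤ CJ 0 := by rw [CJ_zero]; norm_num
  have s1 : St CJ (cj CJ g) := St_CJ_cj hg
  have s2 : St CJ (cj rho (cj CJ g)⁻¹) := St.of_sup h1 (Or.inr h3)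
  have l2 : loc CJ (cj rho (cj CJ g)⁻¹) = 1 := loc_of_disjoint h1 (Or.inr h3)
  refine ⟨s1.mul s2, ?_, ?_, ?_⟩
  · rw [loc_mul s1 s2, l2, loc_cj hg, mul_one]
  · have e1 : gl * cj CJ g = cj CJ g * gl := gl_sup.commute h2 le_rfl
    have e2 : cj rho (cj CJ g)⁻¹ * gl = gl * cj rho (cj CJ g)⁻¹ := h1.commute gl_sup le_rfl
    exact (show Commute gl (cj CJ g) from e1).mul_right (show Commute _ _ from e2.symm)
  · have e1 : cj CJ g * gr = gr * cj CJ g := h2.commute gr_sup le_rfl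
    have e2 : cj rho (cj CJ g)⁻¹ * gr = gr * cj rho (cj CJ g)⁻¹ :=
      h1.commute gr_sup (by norm_num)
    exact (show Commute gr (cj CJ g) from e1.symm).mul_right (show Commute _ _ from e2.symm)

/-- Completeness. -/
lemma SysC_complete {V : Type} {L : List (FreeGroup (Bool ⊕ V))} {g : V → Au}
    (hg : ∀ i, g i ∈ FF) (h : ∀ u ∈ L, ev g u = 1) : SysC L (fun i => cj CJ (g i)) := by
  have hs : ∀ i, Sup 0 1 (g i) := fun i => sup01_of_mem (hg i)
  refine ⟨fun i => ⟨(Ps_loc (hs i)).2.2.1, (Ps_loc (hs i)).2.2.2⟩, fun u hu b => ?_⟩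
  have h3 : ∀ j, St CJ (lett (fun i => cj CJ (g i)) j) := by
    rintro (b | i)
    · exact St_CJ_cj (gens_sup b)
    · exact (Ps_loc (hs i)).1
  obtain ⟨h4, h5⟩ := loc_lift CJ _ h3 u
  have h6 : (fun j => loc CJ (lett (fun i => cj CJ (g i)) j)) = Sum.elim gens g := by
    funext j
    rcases j with b | i
    · exact loc_cj (gens_sup b)
    · exact (Ps_loc (hs i)).2.1
  rw [h6] at h5
  exact comm_of_loc_one h4 (h5.trans (h u hu)) (gens_sup b)

/-- A definable set of numbers is given by a family of single equations. -/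
theorem exists_words {P : (Unit → ℕ) → Prop} (hP : Def P) :
    ∃ (V : Type) (_ : Finite V) (w₁ w₂ w₃ c : FreeGroup (Bool ⊕ V)), ∀ n : ℕ,
      P (fun _ => n) ↔ ∃ v : V → Au, (∀ i, v i ∈ FF) ∧
        ev v (w₁ * c ^ n * w₂ * c⁻¹ ^ n * w₃) = 1 := by
  obtain ⟨β, _, C, ⟨L, hL⟩, comp, sound⟩ := hP
  obtain ⟨w, hw1, hw2⟩ := (conf_SysC L).single
  obtain ⟨p, hp⟩ := (Term.var (V := Unit ⊕ β) (inl ())).Ps
  obtain ⟨q, hq⟩ := Term.const (V := Unit ⊕ β) (FF.mul_mem tau_mem tau_mem)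
  obtain ⟨c, hc⟩ := Term.const (V := Unit ⊕ β) (cj_CJ_mem ss_mem)
  obtain ⟨x, hx⟩ := Term.const (V := Unit ⊕ β) (cj_CJ_mem X0_mem)
  refine ⟨Unit ⊕ β, inferInstance, p⁻¹, x, p * x⁻¹ * (q * w * q⁻¹), c, fun n => ?_⟩
  -- the value of the word
  have hval : ∀ v : Unit ⊕ β → Au, ev v (p⁻¹ * c ^ n * x * c⁻¹ ^ n * (p * x⁻¹ * (q * w * q⁻¹))) =
      (((Ps (v (inl ())))⁻¹ * cj CJ (ss ^ n)) * cj CJ X0 * ((Ps (v (inl ())))⁻¹ * cj CJ (ss ^ n))⁻¹ *
        (cj CJ X0)⁻¹) * cj (tau * tau) (ev v w) := by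
    intro v
    simp only [map_mul, map_inv, map_pow, inv_pow]
    rw [← hp, ← hq, ← hc, ← hx, cj_pow]
    generalize cj CJ ss ^ n = a
    simp only [cj]
    group
  have hone : ∀ v : Unit ⊕ β → Au, ev v (p⁻¹ * c ^ n * x * c⁻¹ ^ n * (p * x⁻¹ * (q * w * q⁻¹))) = 1 ↔
      ((Ps (v (inl ())))⁻¹ * cj CJ (ss ^ n)) * cj CJ X0 =
        cj CJ X0 * ((Ps (v (inl ())))⁻¹ * cj CJ (ss ^ n)) ∧ SysC L v := by
    intro v
    have s1 : Sup (1/2) (7/8) ((Ps (v (inl ())))⁻¹ * cj CJ (ss ^ n)) :=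
      (Ps_sup _).inv.mul (cj_CJ_sup' (ss_pow_sup01 n))
    have s2 : Sup (1/2) (7/8) (cj CJ X0) := cj_CJ_sup' sup_X0
    rw [hval, sup_mul_eq_one (((s1.mul s2).mul s1.inv).mul s2.inv) (tau2_sup (hw1 v)),
      mul_inv_eq_one, mul_inv_eq_iff_eq_mul, hw2 v]
    have e2 : cj (tau * tau) (ev v w) = 1 ↔ ev v w = 1 := by
      conv_lhs => rw [← cj_one (tau * tau)]
      exact cj_eq_iff _ _ _
    rw [e2]
  have sn := St_CJ_cj (ss_pow_sup01 n)
  constructor
  · intro hn
    obtain ⟨y, hy, hy2⟩ := comp _ hn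
    have hg : ∀ i, (Sum.elim (fun _ => ss ^ n) y : Unit ⊕ β → Au) i ∈ FF := by
      rintro (a | b)
      · exact FF.pow_mem ss_mem n
      · exact hy b
    refine ⟨fun i => cj CJ ((Sum.elim (fun _ => ss ^ n) y : Unit ⊕ β → Au) i),
      fun i => cj_CJ_mem (hg i), ?_⟩
    rw [hone]
    refine ⟨?_, SysC_complete hg ((hL _).1 hy2)⟩
    have h1 := Ps_loc (g := ss ^ n) (ss_pow_sup01 n)
    refine comm_of_loc_one (h1.1.inv.mul sn) ?_ sup_X0
    show loc CJ ((Ps (cj CJ (ss ^ n)))⁻¹ * cj CJ (ss ^ n)) = 1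
    rw [loc_mul h1.1.inv sn, loc_inv h1.1, h1.2.1, loc_cj (ss_pow_sup01 n)]
    group
  · rintro ⟨v, hv, h⟩
    rw [hone] at h
    obtain ⟨h1, h2, h3⟩ := SysC_sound hv h.2
    obtain ⟨m, hm, hm2⟩ := sound (fun i => loc CJ (Ps (v i))) h2 ((hL _).2 h3)
    have h4 : loc CJ (Ps (v (inl ()))) = ss ^ m () := hm2 ()
    have h5 := congrArg (loc CJ) h.1
    have s0 := St_CJ_cj sup_X0
    rw [loc_mul ((h1 _).inv.mul sn) s0, loc_mul s0 ((h1 _).inv.mul sn), loc_mul (h1 _).inv sn,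
      loc_inv (h1 _), h4, loc_cj (ss_pow_sup01 n), loc_cj sup_X0] at h5
    have h6 : (ss ^ m ())⁻¹ * ss ^ n = 1 := by
      apply rigid
      · exact GG.mul_mem (GG.inv_mem (FF_le_GG (FF.pow_mem ss_mem _)))
          (FF_le_GG (FF.pow_mem ss_mem _))
      · have h7 : Commute ((ss ^ m ())⁻¹ * ss ^ n) X0 := h5
        have h8 := h7.inv_right
        rw [X0, inv_inv] at h8
        exact h8
      · exact ((ss_sup.pow _).inv.mul (ss_sup.pow _)).map_left
    have h7 : m () = n := by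
      apply ss_pow_injective
      exact (inv_mul_eq_one.1 h6)
    have h8 : m = fun _ => n := by
      funext a; exact h7
    rw [← h8]; exact hm

end Pool.Agent.Helper48.Thompson
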