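import Mathlib
import Pool.Agent.Helper48.Thompson.Single

/-!
# Transfer to the abstract group, and computability of the reduction
-/

set_option autoImplicit false

namespace Pool.Agent.Helper48.Thompson

open Sum

/-- Evaluation of a list of letters in the abstract group. -/
def Ev (σ : ℕ → RR) (w : List ((ℕ ⊕ Bool) × Bool)) : RR :=
  (w.map (fun p : (ℕ ⊕ Bool) × Bool =>
    (if p.2 then Sum.elim σ (fun b : Bool => (PresentedGroup.of b : RR)) p.1
      else (Sum.elim σ (fun b : Bool => (PresentedGroup.of b : RR)) p.1)⁻¹ : RR))).prod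

lemma Ev_append (σ : ℕ → RR) (u w : List ((ℕ ⊕ Bool) × Bool)) :
    Ev σ (u ++ w) = Ev σ u * Ev σ w := by
  simp [Ev]

/-- Repetition of a list. -/
def rpt (l : List ((ℕ ⊕ Bool) × Bool)) : ℕ → List ((ℕ ⊕ Bool) × Bool) :=
  Nat.rec [] (fun _ acc => l ++ acc)

lemma rpt_succ (l : List ((ℕ ⊕ Bool) × Bool)) (n : ℕ) : rpt l (n + 1) = l ++ rpt l n := rfl

lemma Ev_rpt (σ : ℕ → RR) (l : List ((ℕ ⊕ Bool) × Bool)) (n : ℕ) :
    Ev σ (rpt l n) = Ev σ l ^ n := by
  induction n with
  | zero => rw [pow_zero]; rfl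
  | succ n ih => rw [rpt_succ, Ev_append, ih, pow_succ']

lemma primrec_rpt (l : List ((ℕ ⊕ Bool) × Bool)) : Primrec (rpt l) := by
  unfold rpt
  refine Primrec.nat_rec₁ _ ?_
  exact Primrec.list_append.comp (Primrec.const l) Primrec.snd

/-- Renaming of letters. -/
def sw {V : Type} (e : V → ℕ) (p : (Bool ⊕ V) × Bool) : (ℕ ⊕ Bool) × Bool :=
  (Sum.elim inr (fun i => inl (e i)) p.1, p.2)

lemma real_Ev {V : Type} (e : V → ℕ) (σ : ℕ → RR) (l : List ((Bool ⊕ V) × Bool)) :
    real (Ev σ (l.map (sw e))) = ev (fun i => real (σ (e i))) (FreeGroup.mk l) := by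
  rw [ev, FreeGroup.lift_mk, Ev, map_list_prod, List.map_map, List.map_map]
  congr 1
  apply List.map_congr_left
  rintro ⟨i, b⟩ -
  have h : real (Sum.elim σ (fun b : Bool => (PresentedGroup.of b : RR)) (sw e (i, b)).1) =
      Sum.elim gens (fun i => real (σ (e i))) i := by
    rcases i with c | i
    · cases c
      · exact real_y0
      · exact real_y1
    · rfl
  cases b
  · show real ((Sum.elim σ (fun b : Bool => (PresentedGroup.of b : RR)) (sw e (i, false)).1)⁻¹) = _
    rw [map_inv, h]; rfl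
  · exact h

lemma mk_surj {A : Type} (w : FreeGroup A) : ∃ l, FreeGroup.mk l = w := Quot.exists_rep w

/-- Solvability of an equation. -/
def SAT (w : List ((ℕ ⊕ Bool) × Bool)) : Prop := ∃ σ : ℕ → RR, Ev σ w = 1

theorem exists_reduction {P : (Unit → ℕ) → Prop} (hP : Def P) :
    ∃ f : ℕ → List ((ℕ ⊕ Bool) × Bool), Primrec f ∧ ∀ n, P (fun _ => n) ↔ SAT (f n) := by
  obtain ⟨V, _, w₁, w₂, w₃, c, h⟩ := exists_words hP
  obtain ⟨l₁, rfl⟩ := mk_surj w₁
  obtain ⟨l₂, rfl⟩ := mk_surj w₂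
  obtain ⟨l₃, rfl⟩ := mk_surj w₃
  obtain ⟨k, rfl⟩ := mk_surj c
  obtain ⟨k', hk'⟩ := mk_surj (FreeGroup.mk k)⁻¹
  obtain ⟨e, he⟩ := exists_injective_nat V
  refine ⟨fun n => l₁.map (sw e) ++ (rpt (k.map (sw e)) n ++ (l₂.map (sw e) ++
    (rpt (k'.map (sw e)) n ++ l₃.map (sw e)))), ?_, fun n => ?_⟩
  · exact Primrec.list_append.comp (Primrec.const _) (Primrec.list_append.comp (primrec_rpt _)
      (Primrec.list_append.comp (Primrec.const _) (Primrec.list_append.comp (primrec_rpt _)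
        (Primrec.const _))))
  rw [h n]
  have key : ∀ σ : ℕ → RR, real (Ev σ (l₁.map (sw e) ++ (rpt (k.map (sw e)) n ++ (l₂.map (sw e) ++
      (rpt (k'.map (sw e)) n ++ l₃.map (sw e)))))) = ev (fun i => real (σ (e i)))
        (FreeGroup.mk l₁ * (FreeGroup.mk k) ^ n * FreeGroup.mk l₂ * (FreeGroup.mk k)⁻¹ ^ n *
          FreeGroup.mk l₃) := by
    intro σ
    rw [← hk']
    simp only [Ev_append, Ev_rpt, map_mul, map_pow, real_Ev, mul_assoc]
  constructor
  · rintro ⟨v, hv, hv2⟩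
    choose r hr using fun i => exists_real (v i) (hv i)
    refine ⟨Function.extend e r (fun _ => 1), ?_⟩
    apply real_injective
    rw [key, map_one]
    have : (fun i => real (Function.extend e r (fun _ => 1) (e i))) = v := by
      funext i
      rw [he.extend_apply, hr]
    rw [this]
    exact hv2
  · rintro ⟨σ, hσ⟩
    refine ⟨fun i => real (σ (e i)), fun i => real_mem _, ?_⟩
    rw [← key, hσ, map_one]

theorem undecidable_of_def {P : (Unit → ℕ) → Prop} (hP : Def P)
    (h : ¬ ComputablePred (fun n : ℕ => P (fun _ => n))) : ¬ ComputablePred SAT := by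
  intro hS
  obtain ⟨f, hf, hf2⟩ := exists_reduction hP
  apply h
  exact ComputablePred.computable_of_manyOneReducible ⟨f, hf.to_comp, hf2⟩ hS

end Pool.Agent.Helper48.Thompson
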