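import Mathlib
import Pool.Agent.Helper27.ClosedClass
import Pool.Agent.Helper48.Thompson.Final

/-!
# The single equation problem in Thompson's group `F` is undecidable
-/

set_option autoImplicit false

namespace Pool.Agent.Helper48.Thompson

/-- Definable relations form a closed class. -/
theorem closed_def : Pool.Agent.Helper27.Closed @Def where
  and := fun hP hQ => hP.and hQ
  or := fun hP hQ => def_or hP hQ
  rename := fun f hP => hP.rename f
  ex := fun hP => hP.ex
  aff := fun i j m c => Def.aff i j m c
  star := fun h => def_star h

/-- The single equation problem in Thompson's group `F` is undecidable. -/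
theorem not_computable_SAT : ¬ ComputablePred SAT := by
  obtain ⟨H, hH, hn⟩ := closed_def.exists_undecidable
  exact undecidable_of_def hH hn

end Pool.Agent.Helper48.Thompson
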